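import Mathlib

set_option autoImplicit false

namespace Pool.Agent.H430Z.FreeP

open scoped ENNReal

/-- `d` is an `r`-metric on `M`: it is nonnegative and `d ^ r` is a metric. -/
structure IsRMetric (r : ℝ) {M : Type} (d : M → M → ℝ) : Prop where
  nonneg : ∀ x y, 0 ≤ d x y
  eq_zero_iff : ∀ x y, d x y ^ r = 0 ↔ x = y
  symm : ∀ x y, d x y ^ r = d y x ^ r
  triangle : ∀ x y z, d x z ^ r ≤ d x y ^ r + d y z ^ r

/-- `ν` is a `p`-norm on the real vector space `Y` and `Y` is complete for it. -/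
structure IsPBanach (p : ℝ) {Y : Type} [AddCommGroup Y] [Module ℝ Y] (ν : Y → ℝ) : Prop where
  nonneg : ∀ y, 0 ≤ ν y
  eq_zero : ∀ y, ν y = 0 → y = 0
  smul : ∀ (c : ℝ) (y : Y), ν (c • y) = |c| * ν y
  triangle : ∀ y z, ν (y + z) ^ p ≤ ν y ^ p + ν z ^ p
  complete : ∀ u : ℕ → Y, (∀ ε > 0, ∃ n₀, ∀ m ≥ n₀, ∀ n ≥ n₀, ν (u m - u n) < ε) →
    ∃ y, ∀ ε > 0, ∃ n₀, ∀ n ≥ n₀, ν (u n - y) < ε

/-- The norm of `∑ x, a x • δ(x)` in the Lipschitz-free `p`-space over the finite pointed space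
`(X, d, o)`: the supremum of `‖∑ x, a x • f x‖` over all `p`-Banach spaces `Y` and all
`1`-Lipschitz maps `f : X → Y` with `f o = 0`. -/
noncomputable def freeNorm (p : ℝ) {X : Type} [Fintype X] (d : X → X → ℝ) (o : X) (a : X → ℝ) :
    ℝ≥0∞ :=
  ⨆ (Y : Type) (_ : AddCommGroup Y) (_ : Module ℝ Y) (ν : Y → ℝ) (_ : IsPBanach p ν)
    (f : X → Y) (_ : f o = 0) (_ : ∀ x y, ν (f x - f y) ≤ d x y),
    ENNReal.ofReal (ν (∑ x, a x • f x))

/-- The `p`-amenability constant `am_p(N, M)` of a subset `N ∋ o` of the finite pointed space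
`(M, d, o)`: the supremum of `‖μ‖_{F_p(N)} / ‖μ‖_{F_p(M)}` over all `μ = ∑ x ∈ N, a x • δ(x)`
that are nonzero as functionals on the real functions vanishing at `o`. -/
noncomputable def am (p : ℝ) {M : Type} [Fintype M] [DecidableEq M] (d : M → M → ℝ) (o : M)
    (N : Finset M) (ho : o ∈ N) : ℝ≥0∞ :=
  ⨆ (a : N → ℝ) (_ : ∃ g : N → ℝ, g ⟨o, ho⟩ = 0 ∧ ∑ x, a x * g x ≠ 0),
    freeNorm p (fun x y : N => d x y) ⟨o, ho⟩ a /
      freeNorm p d o (fun x => if h : x ∈ N then a ⟨x, h⟩ else 0)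

/-- `A_p^q(n)`: the supremum of `am_p(N, M)` over finite pointed `q`-metric spaces `M` and
subsets `N` containing the base point with `n + 1` elements. -/
noncomputable def amenConst (p q : ℝ) (n : ℕ) : ℝ≥0∞ :=
  ⨆ (M : Type) (_ : Fintype M) (_ : DecidableEq M) (d : M → M → ℝ) (_ : IsRMetric q d) (o : M)
    (N : Finset M) (ho : o ∈ N) (_ : N.card = n + 1), am p d o N ho

end Pool.Agent.H430Z.FreeP
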