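import Mathlib
import Pool.Agent.H430Z.FreePDefs

set_option autoImplicit false

namespace Pool.Agent.H430Z.FreeP

open Finset

section flow

variable {G : Type} [Fintype G] [DecidableEq G]

/-- divergence of a flow at a non-base vertex -/
def dv (F : Option G → Option G → ℝ) (g : G) : ℝ := ∑ y, (F (some g) y - F y (some g))

/-- concave cost of a flow -/
noncomputable def cost (p : ℝ) (W : Option G → Option G → ℝ) (F : Option G → Option G → ℝ) : ℝ :=
  ∑ x, ∑ y, |F x y| ^ p * W x y

/-- minimal cost of a flow with divergence `v` -/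
noncomputable def PP (p : ℝ) (W : Option G → Option G → ℝ) (v : G → ℝ) : ℝ :=
  sInf {c | ∃ F, (∀ g, dv F g = v g) ∧ cost p W F = c}

/-- the star flow -/
def starFlow (v : G → ℝ) (x y : Option G) : ℝ := if y = none then x.elim 0 v else 0

lemma dv_starFlow (v : G → ℝ) (g : G) : dv (starFlow v) g = v g := by
  simp [dv, starFlow]

variable {p A : ℝ} {W : Option G → Option G → ℝ}

omit [DecidableEq G] in
lemma cost_nonneg (hW : ∀ x y, 1 ≤ W x y) (F : Option G → Option G → ℝ) : 0 ≤ cost p W F := by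
  refine sum_nonneg fun x _ => sum_nonneg fun y _ => ?_
  have := hW x y
  positivity

omit [DecidableEq G] in
lemma PP_le (hW : ∀ x y, 1 ≤ W x y) {v : G → ℝ} {F : Option G → Option G → ℝ}
    (hF : ∀ g, dv F g = v g) : PP p W v ≤ cost p W F := by
  refine csInf_le ⟨0, ?_⟩ ⟨F, hF, rfl⟩
  rintro c ⟨F', -, rfl⟩
  exact cost_nonneg hW F'

lemma le_PP {v : G → ℝ} {c : ℝ} (h : ∀ F, (∀ g, dv F g = v g) → c ≤ cost p W F) :
    c ≤ PP p W v := by
  refine le_csInf ⟨_, starFlow v, dv_starFlow v, rfl⟩ ?_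
  rintro c ⟨F, hF, rfl⟩
  exact h F hF

lemma PP_nonneg (hW : ∀ x y, 1 ≤ W x y) (v : G → ℝ) : 0 ≤ PP p W v :=
  le_PP fun F _ => cost_nonneg hW F

lemma abs_add_rpow_le (hp : 0 < p) (hp1 : p ≤ 1) (a b : ℝ) :
    |a + b| ^ p ≤ |a| ^ p + |b| ^ p :=
  (Real.rpow_le_rpow (abs_nonneg _) (abs_add_le a b) hp.le).trans
    (Real.rpow_add_le_add_rpow (abs_nonneg a) (abs_nonneg b) hp.le hp1)

lemma sum_rpow_le (hp : 0 < p) (hp1 : p ≤ 1) {ι : Type} (s : Finset ι) (a : ι → ℝ)
    (ha : ∀ i, 0 ≤ a i) : (∑ i ∈ s, a i) ^ p ≤ ∑ i ∈ s, a i ^ p := by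
  classical
  induction s using Finset.induction_on with
  | empty => simp [Real.zero_rpow hp.ne']
  | insert i s hi ih =>
    rw [sum_insert hi, sum_insert hi]
    exact (Real.rpow_add_le_add_rpow (ha i) (sum_nonneg fun j _ => ha j) hp.le hp1).trans
      (by linarith)

lemma PP_add (hp : 0 < p) (hp1 : p ≤ 1) (hW : ∀ x y, 1 ≤ W x y) (v w : G → ℝ) :
    PP p W (v + w) ≤ PP p W v + PP p W w := by
  have h1 : ∀ F, (∀ g, dv F g = v g) → ∀ F', (∀ g, dv F' g = w g) →
      PP p W (v + w) ≤ cost p W F + cost p W F' := by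
    intro F hF F' hF'
    have h2 : ∀ g, dv (F + F') g = (v + w) g := by
      intro g
      rw [Pi.add_apply, ← hF g, ← hF' g]
      simp only [dv, Pi.add_apply, ← sum_add_distrib]
      exact sum_congr rfl fun y _ => by ring
    refine (PP_le hW h2).trans ?_
    simp only [cost, ← sum_add_distrib]
    refine sum_le_sum fun x _ => sum_le_sum fun y _ => ?_
    have h3 := abs_add_rpow_le hp hp1 (F x y) (F' x y)
    have h4 := hW x y
    simp only [Pi.add_apply]
    nlinarith
  have h5 : PP p W (v + w) - PP p W w ≤ PP p W v := by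
    refine le_PP fun F hF => ?_
    have h6 : PP p W (v + w) - cost p W F ≤ PP p W w :=
      le_PP fun F' hF' => by linarith [h1 F hF F' hF']
    linarith
  linarith

lemma PP_smul_le (hp : 0 < p) (hW : ∀ x y, 1 ≤ W x y) (c : ℝ) (v : G → ℝ) :
    PP p W (c • v) ≤ |c| ^ p * PP p W v := by
  have h1 : ∀ F, (∀ g, dv F g = v g) → PP p W (c • v) ≤ |c| ^ p * cost p W F := by
    intro F hF
    have h2 : ∀ g, dv (c • F) g = (c • v) g := by
      intro g
      rw [Pi.smul_apply, ← hF g]
      simp only [dv, Pi.smul_apply, smul_eq_mul, mul_sum]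
      exact sum_congr rfl fun y _ => by ring
    refine (PP_le hW h2).trans (le_of_eq ?_)
    simp only [cost, mul_sum]
    refine sum_congr rfl fun x _ => sum_congr rfl fun y _ => ?_
    simp only [Pi.smul_apply, smul_eq_mul, abs_mul]
    rw [Real.mul_rpow (abs_nonneg _) (abs_nonneg _)]
    ring
  rcases eq_or_ne c 0 with rfl | hc
  · have := h1 _ (dv_starFlow v)
    simpa [Real.zero_rpow hp.ne'] using this
  · have hc' : 0 < |c| ^ p := Real.rpow_pos_of_pos (abs_pos.2 hc) p
    have h3 : PP p W (c • v) / |c| ^ p ≤ PP p W v :=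
      le_PP fun F hF => by
        rw [div_le_iff₀ hc']
        linarith [h1 F hF]
    rw [div_le_iff₀ hc'] at h3
    linarith

lemma PP_smul (hp : 0 < p) (hW : ∀ x y, 1 ≤ W x y) (c : ℝ) (v : G → ℝ) :
    PP p W (c • v) = |c| ^ p * PP p W v := by
  refine le_antisymm (PP_smul_le hp hW c v) ?_
  rcases eq_or_ne c 0 with rfl | hc
  · simpa [Real.zero_rpow hp.ne'] using PP_nonneg hW (0 : G → ℝ)
  · have h1 := PP_smul_le hp hW c⁻¹ (c • v)
    rw [smul_smul, inv_mul_cancel₀ hc, one_smul] at h1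
    have hc' : 0 < |c| ^ p := Real.rpow_pos_of_pos (abs_pos.2 hc) p
    have h2 : |c| ^ p * |c⁻¹| ^ p = 1 := by
      rw [← Real.mul_rpow (abs_nonneg _) (abs_nonneg _), ← abs_mul, mul_inv_cancel₀ hc]
      simp
    calc |c| ^ p * PP p W v ≤ |c| ^ p * (|c⁻¹| ^ p * PP p W (c • v)) := by gcongr
      _ = PP p W (c • v) := by rw [← mul_assoc, h2, one_mul]

lemma coord_le_PP (hp : 0 < p) (hp1 : p ≤ 1) (hW : ∀ x y, 1 ≤ W x y) (v : G → ℝ) (g : G) :
    |v g| ^ p ≤ 2 * PP p W v := by
  have h0 : |v g| ^ p / 2 ≤ PP p W v := by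
    refine le_PP fun F hF => ?_
    have h1 : |v g| ≤ ∑ y, (|F (some g) y| + |F y (some g)|) := by
      rw [← hF g]
      exact (abs_sum_le_sum_abs _ _).trans (sum_le_sum fun y _ => abs_sub _ _)
    have h2 : |v g| ^ p ≤ ∑ y, (|F (some g) y| ^ p + |F y (some g)| ^ p) := by
      refine (Real.rpow_le_rpow (abs_nonneg _) h1 hp.le).trans ?_
      refine (sum_rpow_le hp hp1 _ _ fun y => by positivity).trans ?_
      exact sum_le_sum fun y _ =>
        Real.rpow_add_le_add_rpow (abs_nonneg _) (abs_nonneg _) hp.le hp1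
    have h3 : ∑ x, ∑ y, |F x y| ^ p ≤ cost p W F := by
      refine sum_le_sum fun x _ => sum_le_sum fun y _ => ?_
      have h4 := hW x y
      have h5 : 0 ≤ |F x y| ^ p := by positivity
      nlinarith
    have h6 : ∑ y, |F (some g) y| ^ p ≤ ∑ x, ∑ y, |F x y| ^ p :=
      single_le_sum (f := fun x => ∑ y, |F x y| ^ p)
        (fun x _ => sum_nonneg fun y _ => by positivity) (mem_univ (some g))
    have h7 : ∑ y, |F y (some g)| ^ p ≤ ∑ x, ∑ y, |F x y| ^ p :=
      sum_le_sum fun x _ => single_le_sum (f := fun y => |F x y| ^ p)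
        (fun y _ => by positivity) (mem_univ (some g))
    rw [sum_add_distrib] at h2
    linarith
  linarith

lemma PP_le_sum (hp : 0 < p) (hW : ∀ x y, 1 ≤ W x y) (hA : ∀ x y, W x y ≤ A) (v : G → ℝ) :
    PP p W v ≤ A * ∑ g, |v g| ^ p := by
  refine (PP_le hW (dv_starFlow v)).trans ?_
  simp only [cost, Fintype.sum_option, starFlow, if_true, Option.elim, abs_zero,
    Real.zero_rpow hp.ne', zero_mul, reduceCtorEq, if_false, sum_const_zero, add_zero, zero_add,
    mul_sum]
  refine sum_le_sum fun g _ => ?_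
  have h1 := hA (some g) none
  have h2 : 0 ≤ |v g| ^ p := by positivity
  nlinarith

/-- the flow `p`-norm -/
noncomputable def nu (p : ℝ) (W : Option G → Option G → ℝ) (v : G → ℝ) : ℝ := PP p W v ^ (1 / p)

lemma nu_rpow (hp : 0 < p) (hW : ∀ x y, 1 ≤ W x y) (v : G → ℝ) : nu p W v ^ p = PP p W v := by
  unfold nu
  rw [← Real.rpow_mul (PP_nonneg hW v), one_div_mul_cancel hp.ne', Real.rpow_one]

lemma nu_nonneg (hW : ∀ x y, 1 ≤ W x y) (v : G → ℝ) : 0 ≤ nu p W v :=
  Real.rpow_nonneg (PP_nonneg hW v) _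

lemma isPBanach_nu (hp : 0 < p) (hp1 : p ≤ 1) (hW : ∀ x y, 1 ≤ W x y) (hA : ∀ x y, W x y ≤ A) :
    IsPBanach p (nu p W : (G → ℝ) → ℝ) where
  nonneg := nu_nonneg hW
  eq_zero := by
    intro v hv
    have h1 := nu_rpow hp hW v
    rw [hv, Real.zero_rpow hp.ne'] at h1
    funext g
    have h2 := coord_le_PP hp hp1 hW v g
    rw [← h1, mul_zero] at h2
    by_contra h
    have h3 : 0 < |v g| ^ p := Real.rpow_pos_of_pos (abs_pos.2 h) p
    linarith
  smul := by
    intro c v
    unfold nu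
    rw [PP_smul hp hW, Real.mul_rpow (by positivity) (PP_nonneg hW v),
      ← Real.rpow_mul (abs_nonneg c), mul_one_div_cancel hp.ne', Real.rpow_one]
  triangle := by
    intro v w
    rw [nu_rpow hp hW, nu_rpow hp hW, nu_rpow hp hW]
    exact PP_add hp hp1 hW v w
  complete := by
    intro u hu
    have hc : ∀ g, CauchySeq fun n => u n g := by
      intro g
      rw [Metric.cauchySeq_iff]
      intro ε hε
      have hε' : 0 < (ε ^ p / 2) ^ (1 / p) := by positivity
      obtain ⟨n₀, hn₀⟩ := hu _ hε'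
      refine ⟨n₀, fun m hm n hn => ?_⟩
      have h1 := Real.rpow_lt_rpow (nu_nonneg hW _) (hn₀ m hm n hn) hp
      rw [nu_rpow hp hW, ← Real.rpow_mul (by positivity), one_div_mul_cancel hp.ne',
        Real.rpow_one] at h1
      have h2 := coord_le_PP hp hp1 hW (u m - u n) g
      have h3 : |(u m - u n) g| ^ p < ε ^ p := by linarith
      rw [Real.dist_eq]
      exact (Real.rpow_lt_rpow_iff (abs_nonneg _) hε.le hp).1 h3
    choose y hy using fun g => cauchySeq_tendsto_of_complete (hc g)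
    refine ⟨y, fun ε hε => ?_⟩
    have h1 : Filter.Tendsto (fun n => A * ∑ g, |u n g - y g| ^ p) Filter.atTop
        (nhds (A * ∑ g : G, (0 : ℝ))) := by
      refine Filter.Tendsto.const_mul A (tendsto_finsetSum _ fun g _ => ?_)
      have h2 : Filter.Tendsto (fun n => |u n g - y g|) Filter.atTop (nhds 0) := by
        have := ((hy g).sub_const (y g)).abs
        simpa using this
      have h3 := h2.rpow_const (p := p) (Or.inr hp.le)
      rwa [Real.zero_rpow hp.ne'] at h3
    rw [sum_const_zero, mul_zero] at h1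
    have h4 := h1.eventually (gt_mem_nhds (Real.rpow_pos_of_pos hε p))
    obtain ⟨n₀, hn₀⟩ := Filter.eventually_atTop.1 h4
    refine ⟨n₀, fun n hn => ?_⟩
    have h5 := PP_le_sum hp hW hA (u n - y)
    have h6 : nu p W (u n - y) ^ p < ε ^ p := by
      rw [nu_rpow hp hW]
      exact h5.trans_lt (hn₀ n hn)
    exact (Real.rpow_lt_rpow_iff (nu_nonneg hW _) hε.le hp).1 h6

/-- the image of a vertex -/
def pt (x : Option G) : G → ℝ := fun g => if x = some g then 1 else 0

lemma PP_pt_sub (hp : 0 < p) (hW : ∀ x y, 1 ≤ W x y) (x y : Option G) :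
    PP p W (pt x - pt y) ≤ W x y := by
  have h1 : ∀ g, dv (fun a b => if a = x ∧ b = y then (1 : ℝ) else 0) g = (pt x - pt y) g := by
    intro g
    simp only [dv, pt, Pi.sub_apply, sum_sub_distrib]
    congr 1
    · by_cases h : x = some g
      · simp [h]
      · simp [h, Ne.symm h]
    · by_cases h : y = some g
      · simp [h]
      · simp [h, Ne.symm h]
  refine (PP_le hW h1).trans (le_of_eq ?_)
  simp only [cost]
  rw [sum_eq_single x, sum_eq_single y]
  · simp
  · intro b _ hb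
    simp [hb, Real.zero_rpow hp.ne']
  · simp
  · intro a _ ha
    simp [ha, Real.zero_rpow hp.ne']
  · simp

end flow

end Pool.Agent.H430Z.FreeP
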