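import Mathlib
import Pool.Agent.H430Z.FreePFlow

set_option autoImplicit false

namespace Pool.Agent.H430Z.FreeP

open Finset

lemma self_le_rpow {p t : ℝ} (hp : 0 < p) (hp1 : p ≤ 1) (ht : 0 ≤ t) (ht1 : t ≤ 1) :
    t ≤ t ^ p := by
  rcases ht.eq_or_lt with rfl | h
  · rw [Real.zero_rpow hp.ne']
  · conv_lhs => rw [← Real.rpow_one t]
    exact Real.rpow_le_rpow_of_exponent_ge h ht1 hp1

lemma scalar_bound {p A B lam m i o : ℝ} (hp : 0 < p) (hp1 : p ≤ 1) (hB : 0 ≤ B) (hA : 0 ≤ A)
    (hm : 1 ≤ m) (hl1 : lam ≤ A - B) (hl2 : lam * m ≤ A * m ^ p - B)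
    (hi : 0 ≤ i) (ho : 0 ≤ o) (hio : 1 ≤ i + o) :
    B + lam * min o m ≤ B * i ^ p + A * o ^ p := by
  have hip : 0 ≤ i ^ p := by positivity
  rcases le_total o 1 with h1 | h1
  · rw [min_eq_left (h1.trans hm)]
    have h2 : 1 - o ≤ i ^ p :=
      (self_le_rpow hp hp1 (by linarith) (by linarith)).trans
        (Real.rpow_le_rpow (by linarith) (by linarith) hp.le)
    have h3 : o ≤ o ^ p := self_le_rpow hp hp1 ho h1
    nlinarith [mul_le_mul_of_nonneg_left h2 hB, mul_le_mul_of_nonneg_left h3 hA,
      mul_le_mul_of_nonneg_right hl1 ho]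
  · rcases le_total m o with h2 | h2
    · rw [min_eq_right h2]
      have h3 : m ^ p ≤ o ^ p := Real.rpow_le_rpow (by linarith) h2 hp.le
      nlinarith [mul_le_mul_of_nonneg_left h3 hA, mul_nonneg hB hip]
    · rw [min_eq_left h2]
      rcases hm.eq_or_lt with hm1 | hm1
      · have h4 : o = 1 := by linarith
        rw [h4, Real.one_rpow]
        nlinarith [mul_nonneg hB hip]
      · set θ := (o - 1) / (m - 1) with hθ
        have hm2 : 0 < m - 1 := by linarith
        have hθ0 : 0 ≤ θ := div_nonneg (by linarith) hm2.le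
        have hθ1 : θ ≤ 1 := by
          rw [hθ, div_le_one hm2]
          linarith
        have ho' : (1 - θ) * 1 + θ * m = o := by
          rw [hθ]
          field_simp
          ring
        have hc := (Real.concaveOn_rpow hp.le hp1).2 (show (1 : ℝ) ∈ Set.Ici 0 by simp)
          (show m ∈ Set.Ici 0 by simp; linarith) (show 0 ≤ 1 - θ by linarith) hθ0 (by ring)
        simp only [smul_eq_mul, Real.one_rpow] at hc
        rw [ho'] at hc
        have h5 := mul_le_mul_of_nonneg_left hc hA
        have h6 := mul_le_mul_of_nonneg_left hl1 (show 0 ≤ 1 - θ by linarith)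
        have h7 := mul_le_mul_of_nonneg_left hl2 hθ0
        have h8 : lam * o = (1 - θ) * lam + θ * (lam * m) := by
          rw [← ho']
          ring
        nlinarith [mul_nonneg hB hip]

lemma sum_min_ge {ι : Type} [Fintype ι] (o : ι → ℝ) (m : ℝ) (hm : 0 ≤ m) (ho : ∀ i, 0 ≤ o i)
    (h : m ≤ ∑ i, o i) : m ≤ ∑ i, min (o i) m := by
  by_cases h1 : ∀ i, o i ≤ m
  · rwa [sum_congr rfl fun i _ => min_eq_left (h1 i)]
  · push Not at h1
    obtain ⟨i, hi⟩ := h1
    have h2 := single_le_sum (f := fun i => min (o i) m) (fun j _ => le_min (ho j) hm)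
      (mem_univ i)
    simp only [min_eq_right hi.le] at h2
    exact h2

variable {k m : ℕ}

/-- weights: `B` inside a group and `A` otherwise -/
def wt (A B : ℝ) (x y : Option (Fin k × Fin m)) : ℝ :=
  if x.map Prod.fst = y.map Prod.fst then B else A

lemma wt_symm (A B : ℝ) (x y : Option (Fin k × Fin m)) : wt A B x y = wt A B y x := by
  unfold wt
  by_cases h : x.map Prod.fst = y.map Prod.fst
  · rw [if_pos h, if_pos h.symm]
  · rw [if_neg h, if_neg (Ne.symm h)]

lemma lower_cost {p A B lam : ℝ} (hp : 0 < p) (hp1 : p ≤ 1) (hB : 1 ≤ B) (hA : 1 ≤ A)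
    (hm : 1 ≤ m) (hl0 : 0 ≤ lam) (hl1 : lam ≤ A - B) (hl2 : lam * m ≤ A * (m : ℝ) ^ p - B)
    (F : Option (Fin k × Fin m) → Option (Fin k × Fin m) → ℝ) (hF : ∀ g, dv F g = 1) :
    k * (m * B + lam * m) ≤ cost p (wt A B) F := by
  have hW0 : ∀ x y : Option (Fin k × Fin m), 0 ≤ wt A B x y := by
    intro x y
    unfold wt
    split_ifs <;> linarith
  set out : Option (Fin k × Fin m) → Option (Fin k × Fin m) → ℝ :=
    fun x y => max (F x y) 0 + max (-F y x) 0 with hout
  have hout0 : ∀ x y, 0 ≤ out x y := fun x y => add_nonneg (le_max_right _ _) (le_max_right _ _)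
  have hnet : ∀ x y, F x y - F y x ≤ out x y := fun x y => by
    have h1 := le_max_left (F x y) 0
    have h2 := le_max_left (-F y x) 0
    simp only [hout]
    linarith
  have habs : ∀ a : ℝ, max a 0 ^ p + max (-a) 0 ^ p = |a| ^ p := by
    intro a
    rcases le_total 0 a with h | h
    · rw [max_eq_left h, max_eq_right (by linarith), Real.zero_rpow hp.ne', add_zero,
        abs_of_nonneg h]
    · rw [max_eq_right h, max_eq_left (by linarith), Real.zero_rpow hp.ne', zero_add,
        abs_of_nonpos h]
  have h1 : ∑ x, ∑ y, out x y ^ p * wt A B x y ≤ cost p (wt A B) F := by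
    have h2 : ∑ x, ∑ y, out x y ^ p * wt A B x y ≤
        ∑ x, ∑ y, (max (F x y) 0 ^ p * wt A B x y + max (-F y x) 0 ^ p * wt A B y x) := by
      refine sum_le_sum fun x _ => sum_le_sum fun y _ => ?_
      rw [wt_symm A B y x, ← add_mul]
      exact mul_le_mul_of_nonneg_right
        (Real.rpow_add_le_add_rpow (le_max_right _ _) (le_max_right _ _) hp.le hp1) (hW0 x y)
    refine h2.trans (le_of_eq ?_)
    simp only [sum_add_distrib]
    rw [sum_comm (f := fun x y => max (-F y x) 0 ^ p * wt A B y x), ← sum_add_distrib]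
    unfold cost
    refine sum_congr rfl fun x _ => ?_
    rw [← sum_add_distrib]
    refine sum_congr rfl fun y _ => ?_
    rw [← add_mul, habs]
  refine le_trans ?_ h1
  rw [Fintype.sum_option]
  have h3 : 0 ≤ ∑ y, out none y ^ p * wt A B none y :=
    sum_nonneg fun y _ => mul_nonneg (Real.rpow_nonneg (hout0 _ _) _) (hW0 _ _)
  refine le_trans ?_ (le_add_of_nonneg_left h3)
  rw [Fintype.sum_prod_type]
  have h4 : ∀ j : Fin k, m * B + lam * m ≤
      ∑ i : Fin m, ∑ y, out (some (j, i)) y ^ p * wt A B (some (j, i)) y := by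
    intro j
    set inn : Fin m → ℝ := fun i =>
      ∑ y, if y.map Prod.fst = some j then out (some (j, i)) y else 0 with hinn
    set ou : Fin m → ℝ := fun i =>
      ∑ y, if y.map Prod.fst = some j then 0 else out (some (j, i)) y with hou
    have hinn0 : ∀ i, 0 ≤ inn i := fun i => sum_nonneg fun y _ => by
      split_ifs
      · exact hout0 _ _
      · exact le_rfl
    have hou0 : ∀ i, 0 ≤ ou i := fun i => sum_nonneg fun y _ => by
      split_ifs
      · exact le_rfl
      · exact hout0 _ _
    have h5 : ∀ i, 1 ≤ inn i + ou i := by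
      intro i
      rw [← hF (j, i)]
      simp only [hinn, hou, ← sum_add_distrib, dv]
      refine sum_le_sum fun y _ => ?_
      split_ifs
      · simpa using hnet _ _
      · simpa using hnet _ _
    have h6 : (m : ℝ) ≤ ∑ i, ou i := by
      have h7 : (m : ℝ) = ∑ i : Fin m, dv F (j, i) := by simp [hF]
      have h8 : ∀ i : Fin m, dv F (j, i) ≤
          ∑ i' : Fin m, (F (some (j, i)) (some (j, i')) - F (some (j, i')) (some (j, i))) +
            ou i := by
        intro i
        have h9 : ∑ i' : Fin m, (F (some (j, i)) (some (j, i')) - F (some (j, i')) (some (j, i)))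
            = ∑ y, if y.map Prod.fst = some j then
              F (some (j, i)) y - F y (some (j, i)) else 0 := by
          rw [Fintype.sum_option, Fintype.sum_prod_type, sum_eq_single j]
          · simp
          · intro b _ hb
            simp [hb]
          · simp
        rw [h9]
        simp only [hou, ← sum_add_distrib, dv]
        refine sum_le_sum fun y _ => ?_
        split_ifs
        · simp
        · simpa using hnet _ _
      have h10 : ∑ i : Fin m, ∑ i' : Fin m,
          (F (some (j, i)) (some (j, i')) - F (some (j, i')) (some (j, i))) = 0 := by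
        simp only [sum_sub_distrib]
        rw [sum_comm (f := fun i i' : Fin m => F (some (j, i')) (some (j, i))), sub_self]
      have h11 := sum_le_sum fun i (_ : i ∈ univ) => h8 i
      rw [sum_add_distrib, h10, zero_add] at h11
      linarith
    have h12 : ∀ i, B * inn i ^ p + A * ou i ^ p ≤
        ∑ y, out (some (j, i)) y ^ p * wt A B (some (j, i)) y := by
      intro i
      have h13 := sum_rpow_le hp hp1 univ
        (fun y => if y.map Prod.fst = some j then out (some (j, i)) y else 0)
        (fun y => by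
          split_ifs
          · exact hout0 _ _
          · exact le_rfl)
      have h14 := sum_rpow_le hp hp1 univ
        (fun y => if y.map Prod.fst = some j then 0 else out (some (j, i)) y)
        (fun y => by
          split_ifs
          · exact le_rfl
          · exact hout0 _ _)
      have h15 := mul_le_mul_of_nonneg_left h13 (show 0 ≤ B by linarith)
      have h16 := mul_le_mul_of_nonneg_left h14 (show 0 ≤ A by linarith)
      refine (add_le_add h15 h16).trans (le_of_eq ?_)
      rw [mul_sum, mul_sum, ← sum_add_distrib]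
      refine sum_congr rfl fun y _ => ?_
      unfold wt
      by_cases hy : y.map Prod.fst = some j
      · simp [hy, Real.zero_rpow hp.ne', mul_comm]
      · simp [hy, Ne.symm hy, Real.zero_rpow hp.ne', mul_comm]
    have hm' : (1 : ℝ) ≤ m := by exact_mod_cast hm
    have h17 : ∀ i, B + lam * min (ou i) m ≤ B * inn i ^ p + A * ou i ^ p := fun i =>
      scalar_bound hp hp1 (by linarith) (by linarith) hm' hl1 hl2 (hinn0 i) (hou0 i) (h5 i)
    have h18 := sum_min_ge ou m (by linarith) hou0 h6
    have h19 := sum_le_sum fun i (_ : i ∈ univ) => (h17 i).trans (h12 i)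
    rw [sum_add_distrib, ← mul_sum] at h19
    simp only [sum_const, card_univ, Fintype.card_fin, nsmul_eq_mul] at h19
    nlinarith [mul_le_mul_of_nonneg_left h18 hl0]
  have h20 := sum_le_sum fun j (_ : j ∈ univ) => h4 j
  simpa only [sum_const, card_univ, Fintype.card_fin, nsmul_eq_mul] using h20

end Pool.Agent.H430Z.FreeP
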