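import Mathlib
import Pool.Agent.H430Z.FreePLower

set_option autoImplicit false

namespace Pool.Agent.H430Z.FreeP

open Finset
open scoped ENNReal

/-- star pseudometric -/
def starD {X : Type} [DecidableEq X] (t : X → ℝ) (x y : X) : ℝ := if x = y then 0 else t x + t y

lemma starD_nonneg {X : Type} [DecidableEq X] {t : X → ℝ} (ht : ∀ x, 0 ≤ t x) (x y : X) :
    0 ≤ starD t x y := by
  unfold starD
  split_ifs
  · exact le_rfl
  · exact add_nonneg (ht x) (ht y)

lemma starD_symm {X : Type} [DecidableEq X] (t : X → ℝ) (x y : X) :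
    starD t x y = starD t y x := by
  unfold starD
  by_cases h : x = y
  · rw [if_pos h, if_pos h.symm]
  · rw [if_neg h, if_neg (Ne.symm h), add_comm]

lemma starD_triangle {X : Type} [DecidableEq X] {t : X → ℝ} (ht : ∀ x, 0 ≤ t x) (x y z : X) :
    starD t x z ≤ starD t x y + starD t y z := by
  have h1 := ht x
  have h2 := ht y
  have h3 := ht z
  unfold starD
  by_cases hxy : x = y
  · subst hxy
    simp
  · by_cases hyz : y = z
    · subst hyz
      simp
    · rw [if_neg hxy, if_neg hyz]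
      split_ifs <;> linarith

variable {k m : ℕ}

/-- the vertices of the tree -/
abbrev Tr (k m : ℕ) : Type := Option (Fin k) × Option (Fin m)

/-- pendant lengths -/
def tl : Tr k m → ℝ
  | (_, none) => 0
  | (none, some _) => 2
  | (some _, some _) => 1

/-- lengths of the middle edges -/
def sl : Option (Fin k) → ℝ
  | none => 0
  | some _ => 1

lemma tl_nonneg (x : Tr k m) : 0 ≤ tl x := by
  rcases x with ⟨_ | j, _ | i⟩ <;> simp [tl]

lemma sl_nonneg (x : Option (Fin k)) : 0 ≤ sl x := by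
  rcases x with _ | j <;> simp [sl]

/-- the tree metric -/
def rho (x y : Tr k m) : ℝ := starD tl x y + starD sl x.1 y.1

lemma rho_nonneg (x y : Tr k m) : 0 ≤ rho x y :=
  add_nonneg (starD_nonneg tl_nonneg _ _) (starD_nonneg sl_nonneg _ _)

lemma rho_symm (x y : Tr k m) : rho x y = rho y x := by
  unfold rho
  rw [starD_symm tl x y, starD_symm sl x.1 y.1]

lemma rho_triangle (x y z : Tr k m) : rho x z ≤ rho x y + rho y z := by
  unfold rho
  linarith [starD_triangle tl_nonneg x y z, starD_triangle sl_nonneg x.1 y.1 z.1]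

lemma rho_self (x : Tr k m) : rho x x = 0 := by simp [rho, starD]

lemma rho_eq_zero (x y : Tr k m) : rho x y = 0 ↔ x = y := by
  refine ⟨fun h => ?_, fun h => h ▸ rho_self x⟩
  by_contra hne
  have h1 := starD_nonneg (tl_nonneg (k := k) (m := m)) x y
  have h2 := starD_nonneg (sl_nonneg (k := k)) x.1 y.1
  unfold rho at h
  have h3 : starD tl x y = 0 := by linarith
  have h4 : starD sl x.1 y.1 = 0 := by linarith
  unfold starD at h3 h4
  rw [if_neg hne] at h3
  rcases x with ⟨_ | j, _ | i⟩ <;> rcases y with ⟨_ | j', _ | i'⟩ <;>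
    simp [tl, sl] at h3 h4 hne <;> first | exact hne h4 | linarith

/-- the `q`-metric -/
noncomputable def dd (q : ℝ) (x y : Tr k m) : ℝ := rho x y ^ (1 / q)

lemma dd_rpow {q : ℝ} (s : ℝ) (x y : Tr k m) : dd q x y ^ s = rho x y ^ (s / q) := by
  unfold dd
  rw [← Real.rpow_mul (rho_nonneg x y)]
  congr 1
  ring

lemma dd_nonneg (q : ℝ) (x y : Tr k m) : 0 ≤ dd q x y := Real.rpow_nonneg (rho_nonneg x y) _

lemma isRMetric_dd {q : ℝ} (hq : 0 < q) : IsRMetric q (dd q : Tr k m → Tr k m → ℝ) where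
  nonneg := dd_nonneg q
  eq_zero_iff := fun x y => by
    rw [dd_rpow, div_self hq.ne', Real.rpow_one, rho_eq_zero]
  symm := fun x y => by rw [dd_rpow, dd_rpow, rho_symm]
  triangle := fun x y z => by
    rw [dd_rpow, dd_rpow, dd_rpow, div_self hq.ne', Real.rpow_one, Real.rpow_one, Real.rpow_one]
    exact rho_triangle x y z

/-- base point -/
def base (k : ℕ) (hm : 0 < m) : Tr k m := (none, some ⟨0, hm⟩)

/-- the terminals -/
def term (k : ℕ) (hm : 0 < m) : Finset (Tr k m) :=
  univ.filter fun x => x = base k hm ∨ (x.1.isSome ∧ x.2.isSome)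

lemma base_mem (hm : 0 < m) : base k hm ∈ term k hm := by simp [term]

lemma leaf_mem (hm : 0 < m) (j : Fin k) (i : Fin m) : (some j, some i) ∈ term k hm := by
  simp [term]

lemma mem_term {hm : 0 < m} {x : Tr k m} (hx : x ∈ term k hm) :
    x = base k hm ∨ ∃ j i, x = (some j, some i) := by
  simp only [term, mem_filter, mem_univ, true_and] at hx
  rcases hx with h | ⟨h1, h2⟩
  · exact Or.inl h
  · obtain ⟨a, b⟩ := x
    obtain ⟨j, rfl⟩ := Option.isSome_iff_exists.1 h1
    obtain ⟨i, rfl⟩ := Option.isSome_iff_exists.1 h2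
    exact Or.inr ⟨j, i, rfl⟩

/-- label of a terminal -/
def lab : Tr k m → Option (Fin k × Fin m)
  | (some j, some i) => some (j, i)
  | _ => none

lemma wt_le (hm : 0 < m) {r : ℝ} {x y : Tr k m} (hx : x ∈ term k hm) (hy : y ∈ term k hm)
    (hxy : x ≠ y) : wt (4 ^ r) (2 ^ r) (lab x) (lab y) = rho x y ^ r := by
  rcases mem_term hx with rfl | ⟨j, i, rfl⟩ <;> rcases mem_term hy with rfl | ⟨j', i', rfl⟩
  · exact absurd rfl hxy
  · simp [wt, lab, base, rho, starD, tl, sl]
    norm_num
  · simp [wt, lab, base, rho, starD, tl, sl]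
    norm_num
  · by_cases hj : j = j'
    · subst hj
      have hi : i ≠ i' := fun h => hxy (by rw [h])
      simp [wt, lab, rho, starD, tl, hi]
      norm_num
    · simp [wt, lab, rho, starD, tl, sl, hj]
      norm_num

lemma nu_sum_le {p : ℝ} (hp : 0 < p) {Y : Type} [AddCommGroup Y] [Module ℝ Y] {ν : Y → ℝ}
    (hν : IsPBanach p ν) {ι : Type} (s : Finset ι) (y : ι → Y) :
    ν (∑ i ∈ s, y i) ^ p ≤ ∑ i ∈ s, ν (y i) ^ p := by
  classical
  induction s using Finset.induction_on with
  | empty =>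
    have h := hν.smul 0 0
    rw [zero_smul, abs_zero, zero_mul] at h
    simp [h, Real.zero_rpow hp.ne']
  | insert i s hi ih =>
    rw [sum_insert hi, sum_insert hi]
    exact (hν.triangle _ _).trans (by linarith)

lemma upper (hm : 0 < m) {p q : ℝ} (hp : 0 < p) :
    freeNorm p (dd q) (base k hm) (fun x => if _h : x ∈ term k hm then (1 : ℝ) else 0) ≤
      ENNReal.ofReal ((k * m + k * (m : ℝ) ^ p + ((k : ℝ) * m) ^ p * 2 ^ (p / q)) ^ (1 / p)) := by
  unfold freeNorm
  refine iSup_le fun Y => iSup_le fun _ => iSup_le fun _ => iSup_le fun ν => iSup_le fun hν =>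
    iSup_le fun f => iSup_le fun hf0 => iSup_le fun hf => ENNReal.ofReal_le_ofReal ?_
  have hsum : ∑ x, (if _h : x ∈ term k hm then (1 : ℝ) else 0) • f x =
      (∑ j : Fin k, ∑ i : Fin m, (f (some j, some i) - f (some j, none)) +
        ∑ j : Fin k, (m : ℝ) • (f (some j, none) - f (none, none))) +
        ((k : ℝ) * m) • (f (none, none) - f (base k hm)) := by
    have h1 : ∑ x, (if _h : x ∈ term k hm then (1 : ℝ) else 0) • f x =
        ∑ j : Fin k, ∑ i : Fin m, f (some j, some i) := by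
      rw [Fintype.sum_prod_type, Fintype.sum_option, Fintype.sum_option]
      have h2 : ∑ i : Fin m, (if _h : ((none, some i) : Tr k m) ∈ term k hm then (1 : ℝ) else 0) •
          f (none, some i) = 0 := by
        refine sum_eq_zero fun i _ => ?_
        split_ifs with h
        · rcases mem_term h with h' | ⟨j, i', h'⟩
          · rw [h', hf0, smul_zero]
          · simp at h'
        · simp
      rw [h2]
      have h3 : ((none, none) : Tr k m) ∉ term k hm := by simp [term, base]
      rw [dif_neg h3, zero_smul, zero_add, zero_add]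
      refine sum_congr rfl fun j _ => ?_
      rw [Fintype.sum_option]
      have h4 : ((some j, none) : Tr k m) ∉ term k hm := by simp [term, base]
      rw [dif_neg h4, zero_smul, zero_add]
      refine sum_congr rfl fun i _ => ?_
      rw [dif_pos (leaf_mem hm j i), one_smul]
    rw [h1, hf0]
    simp only [sum_sub_distrib, sum_const, card_univ, Fintype.card_fin, smul_sub, sub_zero,
      ← Nat.cast_smul_eq_nsmul ℝ, smul_smul]
    abel
  rw [hsum]
  have hlip : ∀ x y, ν (f x - f y) ^ p ≤ rho x y ^ (p / q) := fun x y => by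
    rw [← dd_rpow]
    exact Real.rpow_le_rpow (hν.nonneg _) (hf x y) hp.le
  have hA : ν (∑ j : Fin k, ∑ i : Fin m, (f (some j, some i) - f (some j, none))) ^ p ≤
      k * m := by
    refine (nu_sum_le hp hν _ _).trans ?_
    have h5 : ∀ j : Fin k, ν (∑ i : Fin m, (f (some j, some i) - f (some j, none))) ^ p ≤ m := by
      intro j
      refine (nu_sum_le hp hν _ _).trans ?_
      have h6 : ∀ i : Fin m, ν (f (some j, some i) - f (some j, none)) ^ p ≤ 1 := by
        intro i
        have h7 := hlip (some j, some i) (some j, none)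
        simpa [rho, starD, tl] using h7
      simpa using sum_le_sum fun i (_ : i ∈ univ) => h6 i
    simpa using sum_le_sum fun j (_ : j ∈ univ) => h5 j
  have hB : ν (∑ j : Fin k, (m : ℝ) • (f (some j, none) - f (none, none))) ^ p ≤
      k * (m : ℝ) ^ p := by
    refine (nu_sum_le hp hν _ _).trans ?_
    have h5 : ∀ j : Fin k, ν ((m : ℝ) • (f (some j, none) - f (none, none))) ^ p ≤
        (m : ℝ) ^ p := by
      intro j
      have h7 := hlip (some j, none) (none, none)
      have h8 : ν (f (some j, none) - f (none, none)) ^ p ≤ 1 := by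
        simpa [rho, starD, tl, sl] using h7
      rw [hν.smul, Real.mul_rpow (abs_nonneg _) (hν.nonneg _), Nat.abs_cast]
      exact mul_le_of_le_one_right (by positivity) h8
    simpa using sum_le_sum fun j (_ : j ∈ univ) => h5 j
  have hC : ν (((k : ℝ) * m) • (f (none, none) - f (base k hm))) ^ p ≤
      ((k : ℝ) * m) ^ p * 2 ^ (p / q) := by
    have h7 := hlip (none, none) (base k hm)
    have h8 : ν (f (none, none) - f (base k hm)) ^ p ≤ 2 ^ (p / q) := by
      simpa [rho, starD, tl, sl, base] using h7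
    rw [hν.smul, Real.mul_rpow (abs_nonneg _) (hν.nonneg _), abs_of_nonneg (by positivity)]
    exact mul_le_mul_of_nonneg_left h8 (by positivity)
  have h9 := hν.triangle
    (∑ j : Fin k, ∑ i : Fin m, (f (some j, some i) - f (some j, none)) +
        ∑ j : Fin k, (m : ℝ) • (f (some j, none) - f (none, none)))
    (((k : ℝ) * m) • (f (none, none) - f (base k hm)))
  have h10 := hν.triangle (∑ j : Fin k, ∑ i : Fin m, (f (some j, some i) - f (some j, none)))
    (∑ j : Fin k, (m : ℝ) • (f (some j, none) - f (none, none)))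
  rw [one_div, Real.le_rpow_inv_iff_of_pos (hν.nonneg _) (by positivity) hp]
  linarith

lemma lower (hm : 0 < m) {p q lam : ℝ} (hp : 0 < p) (hp1 : p ≤ 1) (hq : 0 < q) (hl0 : 0 ≤ lam)
    (hl1 : lam ≤ 4 ^ (p / q) - 2 ^ (p / q))
    (hl2 : lam * m ≤ 4 ^ (p / q) * (m : ℝ) ^ p - 2 ^ (p / q)) :
    ENNReal.ofReal ((k * (m * 2 ^ (p / q) + lam * m)) ^ (1 / p)) ≤
      freeNorm p (fun x y : term k hm => dd q (x : Tr k m) y) ⟨base k hm, base_mem hm⟩
        (fun _ => 1) := by
  have hr : 0 ≤ p / q := by positivity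
  have hB : (1 : ℝ) ≤ 2 ^ (p / q) := Real.one_le_rpow (by norm_num) hr
  have hA : (1 : ℝ) ≤ 4 ^ (p / q) := Real.one_le_rpow (by norm_num) hr
  have hBA : (2 : ℝ) ^ (p / q) ≤ 4 ^ (p / q) := Real.rpow_le_rpow (by norm_num) (by norm_num) hr
  have hW : ∀ x y : Option (Fin k × Fin m), 1 ≤ wt (4 ^ (p / q)) (2 ^ (p / q)) x y := by
    intro x y
    unfold wt
    split_ifs <;> assumption
  have hW' : ∀ x y : Option (Fin k × Fin m),
      wt (4 ^ (p / q)) (2 ^ (p / q)) x y ≤ 4 ^ (p / q) := by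
    intro x y
    unfold wt
    split_ifs
    · exact hBA
    · exact le_rfl
  have hν := isPBanach_nu hp hp1 hW hW'
  unfold freeNorm
  refine le_iSup_of_le (Fin k × Fin m → ℝ) (le_iSup_of_le inferInstance (le_iSup_of_le inferInstance
    (le_iSup_of_le (nu p (wt (4 ^ (p / q)) (2 ^ (p / q)))) (le_iSup_of_le hν
    (le_iSup_of_le (fun x => pt (lab (x : Tr k m))) (le_iSup_of_le ?_ (le_iSup_of_le ?_ ?_)))))))
  · funext g
    simp [pt, lab, base]
  · intro x y
    by_cases hxy : (x : Tr k m) = y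
    · have h := hν.smul 0 0
      rw [zero_smul, abs_zero, zero_mul] at h
      simp only [hxy, sub_self, h]
      exact dd_nonneg _ _ _
    · rw [← Real.rpow_le_rpow_iff (hν.nonneg _) (dd_nonneg _ _ _) hp, nu_rpow hp hW, dd_rpow,
        ← wt_le hm x.2 y.2 hxy]
      exact PP_pt_sub hp hW _ _
  · refine ENNReal.ofReal_le_ofReal ?_
    have h1 : ∑ x : term k hm, (1 : ℝ) • pt (lab (x : Tr k m)) = fun _ => 1 := by
      funext g
      obtain ⟨j, i⟩ := g
      rw [Finset.sum_apply, sum_eq_single ⟨(some j, some i), leaf_mem hm j i⟩]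
      · simp [pt, lab]
      · rintro ⟨x, hx⟩ - hne
        rcases mem_term hx with rfl | ⟨j', i', rfl⟩
        · simp [pt, lab, base]
        · have h2 : ¬(j' = j ∧ i' = i) := by
            rintro ⟨rfl, rfl⟩
            exact hne rfl
          simp [pt, lab, h2]
      · simp
    rw [h1]
    unfold nu
    refine Real.rpow_le_rpow (by positivity) ?_ (by positivity)
    exact le_PP fun F hF => lower_cost hp hp1 hB hA hm hl0 hl1 hl2 F hF

lemma exists_nat_rpow {s : ℝ} (hs : 0 < s) (C : ℝ) : ∃ n₀ : ℕ, ∀ n : ℕ, n₀ ≤ n → C < (n : ℝ) ^ s := by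
  have h := ((tendsto_rpow_atTop hs).comp tendsto_natCast_atTop_atTop).eventually_gt_atTop C
  exact Filter.eventually_atTop.1 h

theorem main (p q : ℝ) (hp : 0 < p) (hpq : p ≤ q) (hp1 : p < 1) :
    ENNReal.ofReal (2 ^ (1 / q)) < ⨆ n : ℕ, amenConst p q n := by
  have hq : 0 < q := by linarith
  have hr : 0 < p / q := by positivity
  set B : ℝ := 2 ^ (p / q) with hBdef
  have hB : 1 < B := Real.one_lt_rpow (by norm_num) hr
  have hA : (4 : ℝ) ^ (p / q) = B * B := by
    rw [hBdef, ← Real.mul_rpow (by norm_num) (by norm_num)]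
    norm_num
  have hc : 0 < B * B - B := by nlinarith
  obtain ⟨m₁, hm₁⟩ := exists_nat_rpow hp ((B + 1) / (B * B - B))
  obtain ⟨m₂, hm₂⟩ := exists_nat_rpow (show 0 < 1 - p by linarith) ((B + 1) / (B * B - B))
  obtain ⟨m, hm, hmm₁, hmm₂⟩ : ∃ m : ℕ, 0 < m ∧ m₁ ≤ m ∧ m₂ ≤ m :=
    ⟨m₁ + m₂ + 1, by omega, by omega, by omega⟩
  have hm' : (1 : ℝ) ≤ m := by exact_mod_cast hm
  have hmp : (1 : ℝ) ≤ (m : ℝ) ^ p := Real.one_le_rpow hm' hp.le
  have h1 := hm₁ m hmm₁
  have h2 := hm₂ m hmm₂
  rw [div_lt_iff₀ hc] at h1 h2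
  have h3 : (m : ℝ) ^ (1 - p) * (m : ℝ) ^ p = m := by
    rw [← Real.rpow_add (by linarith)]
    simp
  obtain ⟨k₁, hk₁⟩ := exists_nat_rpow (show 0 < 1 - p by linarith) (B * B * (m : ℝ) ^ p)
  obtain ⟨k, hk, hkk⟩ : ∃ k : ℕ, 0 < k ∧ k₁ ≤ k := ⟨k₁ + 1, by omega, by omega⟩
  have hk' : (1 : ℝ) ≤ k := by exact_mod_cast hk
  have hkp : (0 : ℝ) < (k : ℝ) ^ p := by positivity
  have h4 := hk₁ k hkk
  have h5 : (k : ℝ) ^ (1 - p) * (k : ℝ) ^ p = k := by
    rw [← Real.rpow_add (by linarith)]
    simp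
  set lam : ℝ := (B * (m : ℝ) ^ p + 1) / m with hlam
  have hlm : lam * m = B * (m : ℝ) ^ p + 1 := by
    rw [hlam]
    field_simp
  have hl0 : 0 ≤ lam := by positivity
  have hl1 : lam ≤ 4 ^ (p / q) - 2 ^ (p / q) := by
    rw [hA, ← hBdef, hlam, div_le_iff₀ (by linarith)]
    nlinarith [mul_lt_mul_of_pos_right h2 (show 0 < (m : ℝ) ^ p by linarith)]
  have hl2 : lam * m ≤ 4 ^ (p / q) * (m : ℝ) ^ p - 2 ^ (p / q) := by
    rw [hA, ← hBdef, hlm]
    nlinarith
  have hlow := lower (k := k) hm hp hp1.le hq hl0 hl1 hl2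
  have hup := upper (k := k) (q := q) hm hp
  rw [← hBdef] at hlow hup
  set L : ℝ := k * (m * B + lam * m) with hL
  set U : ℝ := k * m + k * (m : ℝ) ^ p + ((k : ℝ) * m) ^ p * B with hU
  have hU0 : 0 < U := by positivity
  have hLU : B * U < L := by
    rw [hL, hU, hlm, Real.mul_rpow (by positivity) (by positivity)]
    nlinarith [mul_lt_mul_of_pos_right h4 hkp]
  have h6 : (2 : ℝ) ^ (1 / q) < L ^ (1 / p) / U ^ (1 / p) := by
    rw [lt_div_iff₀ (by positivity)]
    have h7 : (2 : ℝ) ^ (1 / q) = B ^ (1 / p) := by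
      rw [hBdef, ← Real.rpow_mul (by norm_num)]
      congr 1
      field_simp
    rw [h7, ← Real.mul_rpow (by positivity) hU0.le]
    exact Real.rpow_lt_rpow (by positivity) hLU (by positivity)
  have h8 : ENNReal.ofReal (2 ^ (1 / q)) <
      ENNReal.ofReal (L ^ (1 / p)) / ENNReal.ofReal (U ^ (1 / p)) := by
    rw [← ENNReal.ofReal_div_of_pos (by positivity)]
    exact (ENNReal.ofReal_lt_ofReal_iff (lt_trans (by positivity) h6)).2 h6
  refine h8.trans_le ?_
  have hcard : (term k hm).card = ((term k hm).card - 1) + 1 := by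
    have := card_pos.2 ⟨_, base_mem (k := k) hm⟩
    omega
  refine le_iSup_of_le ((term k hm).card - 1) ?_
  unfold amenConst
  refine le_iSup_of_le (Tr k m) (le_iSup_of_le inferInstance (le_iSup_of_le inferInstance
    (le_iSup_of_le (dd q) (le_iSup_of_le (isRMetric_dd hq) (le_iSup_of_le (base k hm)
    (le_iSup_of_le (term k hm) (le_iSup_of_le (base_mem hm) (le_iSup_of_le hcard ?_))))))))
  unfold am
  refine le_iSup_of_le (fun _ => 1) (le_iSup_of_le ?_ (ENNReal.div_le_div hlow hup))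
  refine ⟨fun x => if x = ⟨(some ⟨0, hk⟩, some ⟨0, hm⟩), leaf_mem hm _ _⟩ then 1 else 0, ?_, ?_⟩
  · simp [base]
  · simp

end Pool.Agent.H430Z.FreeP
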