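import Pool.Agent.H430Z.KleeSearch

/-! No Dantzig path visits all 16 vertices of a product of two tetrahedra (coordinates). -/

namespace Pool.Agent.H430Z.KleeSearch

def NoAF (pos : Fin 4 → Fin 4 → ℕ) : Prop :=
  ∀ i k l j m : Fin 4, ∀ n, (n = pos k l ∨ n = pos i l) →
    pos k l < pos i l → pos i j < n → pos i j < pos k j → n < pos k m → pos i m < pos k m → False

def NoBF (pos : Fin 4 → Fin 4 → ℕ) : Prop :=
  ∀ i a e i' b k : Fin 4, pos e a = pos i a + 1 →
    pos i a < pos i' b → pos i a ≤ pos i b → pos i' b < pos e b → pos k b = pos i' b + 1 →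
    pos k b < pos e b → pos e a < pos k a → False

def NoCF (pos : Fin 4 → Fin 4 → ℕ) : Prop :=
  ∀ i a k i' b e : Fin 4, pos i k = pos i a + 1 →
    pos i a < pos i' b → pos i a ≤ pos i' a → pos i' b < pos i' k → pos e b = pos i' b + 1 →
    pos e k < pos i' k → pos i a < pos e a → False

structure HypF (pos : Fin 4 → Fin 4 → ℕ) (r c : ℕ → Fin 4) : Prop where
  hpos : ∀ t < 16, pos (r t) (c t) = t
  hlt : ∀ i j, pos i j < 16
  hinv : ∀ i j, r (pos i j) = i ∧ c (pos i j) = j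
  step : ∀ t < 15, r (t + 1) = r t ∨ c (t + 1) = c t
  A : NoAF pos
  A' : NoAF (fun a b => pos b a)
  B : NoBF pos
  B' : NoBF (fun a b => pos b a)
  C : NoCF pos
  C' : NoCF (fun a b => pos b a)

def ext4 (pos : Fin 4 → Fin 4 → ℕ) (i j : ℕ) : ℕ :=
  if h : i < 4 ∧ j < 4 then pos ⟨i, h.1⟩ ⟨j, h.2⟩ else 0

lemma ext4_eq (pos : Fin 4 → Fin 4 → ℕ) {i j : ℕ} (hi : i < 4) (hj : j < 4) :
    ext4 pos i j = pos ⟨i, hi⟩ ⟨j, hj⟩ := by
  unfold ext4
  rw [dif_pos ⟨hi, hj⟩]

lemma tr_ext4 (pos : Fin 4 → Fin 4 → ℕ) : tr (ext4 pos) = ext4 (fun a b => pos b a) := by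
  funext a b
  unfold tr ext4
  by_cases h : a < 4 ∧ b < 4
  · rw [dif_pos h, dif_pos ⟨h.2, h.1⟩]
  · rw [dif_neg h, dif_neg (fun h' => h ⟨h'.2, h'.1⟩)]

lemma NoAF.ext {pos : Fin 4 → Fin 4 → ℕ} (h : NoAF pos) : NoA (ext4 pos) := by
  intro i hi k hk l hl j hj m hm n
  simp only [ext4_eq pos, hi, hk, hl, hj, hm]
  exact h _ _ _ _ _ n

lemma NoBF.ext {pos : Fin 4 → Fin 4 → ℕ} (h : NoBF pos) : NoB (ext4 pos) := by
  intro i hi k hk l hl j hj m hm n hn
  simp only [ext4_eq pos, hi, hk, hl, hj, hm, hn]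
  exact h _ _ _ _ _ _

lemma NoCF.ext {pos : Fin 4 → Fin 4 → ℕ} (h : NoCF pos) : NoC (ext4 pos) := by
  intro i hi k hk l hl j hj m hm n hn
  simp only [ext4_eq pos, hi, hk, hl, hj, hm, hn]
  exact h _ _ _ _ _ _

lemma exists_canon (r : ℕ → Fin 4) (hr : ∀ i, ∃ t, r t = i) :
    ∃ σ : Equiv.Perm (Fin 4), ∀ t, ∀ i < σ.symm (r t), ∃ s < t, σ.symm (r s) = i := by
  classical
  let f : Fin 4 → ℕ := fun i => Nat.find (hr i)
  refine ⟨Tuple.sort f, fun t i hi => ⟨f (Tuple.sort f i), ?_, ?_⟩⟩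
  · have h1 := Tuple.monotone_sort f hi.le
    simp only [Function.comp, Equiv.apply_symm_apply] at h1
    have h2 : f (r t) ≤ t := Nat.find_min' (hr (r t)) rfl
    refine lt_of_le_of_ne (h1.trans h2) fun h3 => ?_
    have h4 : r (f (Tuple.sort f i)) = Tuple.sort f i := Nat.find_spec (hr _)
    rw [h3] at h4
    rw [h4, Equiv.symm_apply_apply] at hi
    exact lt_irrefl _ hi
  · have h4 : r (f (Tuple.sort f i)) = Tuple.sort f i := Nat.find_spec (hr _)
    rw [h4, Equiv.symm_apply_apply]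

theorem HypF.elim {pos : Fin 4 → Fin 4 → ℕ} {r c : ℕ → Fin 4} (H : HypF pos r c) : False := by
  obtain ⟨σ, hσ⟩ := exists_canon r fun i => ⟨_, (H.hinv i 0).1⟩
  obtain ⟨τ, hτ⟩ := exists_canon c fun i => ⟨_, (H.hinv 0 i).2⟩
  let pos' : Fin 4 → Fin 4 → ℕ := fun i j => pos (σ i) (τ j)
  refine Hyp.elim (pos := ext4 pos') (r := fun t => (σ.symm (r t)).val)
    (c := fun t => (τ.symm (c t)).val)
    ⟨fun t _ => Fin.is_lt _, fun t _ => Fin.is_lt _, ?_, ?_, ?_, ?_, ?_, ?_, ?_, ?_, ?_, ?_, ?_, ?_⟩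
  · intro t ht
    rw [ext4_eq _ (Fin.is_lt _) (Fin.is_lt _)]
    simp only [pos', Fin.eta, Equiv.apply_symm_apply]
    exact H.hpos t ht
  · intro i hi j hj
    rw [ext4_eq _ hi hj]
    exact H.hlt _ _
  · intro i hi j hj
    rw [ext4_eq _ hi hj]
    simp only [pos']
    rw [(H.hinv _ _).1, (H.hinv _ _).2, Equiv.symm_apply_apply, Equiv.symm_apply_apply]
    exact ⟨rfl, rfl⟩
  · intro t ht
    rcases H.step t ht with h | h
    · left; rw [h]
    · right; rw [h]
  · intro t _ i hi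
    obtain ⟨s, hs, h⟩ := hσ t ⟨i, hi.trans (Fin.is_lt _)⟩ hi
    exact ⟨s, hs, by rw [h]⟩
  · intro t _ i hi
    obtain ⟨s, hs, h⟩ := hτ t ⟨i, hi.trans (Fin.is_lt _)⟩ hi
    exact ⟨s, hs, by rw [h]⟩
  · exact NoAF.ext fun i k l j m => H.A _ _ _ _ _
  · rw [tr_ext4]; exact NoAF.ext fun i k l j m => H.A' _ _ _ _ _
  · exact NoBF.ext fun i k l j m n => H.B _ _ _ _ _ _
  · rw [tr_ext4]; exact NoBF.ext fun i k l j m n => H.B' _ _ _ _ _ _
  · exact NoCF.ext fun i k l j m n => H.C _ _ _ _ _ _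
  · rw [tr_ext4]; exact NoCF.ext fun i k l j m n => H.C' _ _ _ _ _ _

lemma lin_between {d0 d1 a n b : ℝ} (h1 : a < n) (h2 : n < b) (ha : 0 < d0 - a * d1)
    (hb : 0 < d0 - b * d1) : 0 < d0 - n * d1 := by
  rcases le_total 0 d1 with h | h <;> nlinarith

lemma core2 {A B G1 d0 d1 x x' ρ : ℝ} (hA : 0 < A) (hB : 0 < B) (hG : 0 < G1) (h1 : x < x')
    (h2 : x' < ρ) (h3 : d0 - ρ * d1 < 0) (h4 : B * (d0 - x * d1) ≤ A * (G1 * (ρ - x)))
    (h5 : A * (G1 * (ρ - x')) ≤ B * (d0 - x' * d1)) : False := by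
  have e1 : 0 < ρ - x := by linarith
  have e2 : 0 < ρ - x' := by linarith
  have e3 := mul_le_mul_of_nonneg_right h4 e2.le
  have e4 := mul_le_mul_of_nonneg_right h5 e1.le
  have e5 : 0 < B * ((x' - x) * (ρ * d1 - d0)) := by
    apply mul_pos hB
    apply mul_pos <;> linarith
  nlinarith

/-- a Dantzig path through 16 vertices, in coordinates -/
structure Dz (μ ν h k w u : Fin 4 → ℝ) (α : Fin 4 → Fin 4 → ℝ) (r c : ℕ → Fin 4) : Prop where
  hD : ∀ i j, 0 < μ i + ν j
  hα : ∀ i j, α i j * (μ i + ν j) = h i + k j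
  hw : ∀ i, 0 < w i
  hu : ∀ j, 0 < u j
  inc : ∀ t < 15, α (r t) (c t) < α (r (t + 1)) (c (t + 1))
  step : ∀ t < 15, ∃ γ,
    ((c (t + 1) = c t ∧
        γ = w (r (t + 1)) * ((μ (r (t + 1)) + ν (c t)) * (α (r (t + 1)) (c t) - α (r t) (c t)))) ∨
      (r (t + 1) = r t ∧
        γ = u (c (t + 1)) * ((μ (r t) + ν (c (t + 1))) * (α (r t) (c (t + 1)) - α (r t) (c t))))) ∧
    (∀ e, e ≠ r t → w e * ((μ e + ν (c t)) * (α e (c t) - α (r t) (c t))) ≤ γ) ∧
    (∀ l, l ≠ c t → u l * ((μ (r t) + ν l) * (α (r t) l - α (r t) (c t))) ≤ γ)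

variable {μ ν h k w u : Fin 4 → ℝ} {α : Fin 4 → Fin 4 → ℝ} {r c : ℕ → Fin 4}

lemma Dz.swap (H : Dz μ ν h k w u α r c) : Dz ν μ k h u w (fun a b => α b a) c r where
  hD := fun i j => by rw [add_comm]; exact H.hD j i
  hα := fun i j => by rw [add_comm, add_comm (k i)]; exact H.hα j i
  hw := H.hu
  hu := H.hw
  inc := H.inc
  step := fun t ht => by
    obtain ⟨γ, h1, h2, h3⟩ := H.step t ht
    refine ⟨γ, ?_, fun e he => ?_, fun e he => ?_⟩
    · rcases h1 with h1 | h1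
      · right; rw [add_comm (ν _)]; exact h1
      · left; rw [add_comm (ν _)]; exact h1
    · rw [add_comm]; exact h3 e he
    · rw [add_comm]; exact h2 e he

/-- position data -/
structure Pos (α : Fin 4 → Fin 4 → ℝ) (r c : ℕ → Fin 4) (pos : Fin 4 → Fin 4 → ℕ) : Prop where
  hpos : ∀ t < 16, pos (r t) (c t) = t
  hlt : ∀ i j, pos i j < 16
  hinv : ∀ i j, r (pos i j) = i ∧ c (pos i j) = j
  mono : ∀ i j k l, pos i j < pos k l → α i j < α k l

lemma Pos.swap {pos : Fin 4 → Fin 4 → ℕ} (P : Pos α r c pos) :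
    Pos (fun a b => α b a) c r (fun a b => pos b a) :=
  ⟨P.hpos, fun i j => P.hlt j i, fun i j => (P.hinv j i).symm, fun i j k l => P.mono j i l k⟩

lemma Dz.mono (H : Dz μ ν h k w u α r c) {s t : ℕ} (hst : s < t) (ht : t < 16) :
    α (r s) (c s) < α (r t) (c t) := by
  induction t with
  | zero => omega
  | succ n ih =>
    have h1 := H.inc n (by omega)
    rcases Nat.lt_or_ge s n with h | h
    · exact (ih h (by omega)).trans h1
    · have : s = n := by omega
      rw [this]; exact h1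

lemma Dz.exists_pos (H : Dz μ ν h k w u α r c) : ∃ pos, Pos α r c pos := by
  let p : Fin 16 → Fin 4 × Fin 4 := fun t => (r t, c t)
  have hinj : Function.Injective p := by
    intro s t hst
    simp only [p, Prod.mk.injEq] at hst
    by_contra hne
    rcases lt_or_gt_of_ne hne with h | h
    · have := H.mono (s := s) (t := t) h t.is_lt
      rw [hst.1, hst.2] at this
      exact lt_irrefl _ this
    · have := H.mono (s := t) (t := s) h s.is_lt
      rw [hst.1, hst.2] at this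
      exact lt_irrefl _ this
  have hbij : Function.Bijective p := by
    rw [Fintype.bijective_iff_injective_and_card]
    exact ⟨hinj, by simp⟩
  let e := Equiv.ofBijective p hbij
  have hinv : ∀ i j, r (e.symm (i, j)) = i ∧ c (e.symm (i, j)) = j := by
    intro i j
    have : p (e.symm (i, j)) = (i, j) := e.apply_symm_apply (i, j)
    simpa [p] using this
  refine ⟨fun i j => (e.symm (i, j)).val, ?_, fun i j => Fin.is_lt _, hinv, ?_⟩
  · intro t ht
    have : e.symm (p ⟨t, ht⟩) = ⟨t, ht⟩ := e.symm_apply_apply ⟨t, ht⟩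
    exact congrArg Fin.val this
  · intro i j k' l hlt
    have := H.mono hlt (Fin.is_lt _)
    rwa [(hinv i j).1, (hinv i j).2, (hinv k' l).1, (hinv k' l).2] at this

lemma Pos.le {pos : Fin 4 → Fin 4 → ℕ} (P : Pos α r c pos) {i j k l : Fin 4}
    (h : pos i j ≤ pos k l) : α i j ≤ α k l := by
  rcases h.lt_or_eq with h | h
  · exact (P.mono _ _ _ _ h).le
  · have h1 := P.hinv i j
    have h2 := P.hinv k l
    rw [h] at h1
    rw [← h1.1, ← h1.2, h2.1, h2.2]

lemma Dz.noA (H : Dz μ ν h k w u α r c) {pos : Fin 4 → Fin 4 → ℕ} (P : Pos α r c pos) :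
    NoAF pos := by
  intro i e l j m n hn h1 h2 h3 h4 h5
  have a1 := P.mono _ _ _ _ h1
  have a3 := P.mono _ _ _ _ h3
  have a5 := P.mono _ _ _ _ h5
  have g1 : 0 < (h e - h i) - α i j * (μ e - μ i) := by
    have := mul_pos (H.hD e j) (sub_pos.mpr a3)
    have e1 := H.hα e j
    have e2 := H.hα i j
    nlinarith
  have g2 : 0 < (h e - h i) - α e m * (μ e - μ i) := by
    have := mul_pos (H.hD i m) (sub_pos.mpr a5)
    have e1 := H.hα e m
    have e2 := H.hα i m
    nlinarith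
  rcases hn with rfl | rfl
  · have := lin_between (P.mono _ _ _ _ h2) (P.mono _ _ _ _ h4) g1 g2
    have h6 := mul_pos (H.hD i l) (sub_pos.mpr a1)
    have e1 := H.hα e l
    have e2 := H.hα i l
    nlinarith
  · have := lin_between (P.mono _ _ _ _ h2) (P.mono _ _ _ _ h4) g1 g2
    have h6 := mul_pos (H.hD e l) (sub_pos.mpr a1)
    have e1 := H.hα e l
    have e2 := H.hα i l
    nlinarith

/-- a step along a column -/
lemma Dz.col_step (H : Dz μ ν h k w u α r c) {pos : Fin 4 → Fin 4 → ℕ} (P : Pos α r c pos)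
    {i a e : Fin 4} (h1 : pos e a = pos i a + 1) :
    (∀ e', e' ≠ i → w e' * ((μ e' + ν a) * (α e' a - α i a)) ≤
      w e * ((μ e + ν a) * (α e a - α i a))) ∧
    (∀ l, l ≠ a → u l * ((μ i + ν l) * (α i l - α i a)) ≤
      w e * ((μ e + ν a) * (α e a - α i a))) := by
  have h2 := P.hlt e a
  obtain ⟨γ, h3, h4, h5⟩ := H.step (pos i a) (by omega)
  rw [← h1, (P.hinv e a).1, (P.hinv e a).2, (P.hinv i a).1, (P.hinv i a).2] at h3
  rw [(P.hinv i a).1, (P.hinv i a).2] at h4 h5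
  rcases h3 with ⟨_, rfl⟩ | ⟨h6, _⟩
  · exact ⟨h4, h5⟩
  · rw [h6] at h1; omega

lemma Dz.noB (H : Dz μ ν h k w u α r c) {pos : Fin 4 → Fin 4 → ℕ} (P : Pos α r c pos) :
    NoBF pos := by
  intro i a e i' b k' h1 h2 h3 h4 h5 h6 h7
  have s1 := (H.col_step P h1).1 k' (by rintro rfl; omega)
  have s2 := (H.col_step P h5).1 e (by rintro rfl; omega)
  have a1 : α i a < α e a := P.mono _ _ _ _ (by omega)
  have a2 := P.mono _ _ _ _ h2
  have a3 := P.le h3
  have a4 := P.mono _ _ _ _ h4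
  have a6 := P.mono _ _ _ _ h6
  have a7 := P.mono _ _ _ _ h7
  have a8 : α e a ≤ α i' b := P.le (by omega)
  have e1 := H.hα i a
  have e2 := H.hα e a
  have e3 := H.hα k' a
  have e4 := H.hα i' b
  have e5 := H.hα e b
  have e6 := H.hα k' b
  have e7 := H.hα i b
  have dρ : (h k' - h e) - α e b * (μ k' - μ e) < 0 := by
    have := mul_pos (H.hD k' b) (sub_pos.mpr a6)
    nlinarith
  have dea : 0 < (h k' - h e) - α e a * (μ k' - μ e) := by
    have := mul_pos (H.hD k' a) (sub_pos.mpr a7)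
    nlinarith
  have hsl : 0 < μ k' - μ e := by
    by_contra hc
    push Not at hc
    have : α e a ≤ α e b := by linarith
    nlinarith
  have dx : 0 < (h k' - h e) - α i a * (μ k' - μ e) := by nlinarith
  have hu0 : 0 < (μ e + ν a) * (α e a - α i a) := mul_pos (H.hD e a) (sub_pos.mpr a1)
  have hη : 0 ≤ (μ i + ν b) * (α i b - α i a) := mul_nonneg (H.hD i b).le (sub_nonneg.mpr a3)
  have q1 : (μ k' + ν a) * (α k' a - α i a) =
      (μ e + ν a) * (α e a - α i a) + ((h k' - h e) - α i a * (μ k' - μ e)) := by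
    linear_combination e3 - e2
  have q2 : (μ e + ν b) * (α e b - α i a) =
      (μ e + ν a) * (α e a - α i a) + (μ i + ν b) * (α i b - α i a) := by
    linear_combination e5 - e2 - e7 + e1
  have q3 : (μ k' + ν b) * (α k' b - α i' b) =
      (μ e + ν b) * (α e b - α i' b) + ((h k' - h e) - α i' b * (μ k' - μ e)) := by
    linear_combination e6 - e5
  have hwk := H.hw k'
  rw [q1] at s1
  rw [q3] at s2
  have hA : 0 < w e - w k' := by
    by_contra hc
    push Not at hc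
    have := mul_pos hwk dx
    nlinarith
  refine core2 (A := w e - w k') (B := w k') (G1 := μ e + ν b) (d0 := h k' - h e)
    (d1 := μ k' - μ e) (x := α i a) (x' := α i' b) (ρ := α e b) hA hwk (H.hD e b) a2 a4 dρ ?_ ?_
  · rw [q2]
    have := mul_nonneg hA.le hη
    nlinarith
  · nlinarith

lemma Dz.noC (H : Dz μ ν h k w u α r c) {pos : Fin 4 → Fin 4 → ℕ} (P : Pos α r c pos) :
    NoCF pos := by
  intro i a k' i' b e h1 h2 h3 h4 h5 h6 h7
  have s1 := (H.swap.col_step P.swap h1).2 e (by rintro rfl; omega)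
  have s2 := (H.col_step P h5).2 k' (by rintro rfl; omega)
  have a2 := P.mono _ _ _ _ h2
  have a3 := P.le h3
  have a4 := P.mono _ _ _ _ h4
  have a6 := P.mono _ _ _ _ h6
  have e1 := H.hα i a
  have e2 := H.hα e a
  have e3 := H.hα i k'
  have e4 := H.hα i' b
  have e5 := H.hα e b
  have e6 := H.hα i' k'
  have e7 := H.hα i' a
  have e8 := H.hα e k'
  have dρ : (h e - h i') - α i' k' * (μ e - μ i') < 0 := by
    have := mul_pos (H.hD e k') (sub_pos.mpr a6)
    nlinarith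
  have hη : 0 ≤ (μ i' + ν a) * (α i' a - α i a) := mul_nonneg (H.hD i' a).le (sub_nonneg.mpr a3)
  have q1 : (ν a + μ e) * (α e a - α i a) =
      ((h e - h i') - α i a * (μ e - μ i')) + (μ i' + ν a) * (α i' a - α i a) := by
    linear_combination e2 - e7
  have q2 : (ν k' + μ i) * (α i k' - α i a) =
      (μ i' + ν k') * (α i' k' - α i a) - (μ i' + ν a) * (α i' a - α i a) := by
    linear_combination e3 - e6 + e7 - e1
  have q3 : (μ e + ν b) * (α e b - α i' b) = (h e - h i') - α i' b * (μ e - μ i') := by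
    linear_combination e5 - e4
  rw [q1, q2] at s1
  rw [q3] at s2
  have hwe := H.hw e
  have huk := H.hu k'
  refine core2 (A := u k') (B := w e) (G1 := μ i' + ν k') (d0 := h e - h i')
    (d1 := μ e - μ i') (x := α i a) (x' := α i' b) (ρ := α i' k') huk hwe (H.hD i' k') a2 a4 dρ
    ?_ s2
  have := mul_nonneg hwe.le hη
  have := mul_nonneg huk.le hη
  nlinarith

theorem Dz.elim (H : Dz μ ν h k w u α r c) : False := by
  obtain ⟨pos, P⟩ := H.exists_pos
  refine HypF.elim (pos := pos) (r := r) (c := c) ⟨P.hpos, P.hlt, P.hinv, ?_, H.noA P,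
    H.swap.noA P.swap, H.noB P, H.swap.noB P.swap, H.noC P, H.swap.noC P.swap⟩
  intro t ht
  obtain ⟨γ, h1 | h1, _⟩ := H.step t ht
  · exact Or.inr h1.1
  · exact Or.inl h1.1

end Pool.Agent.H430Z.KleeSearch
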