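import Mathlib

/-! Steep height and simplex height of simple polytopes: definitions. -/

namespace Pool.Agent.H430Z.Klee

/-- Euclidean space `ℝ^d`. -/
abbrev Euc (d : ℕ) : Type := EuclideanSpace ℝ (Fin d)

/-- The facets of `P ⊆ ℝ^d`: the nonempty exposed faces of dimension `d - 1`. -/
def facets {d : ℕ} (P : Set (Euc d)) : Set (Set (Euc d)) :=
  {F | IsExposed ℝ P F ∧ F.Nonempty ∧ Module.finrank ℝ (vectorSpan ℝ F) + 1 = d}

/-- `P` is a simple `d`-polytope with exactly `n` facets: the convex hull of a finite set, with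
nonempty interior, with `n` facets, every vertex (extreme point) lying in exactly `d` facets. -/
def IsSimplePolytope (d n : ℕ) (P : Set (Euc d)) : Prop :=
  (∃ S : Finset (Euc d), P = convexHull ℝ (S : Set (Euc d))) ∧ (interior P).Nonempty ∧
    (facets P).encard = n ∧ ∀ x ∈ P.extremePoints ℝ, {F ∈ facets P | x ∈ F}.encard = d

/-- `x` and `w` are adjacent vertices of `P`: distinct vertices whose segment is a face. -/
def Adj {d : ℕ} (P : Set (Euc d)) (x w : Euc d) : Prop :=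
  x ∈ P.extremePoints ℝ ∧ w ∈ P.extremePoints ℝ ∧ x ≠ w ∧ IsExposed ℝ P (segment ℝ x w)

/-- `x 0, …, x k` is a `φ`-path of length `k` on `P`. -/
def IsPath {d : ℕ} (P : Set (Euc d)) (φ : Euc d →ₗ[ℝ] ℝ) (k : ℕ) (x : ℕ → Euc d) : Prop :=
  x 0 ∈ P.extremePoints ℝ ∧ ∀ i < k, Adj P (x i) (x (i + 1)) ∧ φ (x i) < φ (x (i + 1))

/-- A steep path: each step maximises the Euclidean slope among all neighbours. -/
def IsSteepPath {d : ℕ} (P : Set (Euc d)) (φ : Euc d →ₗ[ℝ] ℝ) (k : ℕ) (x : ℕ → Euc d) : Prop :=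
  IsPath P φ k x ∧ ∀ i < k, ∀ w, Adj P (x i) w →
    (φ w - φ (x i)) / ‖w - x i‖ ≤ (φ (x (i + 1)) - φ (x i)) / ‖x (i + 1) - x i‖

/-- An admissible family of facet functions: for each facet `F` an affine function `g F` that
vanishes on `F`, is nonnegative on `P` and is not identically zero on `P`. -/
def IsFacetFamily {d : ℕ} (P : Set (Euc d)) (g : Set (Euc d) → (Euc d →ᵃ[ℝ] ℝ)) : Prop :=
  ∀ F ∈ facets P, (∀ y ∈ F, g F y = 0) ∧ (∀ y ∈ P, 0 ≤ g F y) ∧ ∃ y ∈ P, g F y ≠ 0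

/-- `γ` is the nonbasic gradient from `x` to `w`: `γ = (φ w - φ x) / g F w` for the facet `F`
with `g F x = 0 < g F w`. -/
def IsGradient {d : ℕ} (P : Set (Euc d)) (g : Set (Euc d) → (Euc d →ᵃ[ℝ] ℝ))
    (φ : Euc d →ₗ[ℝ] ℝ) (x w : Euc d) (γ : ℝ) : Prop :=
  ∃ F ∈ facets P, g F x = 0 ∧ 0 < g F w ∧ γ = (φ w - φ x) / g F w

/-- A simplex (Dantzig) path: each step maximises the nonbasic gradient among all neighbours,
and this maximum is positive. -/
def IsSimplexPath {d : ℕ} (P : Set (Euc d)) (g : Set (Euc d) → (Euc d →ᵃ[ℝ] ℝ))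
    (φ : Euc d →ₗ[ℝ] ℝ) (k : ℕ) (x : ℕ → Euc d) : Prop :=
  IsPath P φ k x ∧ ∀ i < k, ∃ γ, IsGradient P g φ (x i) (x (i + 1)) γ ∧ 0 < γ ∧
    ∀ w γ', Adj P (x i) w → IsGradient P g φ (x i) w γ' → γ' ≤ γ

/-- The steep height `ζ(P)`: the largest length of a steep path, over all linear forms. -/
noncomputable def steepHeight {d : ℕ} (P : Set (Euc d)) : ℕ∞ :=
  ⨆ (k : ℕ) (_ : ∃ φ x, IsSteepPath P φ k x), (k : ℕ∞)

/-- The simplex height `τ(P)`: the largest length of a simplex path, over all linear forms and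
all admissible families of facet functions. -/
noncomputable def simplexHeight {d : ℕ} (P : Set (Euc d)) : ℕ∞ :=
  ⨆ (k : ℕ) (_ : ∃ g φ x, IsFacetFamily P g ∧ IsSimplexPath P g φ k x), (k : ℕ∞)

/-- `M(ζ, d, n)`. -/
noncomputable def maxSteep (d n : ℕ) : ℕ∞ :=
  ⨆ (P : Set (Euc d)) (_ : IsSimplePolytope d n P), steepHeight P

/-- `M(τ, d, n)`. -/
noncomputable def maxSimplex (d n : ℕ) : ℕ∞ :=
  ⨆ (P : Set (Euc d)) (_ : IsSimplePolytope d n P), simplexHeight P

end Pool.Agent.H430Z.Klee
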