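import Pool.Agent.H430Z.KleePoly

/-! Faces and facets of polyhedra. -/

set_option linter.unusedSectionVars false

namespace Pool.Agent.H430Z.KleePoly

variable {E : Type*} [NormedAddCommGroup E] [NormedSpace ℝ E] [FiniteDimensional ℝ E]

lemma aff_sub (g : E →ᵃ[ℝ] ℝ) (x y : E) : g x - g y = g.linear (x - y) := by
  have h := AffineMap.linearMap_vsub g x y
  rw [vsub_eq_sub, vsub_eq_sub] at h
  exact h.symm

lemma aff_add (g : E →ᵃ[ℝ] ℝ) (x v : E) (t : ℝ) : g (x + t • v) = g x + t * g.linear v := by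
  have h := aff_sub g (x + t • v) x
  rw [add_sub_cancel_left, map_smul, smul_eq_mul] at h
  linarith

lemma face_exposed {ι : Type*} [Fintype ι] (a : ι → (E →ᵃ[ℝ] ℝ)) (I : ι → Prop) :
    IsExposed ℝ (Pol a) {y ∈ Pol a | ∀ k, I k → a k y = 0} := by
  classical
  rintro ⟨v0, hv0P, hv0⟩
  let J : Finset ι := Finset.univ.filter I
  let l : E →L[ℝ] ℝ := -∑ i ∈ J, LinearMap.toContinuousLinearMap (a i).linear
  have hldiff : ∀ x y : E, l x - l y = ∑ i ∈ J, (a i y - a i x) := by
    intro x y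
    have e : ∀ i, a i y - a i x = (a i).linear y - (a i).linear x := by
      intro i
      rw [aff_sub, map_sub]
    simp only [l, neg_apply, sum_apply,
      LinearMap.coe_toContinuousLinearMap']
    simp_rw [e]
    rw [Finset.sum_sub_distrib]
    ring
  have hJ : ∀ i, i ∈ J ↔ I i := by intro i; simp [J]
  refine ⟨l, Set.Subset.antisymm ?_ ?_⟩
  · rintro x ⟨hx, hxI⟩
    refine ⟨hx, fun y hy => ?_⟩
    have h1 := hldiff x y
    have h2 : 0 ≤ ∑ i ∈ J, (a i y - a i x) := by
      refine Finset.sum_nonneg fun i hi => ?_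
      rw [hxI i ((hJ i).mp hi), sub_zero]
      exact hy i
    linarith
  · rintro x ⟨hxP, hx⟩
    refine ⟨hxP, fun k hk => ?_⟩
    have h1 := hldiff v0 x
    have h2 := hx v0 hv0P
    have h3 : ∀ i ∈ J, 0 ≤ a i x - a i v0 := by
      intro i hi
      rw [hv0 i ((hJ i).mp hi), sub_zero]
      exact hxP i
    have h4 : ∑ i ∈ J, (a i x - a i v0) = 0 :=
      le_antisymm (by linarith) (Finset.sum_nonneg h3)
    have h5 := (Finset.sum_eq_zero_iff_of_nonneg h3).mp h4 k ((hJ k).mpr hk)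
    rw [hv0 k hk] at h5
    linarith

lemma finrank_ker_add_one (f : E →ₗ[ℝ] ℝ) (hf : f ≠ 0) :
    Module.finrank ℝ (LinearMap.ker f) + 1 = Module.finrank ℝ E := by
  have h1 := LinearMap.finrank_range_add_finrank_ker f
  have h2 : LinearMap.range f = ⊤ := by
    obtain ⟨v, hv⟩ : ∃ v, f v ≠ 0 := by
      by_contra h
      push Not at h
      exact hf (LinearMap.ext h)
    rw [eq_top_iff]
    intro t _
    exact ⟨(t / f v) • v, by rw [map_smul, smul_eq_mul, div_mul_cancel₀ _ hv]⟩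
  rw [h2, finrank_top, Module.finrank_self] at h1
  omega

lemma vectorSpan_le_ker (F : Set E) (g : E →ᵃ[ℝ] ℝ) (h : ∀ y ∈ F, g y = 0) :
    vectorSpan ℝ F ≤ LinearMap.ker g.linear := by
  rw [vectorSpan_def, Submodule.span_le]
  rintro _ ⟨y, hy, z, hz, rfl⟩
  simp only [vsub_eq_sub, SetLike.mem_coe, LinearMap.mem_ker]
  rw [← aff_sub, h y hy, h z hz, sub_self]

/-- a facet is the zero set of any admissible facet function -/
lemma facet_eq {P F : Set E} (hF : IsExposed ℝ P F) (hne : F.Nonempty)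
    (hdim : Module.finrank ℝ (vectorSpan ℝ F) + 1 = Module.finrank ℝ E)
    (g : E →ᵃ[ℝ] ℝ) (h0 : ∀ y ∈ F, g y = 0) (h1 : ∃ y, g y ≠ 0) :
    F = {y ∈ P | g y = 0} := by
  obtain ⟨l, hl⟩ := hF hne
  obtain ⟨y0, hy0⟩ := hne
  have hg : g.linear ≠ 0 := by
    intro h
    obtain ⟨y, hy⟩ := h1
    have := aff_sub g y y0
    rw [h, h0 y0 hy0] at this
    simp at this
    exact hy this
  have heq : vectorSpan ℝ F = LinearMap.ker g.linear := by
    apply Submodule.eq_of_le_of_finrank_eq (vectorSpan_le_ker F g h0)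
    have := finrank_ker_add_one g.linear hg
    omega
  apply Set.Subset.antisymm
  · intro y hy
    exact ⟨hF.subset hy, h0 y hy⟩
  · rintro y ⟨hyP, hy⟩
    have h2 : y - y0 ∈ vectorSpan ℝ F := by
      rw [heq, LinearMap.mem_ker, ← aff_sub, hy, h0 y0 hy0, sub_self]
    have hy0' := hy0
    rw [hl] at hy0'
    have h3 : vectorSpan ℝ F ≤ LinearMap.ker (l : E →ₗ[ℝ] ℝ) := by
      rw [vectorSpan_def, Submodule.span_le]
      rintro _ ⟨u, hu, v, hv, rfl⟩
      simp only [vsub_eq_sub, SetLike.mem_coe, LinearMap.mem_ker]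
      rw [hl] at hu hv
      show l (u - v) = 0
      rw [map_sub, le_antisymm (hv.2 u hu.1) (hu.2 v hv.1), sub_self]
    have h4 : l (y - y0) = 0 := h3 h2
    rw [map_sub] at h4
    rw [hl]
    exact ⟨hyP, fun z hz => by have := hy0'.2 z hz; linarith⟩

lemma step_ex {ι : Type*} [Finite ι] (a : ι → (E →ᵃ[ℝ] ℝ)) {p : E} (hp : p ∈ Pol a) (v : E)
    (h : ∀ k, a k p = 0 → (a k).linear v = 0) : ∃ δ : ℝ, 0 < δ ∧ p + δ • v ∈ Pol a := by
  obtain ⟨δ, hδ, h2⟩ := small_step (fun k => a k p) (fun k => (a k).linear v) hp h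
  exact ⟨δ, hδ, fun k => by rw [aff_add]; exact h2 k⟩

lemma facet_dim {ι : Type*} [Finite ι] (a : ι → (E →ᵃ[ℝ] ℝ)) (k : ι) {p : E} (hp : p ∈ Pol a)
    (hk : a k p = 0) (hm : ∀ m, m ≠ k → a m p ≠ 0) (h1 : ∃ y, a k y ≠ 0) :
    Module.finrank ℝ (vectorSpan ℝ {y ∈ Pol a | a k y = 0}) + 1 = Module.finrank ℝ E := by
  have hg : (a k).linear ≠ 0 := by
    intro h
    obtain ⟨y, hy⟩ := h1
    have := aff_sub (a k) y p
    rw [h, hk] at this
    simp at this
    exact hy this
  have heq : vectorSpan ℝ {y ∈ Pol a | a k y = 0} = LinearMap.ker (a k).linear := by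
    apply le_antisymm (vectorSpan_le_ker _ _ fun y hy => hy.2)
    intro v hv
    rw [LinearMap.mem_ker] at hv
    obtain ⟨δ, hδ, h2⟩ := step_ex a hp v (fun m hm' => by
      by_cases hmk : m = k
      · rw [hmk]; exact hv
      · exact absurd hm' (hm m hmk))
    have h3 : (p + δ • v) -ᵥ p ∈ vectorSpan ℝ {y ∈ Pol a | a k y = 0} :=
      vsub_mem_vectorSpan ℝ ⟨h2, by rw [aff_add, hk, hv]; simp⟩ ⟨hp, hk⟩
    rw [vsub_eq_sub, add_sub_cancel_left] at h3
    have := Submodule.smul_mem _ δ⁻¹ h3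
    rwa [smul_smul, inv_mul_cancel₀ hδ.ne', one_smul] at this
  rw [heq]
  exact finrank_ker_add_one _ hg

lemma facet_sub {ι : Type*} [Fintype ι] (a : ι → (E →ᵃ[ℝ] ℝ)) {F : Set E}
    (hF : IsExposed ℝ (Pol a) F) (hne : F.Nonempty)
    (hdim : Module.finrank ℝ (vectorSpan ℝ F) + 1 = Module.finrank ℝ E) :
    ∃ k, ∀ y ∈ F, a k y = 0 := by
  classical
  by_contra hcon
  push Not at hcon
  have hconv : Convex ℝ F := hF.convex (Pol_convex a)
  have hJ : ∀ J : Finset ι, ∃ x ∈ F, ∀ i ∈ J, 0 < a i x := by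
    intro J
    induction J using Finset.induction_on with
    | empty =>
      obtain ⟨v, hv⟩ := hne
      exact ⟨v, hv, by simp⟩
    | insert j J hj ih =>
      obtain ⟨x, hx, hxJ⟩ := ih
      obtain ⟨v, hv, hvj⟩ := hcon j
      refine ⟨midpoint ℝ x v, hconv.midpoint_mem hx hv, fun i hi => ?_⟩
      have e : a i (midpoint ℝ x v) = (a i x + a i v) / 2 := by
        rw [AffineMap.map_midpoint, midpoint_eq_smul_add]
        simp; ring
      rw [e]
      have hx0 := hF.subset hx i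
      have hv0 := hF.subset hv i
      rcases Finset.mem_insert.mp hi with h | h
      · rw [h] at hx0 hv0 ⊢
        have : 0 < a j v := lt_of_le_of_ne hv0 (Ne.symm hvj)
        linarith
      · have := hxJ i h
        linarith
  obtain ⟨p, hpF, hp⟩ := hJ Finset.univ
  have hpP := hF.subset hpF
  obtain ⟨l, hl⟩ := hF hne
  have hpl := hpF
  rw [hl] at hpl
  have hle : ∀ v, l v ≤ 0 := by
    intro v
    obtain ⟨δ, hδ, h2⟩ := step_ex a hpP v (fun m hm => absurd hm (hp m (Finset.mem_univ m)).ne')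
    have := hpl.2 _ h2
    rw [map_add, map_smul, smul_eq_mul] at this
    by_contra h
    push Not at h
    have := mul_pos hδ h
    linarith
  have hl0 : ∀ v, l v = 0 := by
    intro v
    have h1 := hle v
    have h2 := hle (-v)
    rw [map_neg] at h2
    linarith
  have htop : vectorSpan ℝ F = ⊤ := by
    rw [eq_top_iff]
    intro v _
    obtain ⟨δ, hδ, h2⟩ := step_ex a hpP v (fun m hm => absurd hm (hp m (Finset.mem_univ m)).ne')
    have h4 : p + δ • v ∈ F := by
      rw [hl]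
      exact ⟨h2, fun z _ => by rw [hl0, hl0]⟩
    have h3 : (p + δ • v) -ᵥ p ∈ vectorSpan ℝ F := vsub_mem_vectorSpan ℝ h4 hpF
    rw [vsub_eq_sub, add_sub_cancel_left] at h3
    have := Submodule.smul_mem _ δ⁻¹ h3
    rwa [smul_smul, inv_mul_cancel₀ hδ.ne', one_smul] at this
  rw [htop, finrank_top] at hdim
  omega

lemma interior_of_pos {ι : Type*} [Finite ι] (a : ι → (E →ᵃ[ℝ] ℝ)) {p : E}
    (hp : ∀ k, 0 < a k p) : p ∈ interior (Pol a) := by
  have hopen : IsOpen (⋂ k, {x : E | 0 < a k x}) :=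
    isOpen_iInter_of_finite fun k =>
      isOpen_lt continuous_const (a k).continuous_of_finiteDimensional
  refine interior_maximal ?_ hopen (Set.mem_iInter.mpr hp)
  intro x hx k
  exact (Set.mem_iInter.mp hx k).le

/-- a polytope is cut out by its facet functions -/
lemma mem_of_facets (S : Finset E) (hint : (interior (convexHull ℝ (S : Set E))).Nonempty)
    (g : Set E → (E →ᵃ[ℝ] ℝ))
    (hg : ∀ F : Set E, IsExposed ℝ (convexHull ℝ (S : Set E)) F → F.Nonempty →
      Module.finrank ℝ (vectorSpan ℝ F) + 1 = Module.finrank ℝ E →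
      (∀ y ∈ F, g F y = 0) ∧ (∀ y ∈ convexHull ℝ (S : Set E), 0 ≤ g F y) ∧ ∃ y, g F y ≠ 0)
    (x : E)
    (hx : ∀ F : Set E, IsExposed ℝ (convexHull ℝ (S : Set E)) F → F.Nonempty →
      Module.finrank ℝ (vectorSpan ℝ F) + 1 = Module.finrank ℝ E → 0 ≤ g F x) :
    x ∈ convexHull ℝ (S : Set E) := by
  by_contra hcon
  obtain ⟨F, ⟨h1, h2, h3⟩, h4⟩ := exists_facet rfl S hint x hcon
  obtain ⟨g0, g1, g2⟩ := hg F h1 h2 h3
  have hFe := facet_eq h1 h2 h3 (g F) g0 g2
  obtain ⟨y0, hy0⟩ := h2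
  have h5 := h4 (-LinearMap.toContinuousLinearMap (g F).linear) (by
    apply Set.Subset.antisymm
    · intro y hy
      refine ⟨h1.subset hy, fun z hz => ?_⟩
      simp only [neg_apply, LinearMap.coe_toContinuousLinearMap']
      have e := aff_sub (g F) z y
      rw [map_sub, g0 y hy] at e
      have := g1 z hz
      linarith
    · rintro y ⟨hy, hy2⟩
      rw [hFe]
      refine ⟨hy, ?_⟩
      have h6 := hy2 y0 (h1.subset hy0)
      simp only [neg_apply, LinearMap.coe_toContinuousLinearMap'] at h6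
      have e := aff_sub (g F) y y0
      rw [map_sub, g0 y0 hy0] at e
      have := g1 y hy
      linarith) y0 hy0
  simp only [neg_apply, LinearMap.coe_toContinuousLinearMap'] at h5
  have e := aff_sub (g F) x y0
  rw [map_sub, g0 y0 hy0] at e
  have := hx F h1 ⟨y0, hy0⟩ h3
  linarith

end Pool.Agent.H430Z.KleePoly
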