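import Pool.Agent.H430Z.KleeFace

/-! Polytopes with Gale diagram 4 + 4 on a line (products of two tetrahedra). -/

set_option linter.unusedSectionVars false

namespace Pool.Agent.H430Z.KleePoly

open Sum

variable {E : Type*} [NormedAddCommGroup E] [NormedSpace ℝ E] [FiniteDimensional ℝ E]

abbrev I8 : Type := Fin 4 ⊕ Fin 4

structure Gale (b : I8 → (E →ᵃ[ℝ] ℝ)) (μ ν : Fin 4 → ℝ) (z : Fin 4 → Fin 4 → E) : Prop where
  hD : ∀ i j, 0 < μ i + ν j
  bal : ∀ x, ∑ i, b (inl i) x = ∑ j, b (inr j) x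
  nor : ∀ x, ∑ i, μ i * b (inl i) x + ∑ j, ν j * b (inr j) x = 1
  inj : ∀ x y, (∀ k, b k x = b k y) → x = y
  zl : ∀ i j e, b (inl e) (z i j) = if e = i then (μ i + ν j)⁻¹ else 0
  zr : ∀ i j l, b (inr l) (z i j) = if l = j then (μ i + ν j)⁻¹ else 0

lemma Pol_swap (b : I8 → (E →ᵃ[ℝ] ℝ)) : Pol (b ∘ Sum.swap) = Pol b := by
  ext x
  constructor
  · intro h k
    have := h k.swap
    simpa using this
  · intro h k
    exact h _

variable {b : I8 → (E →ᵃ[ℝ] ℝ)} {μ ν : Fin 4 → ℝ} {z : Fin 4 → Fin 4 → E}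

lemma Gale.swap (G : Gale b μ ν z) : Gale (b ∘ Sum.swap) ν μ (fun j i => z i j) where
  hD := fun i j => by rw [add_comm]; exact G.hD j i
  bal := fun x => (G.bal x).symm
  nor := fun x => by rw [add_comm]; exact G.nor x
  inj := fun x y h => G.inj x y fun k => by simpa using h k.swap
  zl := fun i j e => by rw [add_comm]; exact G.zr j i e
  zr := fun i j e => by rw [add_comm]; exact G.zl j i e

lemma Gale.z_mem (G : Gale b μ ν z) (i j : Fin 4) : z i j ∈ Pol b := by
  have := inv_pos.mpr (G.hD i j)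
  rintro (e | l)
  · rw [G.zl]; split_ifs <;> linarith
  · rw [G.zr]; split_ifs <;> linarith

lemma Gale.zl_self (G : Gale b μ ν z) (i j : Fin 4) : b (inl i) (z i j) = (μ i + ν j)⁻¹ := by
  rw [G.zl, if_pos rfl]

lemma Gale.zr_self (G : Gale b μ ν z) (i j : Fin 4) : b (inr j) (z i j) = (μ i + ν j)⁻¹ := by
  rw [G.zr, if_pos rfl]

lemma Gale.z_inj (G : Gale b μ ν z) {i j k l : Fin 4} (h : z i j = z k l) : i = k ∧ j = l := by
  have h0 := inv_pos.mpr (G.hD i j)
  constructor
  · by_contra hne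
    have h1 := G.zl_self i j
    rw [h, G.zl, if_neg hne] at h1
    linarith
  · by_contra hne
    have h1 := G.zr_self i j
    rw [h, G.zr, if_neg hne] at h1
    linarith

lemma Gale.eq_z (G : Gale b μ ν z) (i j : Fin 4) (y : E) (h1 : ∀ e, e ≠ i → b (inl e) y = 0)
    (h2 : ∀ l, l ≠ j → b (inr l) y = 0) : y = z i j := by
  have e1 := G.bal y
  have e2 := G.nor y
  rw [Finset.sum_eq_single i (fun e _ he => h1 e he) (by simp),
    Finset.sum_eq_single j (fun e _ he => h2 e he) (by simp)] at e1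
  rw [Finset.sum_eq_single i (fun e _ he => by rw [h1 e he, mul_zero]) (by simp),
    Finset.sum_eq_single j (fun e _ he => by rw [h2 e he, mul_zero]) (by simp), ← e1] at e2
  have hD := G.hD i j
  have e3 : b (inl i) y = (μ i + ν j)⁻¹ := by
    field_simp
    linarith
  apply G.inj
  rintro (e | l)
  · rw [G.zl]
    split_ifs with h
    · rw [h, e3]
    · exact h1 e h
  · rw [G.zr]
    split_ifs with h
    · rw [h, ← e1, e3]
    · exact h2 l h

lemma Gale.z_ext (G : Gale b μ ν z) (i j : Fin 4) : z i j ∈ (Pol b).extremePoints ℝ := by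
  rw [mem_ext_iff]
  refine ⟨G.z_mem i j, fun y _ hy => G.eq_z i j y (fun e he => hy _ ?_) (fun l hl => hy _ ?_)⟩
  · rw [G.zl, if_neg he]
  · rw [G.zr, if_neg hl]

lemma aff_sum {κ : Type*} [Fintype κ] (g : E →ᵃ[ℝ] ℝ) (θ : κ → ℝ) (hθ : ∑ k, θ k = 1)
    (p : κ → E) : g (∑ k, θ k • p k) = ∑ k, θ k * g (p k) := by
  rw [aff_eq g, map_sum]
  have : ∀ k, θ k * g (p k) = θ k * g 0 + g.linear (θ k • p k) := by
    intro k
    rw [aff_eq g (p k), map_smul, smul_eq_mul]; ring
  simp_rw [this]
  rw [Finset.sum_add_distrib, ← Finset.sum_mul, hθ, one_mul]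

lemma Gale.hull (G : Gale b μ ν z) :
    Pol b = convexHull ℝ (Set.range fun p : Fin 4 × Fin 4 => z p.1 p.2) := by
  apply Set.Subset.antisymm
  swap
  · refine convexHull_min ?_ (Pol_convex b)
    rintro _ ⟨p, rfl⟩
    exact G.z_mem _ _
  intro y hy
  set s := ∑ i, b (inl i) y with hs
  have hs' : ∑ j, b (inr j) y = s := (G.bal y).symm
  have hs0 : s ≠ 0 := by
    intro h0
    have h1 := (Finset.sum_eq_zero_iff_of_nonneg fun i _ => hy (inl i)).mp (hs.symm.trans h0)
    have h2 := (Finset.sum_eq_zero_iff_of_nonneg fun j _ => hy (inr j)).mp (hs'.trans h0)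
    have h3 := G.nor y
    rw [Finset.sum_eq_zero (fun i hi => by rw [h1 i hi, mul_zero]),
      Finset.sum_eq_zero (fun i hi => by rw [h2 i hi, mul_zero])] at h3
    norm_num at h3
  have hspos : 0 < s := lt_of_le_of_ne (Finset.sum_nonneg fun i _ => hy (inl i)) hs0.symm
  let θ : Fin 4 × Fin 4 → ℝ := fun p => b (inl p.1) y * b (inr p.2) y * (μ p.1 + ν p.2) / s
  have hθ0 : ∀ p, 0 ≤ θ p := fun p =>
    div_nonneg (mul_nonneg (mul_nonneg (hy _) (hy _)) (G.hD _ _).le) hspos.le
  have hθ1 : ∑ p, θ p = 1 := by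
    rw [Fintype.sum_prod_type, ← G.nor y]
    simp only [θ]
    rw [eq_comm, ← mul_div_cancel_right₀ (∑ i, μ i * b (inl i) y + ∑ j, ν j * b (inr j) y) hs0]
    simp only [← Finset.sum_div]
    congr 1
    rw [add_mul]
    nth_rewrite 1 [← hs']
    rw [hs]
    simp only [Fin.sum_univ_four]
    ring
  have heq : y = ∑ p, θ p • z p.1 p.2 := by
    apply G.inj
    intro k
    rw [aff_sum _ θ hθ1, Fintype.sum_prod_type]
    rcases k with e | l
    · simp only [G.zl]
      rw [Finset.sum_eq_single e (fun i _ hi => by simp [Ne.symm hi]) (by simp)]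
      have : ∀ j, θ (e, j) * (if e = e then (μ e + ν j)⁻¹ else 0)
          = b (inl e) y * b (inr j) y / s := by
        intro j
        have := (G.hD e j).ne'
        simp only [θ, if_true]
        field_simp
      rw [Finset.sum_congr rfl fun j _ => this j, ← Finset.sum_div, ← Finset.mul_sum, hs',
        mul_div_cancel_right₀ _ hs0]
    · simp only [G.zr]
      have : ∀ i, ∑ j, θ (i, j) * (if l = j then (μ i + ν j)⁻¹ else 0)
          = b (inl i) y * b (inr l) y / s := by
        intro i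
        rw [Finset.sum_eq_single l (fun j _ hj => by simp [Ne.symm hj]) (by simp)]
        have := (G.hD i l).ne'
        simp only [θ, if_true]
        field_simp
      rw [Finset.sum_congr rfl fun i _ => this i, ← Finset.sum_div, ← Finset.sum_mul, ← hs,
        mul_div_cancel_left₀ _ hs0]
  rw [heq]
  exact (convex_convexHull ℝ _).sum_mem (fun p _ => hθ0 p) hθ1
    (fun p _ => subset_convexHull ℝ _ ⟨p, rfl⟩)

lemma Gale.ext_cases (G : Gale b μ ν z) {x : E} (hx : x ∈ (Pol b).extremePoints ℝ) :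
    ∃ i j, x = z i j := by
  rw [G.hull] at hx
  obtain ⟨p, hp⟩ := extremePoints_convexHull_subset hx
  exact ⟨p.1, p.2, hp.symm⟩

lemma aff_combo (g : E →ᵃ[ℝ] ℝ) (x y : E) {s t : ℝ} (hst : s + t = 1) :
    g (s • x + t • y) = s * g x + t * g y := by
  rw [Convex.combo_affine_apply hst]; rfl

lemma Gale.adj_col (G : Gale b μ ν z) {i e : Fin 4} (j : Fin 4) (h : e ≠ i) :
    IsExposed ℝ (Pol b) (segment ℝ (z i j) (z e j)) := by
  have key : segment ℝ (z i j) (z e j) =
      {y ∈ Pol b | ∀ k, (k ≠ inl i ∧ k ≠ inl e ∧ k ≠ inr j) → b k y = 0} := by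
    apply Set.Subset.antisymm
    · rintro _ ⟨s, t, hs, ht, hst, rfl⟩
      refine ⟨Pol_convex b (G.z_mem i j) (G.z_mem e j) hs ht hst, ?_⟩
      rintro (m | l) ⟨h1, h2, h3⟩
      · rw [aff_combo _ _ _ hst, G.zl, G.zl, if_neg (by simpa using h1),
          if_neg (by simpa using h2)]
        ring
      · rw [aff_combo _ _ _ hst, G.zr, G.zr, if_neg (by simpa using h3),
          if_neg (by simpa using h3)]
        ring
    · rintro y ⟨hy, hy0⟩
      have hl : ∀ m, m ≠ i → m ≠ e → b (inl m) y = 0 := fun m h1 h2 =>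
        hy0 _ ⟨by simpa using h1, by simpa using h2, by simp⟩
      have hr : ∀ l, l ≠ j → b (inr l) y = 0 := fun l h1 =>
        hy0 _ ⟨by simp, by simp, by simpa using h1⟩
      have e1 := G.bal y
      have e2 := G.nor y
      rw [Finset.sum_eq_add_of_mem i e (by simp) (by simp) h.symm
          (fun m _ hm => hl m hm.1 hm.2),
        Finset.sum_eq_single j (fun l _ hl => hr l hl) (by simp)] at e1
      rw [Finset.sum_eq_add_of_mem i e (by simp) (by simp) h.symm
          (fun m _ hm => by rw [hl m hm.1 hm.2, mul_zero]),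
        Finset.sum_eq_single j (fun l _ hl => by rw [hr l hl, mul_zero]) (by simp), ← e1] at e2
      have hDi := G.hD i j
      have hDe := G.hD e j
      have hst : b (inl i) y * (μ i + ν j) + b (inl e) y * (μ e + ν j) = 1 := by linarith
      refine ⟨_, _, mul_nonneg (hy _) hDi.le, mul_nonneg (hy _) hDe.le, hst, ?_⟩
      apply G.inj
      rintro (m | l)
      · rw [aff_combo _ _ _ hst, G.zl, G.zl]
        by_cases h1 : m = i
        · rw [if_pos h1, if_neg (by rw [h1]; exact h.symm), h1]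
          field_simp
          ring
        · by_cases h2 : m = e
          · rw [if_neg h1, if_pos h2, h2]
            field_simp
            ring
          · rw [if_neg h1, if_neg h2, hl m h1 h2]
            ring
      · rw [aff_combo _ _ _ hst, G.zr, G.zr]
        by_cases h1 : l = j
        · rw [if_pos h1, if_pos h1, h1, ← e1]
          field_simp
        · rw [if_neg h1, if_neg h1, hr l h1]
          ring
  rw [key]
  exact face_exposed b _

lemma Gale.adj_row (G : Gale b μ ν z) (i : Fin 4) {j l : Fin 4} (h : l ≠ j) :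
    IsExposed ℝ (Pol b) (segment ℝ (z i j) (z i l)) := by
  have := G.swap.adj_col i h
  rwa [Pol_swap] at this

lemma Gale.not_adj (G : Gale b μ ν z) {i j k l : Fin 4} (h1 : k ≠ i) (h2 : l ≠ j)
    (h : IsExposed ℝ (Pol b) (segment ℝ (z i j) (z k l))) : False := by
  have hij := G.hD i j
  have hkl := G.hD k l
  have hil := G.hD i l
  have hkj := G.hD k j
  set S := μ i + ν j + (μ k + ν l) with hS
  have hS0 : 0 < S := by positivity
  have s1 : (μ i + ν j) / S + (μ k + ν l) / S = 1 := by field_simp; rfl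
  have s2 : (μ i + ν l) / S + (μ k + ν j) / S = 1 := by field_simp; rw [hS]; ring
  have heq : ((μ i + ν l) / S) • z i l + ((μ k + ν j) / S) • z k j =
      ((μ i + ν j) / S) • z i j + ((μ k + ν l) / S) • z k l := by
    apply G.inj
    rintro (m | m)
    · rw [aff_combo _ _ _ s1, aff_combo _ _ _ s2, G.zl, G.zl, G.zl, G.zl]
      split_ifs <;> field_simp <;> ring
    · rw [aff_combo _ _ _ s1, aff_combo _ _ _ s2, G.zr, G.zr, G.zr, G.zr]
      split_ifs <;> field_simp <;> ring
  have hmem : ((μ i + ν l) / S) • z i l + ((μ k + ν j) / S) • z k j ∈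
      segment ℝ (z i j) (z k l) := by
    rw [heq]
    exact ⟨_, _, by positivity, by positivity, s1, rfl⟩
  have h3 : z i l ∈ segment ℝ (z i j) (z k l) :=
    h.isExtreme.left_mem_of_mem_openSegment (G.z_mem i l) (G.z_mem k j) hmem
      ⟨_, _, by positivity, by positivity, s2, rfl⟩
  obtain ⟨s, t, hs, ht, hst, h4⟩ := h3
  have e1 := congrArg (b (inr l)) h4
  have e2 := congrArg (b (inl k)) h4
  rw [aff_combo _ _ _ hst, G.zr, G.zr, G.zr, if_neg h2, if_pos rfl, if_pos rfl] at e1
  rw [aff_combo _ _ _ hst, G.zl, G.zl, G.zl, if_neg h1, if_pos rfl, if_neg h1] at e2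
  have := inv_pos.mpr hil
  have e3 : t * (μ k + ν l)⁻¹ = 0 := by linarith
  rw [e3] at e1
  linarith

end Pool.Agent.H430Z.KleePoly
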