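import Pool.Agent.H430Z.KleeSimple

/-! A steep path through all 16 vertices of a product of two tetrahedra. -/

namespace Pool.Agent.H430Z.Klee

open Sum KleePoly

def muq : Fin 4 → ℚ := ![1, 4, 34, 102]
def nuq : Fin 4 → ℚ := ![3, 1, 6, 206]
def fr : Fin 6 → I8 := ![inl 0, inl 3, inr 0, inl 1, inr 1, inr 3]
def Tq : Fin 6 → Fin 6 → ℚ :=
  ![![39, -4480, -38559, 58, -3, -1271], ![0, 5750, 48924, 6, 3, 1679],
    ![0, 0, 17290, -1, 10, -420], ![0, 0, 0, 8, 24, 741], ![0, 0, 0, 0, 3, 412],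
    ![0, 0, 0, 0, 0, 247]]
def ccq : Fin 6 → ℚ := ![73, -33228, -306597, 110, -35, -9080]
def c0q : I8 → ℚ := Sum.elim ![0, 0, 1 / 40, 0] ![0, 0, 1 / 40, 0]
def Cq : I8 → Fin 6 → ℚ := Sum.elim
  ![![1, 0, 0, 0, 0, 0], ![0, 0, 0, 1, 0, 0],
    ![-7 / 40, -108 / 40, 3 / 40, -10 / 40, 5 / 40, -200 / 40], ![0, 1, 0, 0, 0, 0]]
  ![![0, 0, 1, 0, 0, 0], ![0, 0, 0, 0, 1, 0],
    ![33 / 40, -68 / 40, -37 / 40, 30 / 40, -35 / 40, -240 / 40], ![0, 0, 0, 0, 0, 1]]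
def yq (i j : Fin 4) (s : Fin 6) : ℚ :=
  if fr s = inl i ∨ fr s = inr j then (muq i + nuq j)⁻¹ else 0
def fq (i j : Fin 4) : ℚ := ∑ s, ccq s * yq i j s
def nq (i j e l : Fin 4) : ℚ := ∑ r, (∑ s, Tq r s * (yq e l s - yq i j s)) ^ 2
def pr : Fin 16 → Fin 4 := ![0, 1, 2, 3, 3, 3, 3, 0, 1, 2, 2, 2, 0, 1, 1, 0]
def pc : Fin 16 → Fin 4 := ![0, 0, 0, 0, 1, 2, 3, 3, 3, 3, 1, 2, 2, 2, 1, 1]

lemma check_slack : ∀ i j : Fin 4, ∀ k : I8, c0q k + ∑ s, Cq k s * yq i j s =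
    if k = inl i ∨ k = inr j then (muq i + nuq j)⁻¹ else 0 := by decide +kernel

lemma check_pos : ∀ i j : Fin 4, 0 < muq i + nuq j := by decide +kernel

lemma check_adj : ∀ t : Fin 15, (pr t.succ ≠ pr t.castSucc ∧ pc t.succ = pc t.castSucc) ∨
    (pr t.succ = pr t.castSucc ∧ pc t.succ ≠ pc t.castSucc) := by decide +kernel

lemma check_inc : ∀ t : Fin 15,
    fq (pr t.castSucc) (pc t.castSucc) < fq (pr t.succ) (pc t.succ) := by decide +kernel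

lemma check_steep : ∀ t : Fin 15, ∀ e l : Fin 4, (e = pr t.castSucc ∨ l = pc t.castSucc) →
    fq e l ≤ fq (pr t.castSucc) (pc t.castSucc) ∨
    (fq e l - fq (pr t.castSucc) (pc t.castSucc)) ^ 2 *
        nq (pr t.castSucc) (pc t.castSucc) (pr t.succ) (pc t.succ) ≤
      (fq (pr t.succ) (pc t.succ) - fq (pr t.castSucc) (pc t.castSucc)) ^ 2 *
        nq (pr t.castSucc) (pc t.castSucc) e l := by decide +kernel

noncomputable def Lin : (Fin 6 → ℝ) →ₗ[ℝ] Euc 6 :=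
  (WithLp.linearEquiv 2 ℝ (Fin 6 → ℝ)).symm.toLinearMap ∘ₗ
    Matrix.mulVecLin (Matrix.of fun r s => (Tq r s : ℝ))

lemma Lin_apply (v : Fin 6 → ℝ) (r : Fin 6) : Lin v r = ∑ s, (Tq r s : ℝ) * v s := rfl

lemma Lin_inj : Function.Injective Lin := by
  rw [injective_iff_map_eq_zero]
  intro v hv
  have h : ∀ r, ∑ s, (Tq r s : ℝ) * v s = 0 := by
    intro r
    rw [← Lin_apply, hv]; rfl
  have h0 := h 0
  have h1 := h 1
  have h2 := h 2
  have h3 := h 3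
  have h4 := h 4
  have h5 := h 5
  simp [Tq, Fin.sum_univ_six] at h0 h1 h2 h3 h4 h5
  funext s
  fin_cases s <;> simp <;> linarith

noncomputable def Psi : (Fin 6 → ℝ) ≃ₗ[ℝ] Euc 6 :=
  LinearMap.linearEquivOfInjective Lin Lin_inj (by simp)

lemma Psi_apply (v : Fin 6 → ℝ) : Psi v = Lin v := rfl

noncomputable def form (C : Fin 6 → ℚ) : Euc 6 →ₗ[ℝ] ℝ :=
  ∑ s, (C s : ℝ) • (LinearMap.proj s ∘ₗ Psi.symm.toLinearMap)

lemma form_apply (C : Fin 6 → ℚ) (x : Euc 6) : form C x = ∑ s, (C s : ℝ) * Psi.symm x s := by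
  simp [form]

noncomputable def bb (k : I8) : Euc 6 →ᵃ[ℝ] ℝ :=
  AffineMap.const ℝ _ (c0q k : ℝ) + (form (Cq k)).toAffineMap

lemma bb_apply (k : I8) (x : Euc 6) : bb k x = c0q k + ∑ s, (Cq k s : ℝ) * Psi.symm x s := by
  rw [← form_apply]; rfl

noncomputable def zz (i j : Fin 4) : Euc 6 := Psi fun s => (yq i j s : ℝ)

lemma bb_zz (i j : Fin 4) (k : I8) :
    bb k (zz i j) = if k = inl i ∨ k = inr j then ((muq i : ℝ) + nuq j)⁻¹ else 0 := by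
  rw [bb_apply, zz, LinearEquiv.symm_apply_apply]
  have := congrArg (fun q : ℚ => (q : ℝ)) (check_slack i j k)
  split_ifs at this ⊢ <;> exact_mod_cast this

lemma gale_ex : Gale bb (fun i => (muq i : ℝ)) (fun j => (nuq j : ℝ)) zz where
  hD := fun i j => by exact_mod_cast check_pos i j
  bal := fun x => by
    simp [bb_apply, Fin.sum_univ_four, Fin.sum_univ_six, c0q, Cq]
    ring
  nor := fun x => by
    simp [bb_apply, Fin.sum_univ_four, Fin.sum_univ_six, c0q, Cq, muq, nuq]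
    ring
  inj := fun x y h => by
    apply Psi.symm.injective
    have h0 := h (inl 0)
    have h1 := h (inl 3)
    have h2 := h (inr 0)
    have h3 := h (inl 1)
    have h4 := h (inr 1)
    have h5 := h (inr 3)
    simp [bb_apply, Fin.sum_univ_six, c0q, Cq] at h0 h1 h2 h3 h4 h5
    funext s
    fin_cases s <;> assumption
  zl := fun i j e => by simp [bb_zz]
  zr := fun i j e => by simp [bb_zz]

lemma form_zz (i j : Fin 4) : form ccq (zz i j) = fq i j := by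
  rw [form_apply, zz, LinearEquiv.symm_apply_apply, fq]
  push_cast
  rfl

lemma norm_zz (i j e l : Fin 4) : ‖zz e l - zz i j‖ ^ 2 = nq i j e l := by
  rw [zz, zz, ← map_sub, Psi_apply, EuclideanSpace.norm_sq_eq, nq]
  push_cast
  refine Finset.sum_congr rfl fun r _ => ?_
  rw [Lin_apply, Real.norm_eq_abs, sq_abs]
  rfl

lemma slope_le {a a' n n' : ℝ} (ha' : 0 < a') (hn : 0 < n) (hn' : 0 < n')
    (h : a ≤ 0 ∨ a ^ 2 * n' ^ 2 ≤ a' ^ 2 * n ^ 2) : a / n ≤ a' / n' := by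
  rw [div_le_div_iff₀ hn hn']
  rcases h with h | h
  · nlinarith [mul_pos ha' hn, mul_nonneg (neg_nonneg.mpr h) hn'.le]
  · rw [← mul_pow, ← mul_pow] at h
    exact (abs_le_of_sq_le_sq' h (mul_pos ha' hn).le).2

noncomputable def xx (t : ℕ) : Euc 6 :=
  if h : t < 16 then zz (pr ⟨t, h⟩) (pc ⟨t, h⟩) else 0

lemma steep_ex : IsSteepPath (Pol bb) (form ccq) 15 xx := by
  have e1 : ∀ t (ht : t < 15), xx t = zz (pr (Fin.castSucc ⟨t, ht⟩)) (pc (Fin.castSucc ⟨t, ht⟩)) :=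
    fun t ht => by rw [xx, dif_pos (by omega)]; rfl
  have e2 : ∀ t (ht : t < 15), xx (t + 1) = zz (pr (Fin.succ ⟨t, ht⟩)) (pc (Fin.succ ⟨t, ht⟩)) :=
    fun t ht => by rw [xx, dif_pos (by omega)]; rfl
  have hp : ∀ t < 15, Adj (Pol bb) (xx t) (xx (t + 1)) ∧ form ccq (xx t) < form ccq (xx (t + 1)) := by
    intro t ht
    rw [e1 t ht, e2 t ht, form_zz, form_zz]
    exact ⟨gale_adj gale_ex (check_adj ⟨t, ht⟩), by exact_mod_cast check_inc ⟨t, ht⟩⟩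
  refine ⟨⟨(hp 0 (by norm_num)).1.1, hp⟩, fun t ht w hw => ?_⟩
  obtain ⟨h1, h2⟩ := hp t ht
  refine slope_le (sub_pos.mpr h2) (norm_pos_iff.mpr (sub_ne_zero.mpr hw.2.2.1.symm))
    (norm_pos_iff.mpr (sub_ne_zero.mpr h1.2.2.1.symm)) ?_
  rw [e1 t ht] at hw
  obtain ⟨e, l, rfl, hel⟩ := gale_adj_cases gale_ex hw
  rw [e1 t ht, e2 t ht, form_zz, form_zz, form_zz, norm_zz, norm_zz]
  rcases check_steep ⟨t, ht⟩ e l hel with h | h
  · left
    rw [sub_nonpos]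
    exact_mod_cast h
  · right
    exact_mod_cast h

theorem le_maxSteep : 15 ≤ maxSteep 6 8 := by
  refine le_iSup_of_le (Pol bb) (le_iSup_of_le (gale_simple gale_ex) ?_)
  exact le_iSup_of_le 15 (le_iSup_of_le ⟨_, _, steep_ex⟩ le_rfl)

theorem main : maxSimplex 6 8 ≤ 14 ∧ maxSteep 6 8 = 15 :=
  ⟨maxSimplex_le, le_antisymm maxSteep_le le_maxSteep⟩

end Pool.Agent.H430Z.Klee
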