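import Mathlib

/-! General facts on polyhedra given by affine inequalities (first part copied from the proof of S11695). -/

namespace Pool.Agent.H430Z.KleePoly

section

def Pol {E : Type*} [AddCommGroup E] [Module ℝ E] {ι : Type*} (a : ι → (E →ᵃ[ℝ] ℝ)) : Set E :=
  {x | ∀ i, 0 ≤ a i x}

lemma extend_seg {E : Type*} [AddCommGroup E] [Module ℝ E] {ι : Type*} [Finite ι]
    (a : ι → (E →ᵃ[ℝ] ℝ)) {x y : E} (hx : x ∈ Pol a) (h : ∀ i, a i x = 0 → a i y = 0) :
    ∃ z ∈ Pol a, x ∈ openSegment ℝ z y := by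
  have hev : ∀ i, ∀ᶠ ε in nhdsWithin (0 : ℝ) (Set.Ioi 0), 0 ≤ a i x + -ε * (a i y - a i x) := by
    intro i
    rcases (hx i).eq_or_lt with h0 | h0
    · have hz := h i h0.symm
      refine Filter.Eventually.of_forall fun ε => ?_
      rw [← h0, hz]; simp
    · have hc : Filter.Tendsto (fun ε : ℝ => a i x + -ε * (a i y - a i x)) (nhds 0)
          (nhds (a i x + -0 * (a i y - a i x))) := by
        apply Continuous.tendsto; fun_prop
      rw [neg_zero, zero_mul, add_zero] at hc
      have := (hc.eventually (lt_mem_nhds h0)).filter_mono (nhdsWithin_le_nhds (s := Set.Ioi 0))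
      exact this.mono fun ε hε => hε.le
  have hall : ∀ᶠ ε in nhdsWithin (0 : ℝ) (Set.Ioi 0), ∀ i, 0 ≤ a i x + -ε * (a i y - a i x) :=
    Filter.eventually_all.mpr hev
  obtain ⟨ε, hε, hpos⟩ := (hall.and self_mem_nhdsWithin).exists
  have hpos' : (0 : ℝ) < ε := hpos
  refine ⟨AffineMap.lineMap x y (-ε), fun i => ?_, ?_⟩
  · rw [AffineMap.apply_lineMap, AffineMap.lineMap_apply]
    simp only [vsub_eq_sub, smul_eq_mul, vadd_eq_add]
    have := hε i
    linarith
  · refine ⟨1 / (1 + ε), ε / (1 + ε), by positivity, by positivity, by field_simp, ?_⟩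
    rw [AffineMap.lineMap_apply]
    simp only [vsub_eq_sub, vadd_eq_add]
    have h1 : (1 + ε) ≠ 0 := by positivity
    rw [smul_add, smul_smul, smul_sub]
    have h2 : x = (1 / (1 + ε) + ε / (1 + ε)) • x := by
      rw [← add_div, div_self h1, one_smul]
    have h3 : 1 / (1 + ε) * -ε = -(ε / (1 + ε)) := by ring
    rw [h3]
    conv_rhs => rw [h2]
    module

lemma mem_ext_iff {E : Type*} [AddCommGroup E] [Module ℝ E] {ι : Type*} [Finite ι]
    (a : ι → (E →ᵃ[ℝ] ℝ)) (x : E) :
    x ∈ (Pol a).extremePoints ℝ ↔ x ∈ Pol a ∧ ∀ y ∈ Pol a, (∀ i, a i x = 0 → a i y = 0) → y = x := by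
  rw [mem_extremePoints]
  constructor
  · rintro ⟨hx, h⟩
    refine ⟨hx, fun y hy hz => ?_⟩
    obtain ⟨z, hz1, hz2⟩ := extend_seg a hx hz
    exact (h z hz1 y hy hz2).2
  · rintro ⟨hx, h⟩
    refine ⟨hx, fun y hy z hz hxyz => ?_⟩
    have key : ∀ i, a i x = 0 → a i y = 0 ∧ a i z = 0 := by
      intro i hi
      obtain ⟨s, t, hs, ht, hst, hxe⟩ := hxyz
      have h1 : a i x = s * a i y + t * a i z := by
        rw [← hxe, Convex.combo_affine_apply hst]; rfl
      rw [hi] at h1
      have h2 := mul_nonneg hs.le (hy i)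
      have h3 := mul_nonneg ht.le (hz i)
      have h4 : s * a i y = 0 := by linarith
      have h5 : t * a i z = 0 := by linarith
      exact ⟨(mul_eq_zero.mp h4).resolve_left hs.ne', (mul_eq_zero.mp h5).resolve_left ht.ne'⟩
    exact ⟨h y hy fun i hi => (key i hi).1, h z hz fun i hi => (key i hi).2⟩

lemma Pol_convex {E : Type*} [AddCommGroup E] [Module ℝ E] {ι : Type*}
    (a : ι → (E →ᵃ[ℝ] ℝ)) : Convex ℝ (Pol a) := by
  intro x hx y hy s t hs ht hst i
  rw [Convex.combo_affine_apply hst]
  exact add_nonneg (mul_nonneg hs (hx i)) (mul_nonneg ht (hy i))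

lemma face_hull {E : Type*} [AddCommGroup E] [Module ℝ E] (X : Set E) (g : E →ᵃ[ℝ] ℝ) (M : ℝ)
    (hM : ∀ x ∈ X, g x ≤ M) {x : E} (hx : x ∈ convexHull ℝ X) (hgx : g x = M) :
    x ∈ convexHull ℝ {y ∈ X | g y = M} := by
  have hsub : convexHull ℝ X ⊆ {y | g y ≤ M ∧ (g y = M → y ∈ convexHull ℝ {y ∈ X | g y = M})} := by
    refine convexHull_min ?_ ?_
    · intro y hy
      exact ⟨hM y hy, fun h => subset_convexHull ℝ _ ⟨hy, h⟩⟩
    · intro y hy z hz s t hs ht hst
      have h1 : g (s • y + t • z) = s * g y + t * g z := by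
        rw [Convex.combo_affine_apply hst]; rfl
      refine ⟨?_, fun h => ?_⟩
      · rw [h1]
        calc s * g y + t * g z ≤ s * M + t * M :=
              add_le_add (mul_le_mul_of_nonneg_left hy.1 hs) (mul_le_mul_of_nonneg_left hz.1 ht)
          _ = M := by rw [← add_mul, hst, one_mul]
      · rw [h1] at h
        rcases hs.eq_or_lt with hs0 | hs0
        · have ht1 : t = 1 := by linarith
          subst hs0; subst ht1
          simp only [zero_smul, one_smul, zero_add]
          exact hz.2 (by linarith)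
        · rcases ht.eq_or_lt with ht0 | ht0
          · have hs1 : s = 1 := by linarith
            subst ht0; subst hs1
            simp only [zero_smul, one_smul, add_zero]
            exact hy.2 (by linarith)
          · have e1 : g y = M := by
              by_contra hne
              have : g y < M := lt_of_le_of_ne hy.1 hne
              have := mul_lt_mul_of_pos_left this hs0
              have := mul_le_mul_of_nonneg_left hz.1 ht
              have hMM : s * M + t * M = M := by rw [← add_mul, hst, one_mul]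
              linarith
            have e2 : g z = M := by
              by_contra hne
              have : g z < M := lt_of_le_of_ne hz.1 hne
              have := mul_lt_mul_of_pos_left this ht0
              have := mul_le_mul_of_nonneg_left hy.1 hs
              have hMM : s * M + t * M = M := by rw [← add_mul, hst, one_mul]
              linarith
            exact convex_convexHull ℝ _ (hy.2 e1) (hz.2 e2) hs ht hst
  exact (hsub hx).2 hgx

end

section

lemma exposed_eq_hull {E : Type*} [NormedAddCommGroup E] [NormedSpace ℝ E] (S : Set E) (F : Set E)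
    (hF : IsExposed ℝ (convexHull ℝ S) F) (hne : F.Nonempty) :
    F = convexHull ℝ {v ∈ S | v ∈ F} := by
  obtain ⟨l, hl⟩ := hF hne
  obtain ⟨x0, hx0⟩ := hne
  have hx0' := hx0
  rw [hl] at hx0'
  have hmem : ∀ x, x ∈ F ↔ x ∈ convexHull ℝ S ∧ l x = l x0 := by
    intro x
    constructor
    · intro hx
      rw [hl] at hx
      exact ⟨hx.1, le_antisymm (hx0'.2 x hx.1) (hx.2 x0 hx0'.1)⟩
    · rintro ⟨hx, he⟩
      rw [hl]
      exact ⟨hx, fun y hy => by rw [he]; exact hx0'.2 y hy⟩
  apply Set.Subset.antisymm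
  · intro x hx
    obtain ⟨hxP, hxe⟩ := (hmem x).mp hx
    have h := face_hull S (l : E →ₗ[ℝ] ℝ).toAffineMap (l x0)
      (fun y hy => hx0'.2 y (subset_convexHull ℝ S hy)) hxP hxe
    refine convexHull_mono ?_ h
    rintro y ⟨hy, hye⟩
    exact ⟨hy, (hmem y).mpr ⟨subset_convexHull ℝ S hy, hye⟩⟩
  · refine convexHull_min (fun v hv => hv.2) (hF.convex (convex_convexHull ℝ S))

lemma facets_finite {E : Type*} [NormedAddCommGroup E] [NormedSpace ℝ E] (S : Finset E) :
    {F : Set E | IsExposed ℝ (convexHull ℝ (S : Set E)) F ∧ F.Nonempty}.Finite := by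
  classical
  refine ((S.powerset.finite_toSet).image (fun A : Finset E => convexHull ℝ (A : Set E))).subset ?_
  rintro F ⟨hF, hne⟩
  refine ⟨S.filter (fun v => v ∈ F), ?_, ?_⟩
  · simp only [Finset.coe_powerset, Set.mem_preimage, Set.mem_powerset_iff, Finset.coe_filter]
    exact fun v hv => hv.1
  · simp only [Finset.coe_filter]
    exact (exposed_eq_hull (S : Set E) F hF hne).symm

lemma affine_avoid {E : Type*} [NormedAddCommGroup E] [NormedSpace ℝ E] [FiniteDimensional ℝ E]
    {d : ℕ} (hd : Module.finrank ℝ E = d) (S : Finset E)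
    (U : Set E) (hU : IsOpen U) (hUne : U.Nonempty) (x : E) :
    ∃ p ∈ U, ∀ A ⊆ S, Module.finrank ℝ (vectorSpan ℝ (A : Set E)) + 1 < d →
      p ∉ affineSpan ℝ (insert x (A : Set E)) := by
  let _ : MeasurableSpace E := borel E
  have _ : BorelSpace E := ⟨rfl⟩
  classical
  by_contra hcon
  push Not at hcon
  let bad : Finset (Finset E) := S.powerset.filter
    (fun A => Module.finrank ℝ (vectorSpan ℝ (A : Set E)) + 1 < d)
  have hsub : U ⊆ ⋃ A ∈ bad, (affineSpan ℝ (insert x (A : Set E)) :
      Set E) := by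
    intro p hp
    obtain ⟨A, hA, hfr, hpA⟩ := hcon p hp
    simp only [Set.mem_iUnion]
    exact ⟨A, by simp [bad, hA, hfr], hpA⟩
  have hnull : (MeasureTheory.Measure.addHaar : MeasureTheory.Measure E) (⋃ A ∈ bad,
      (affineSpan ℝ (insert x (A : Set E)) :
      Set E)) = 0 := by
    refine (MeasureTheory.measure_biUnion_null_iff (I := (bad : Set (Finset E)))
      bad.countable_toSet).mpr ?_
    intro A hA
    refine MeasureTheory.Measure.addHaar_affineSubspace _ _ ?_
    intro htop
    have h1 : Module.finrank ℝ (vectorSpan ℝ (insert x (A : Set E)))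
        ≤ Module.finrank ℝ (vectorSpan ℝ (A : Set E)) + 1 :=
      finrank_vectorSpan_insert_le_set ℝ _ _
    have h2 : vectorSpan ℝ (insert x (A : Set E)) = ⊤ := by
      rw [← direction_affineSpan, htop, AffineSubspace.direction_top]
    rw [h2, finrank_top, hd] at h1
    have h3 : Module.finrank ℝ (vectorSpan ℝ (A : Set E)) + 1 < d := by
      have := (Finset.mem_filter.mp hA).2
      exact this
    omega
  have := MeasureTheory.measure_mono_null hsub hnull
  exact (hU.measure_pos (MeasureTheory.Measure.addHaar : MeasureTheory.Measure E) hUne).ne' this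

lemma exists_facet {E : Type*} [NormedAddCommGroup E] [NormedSpace ℝ E] [FiniteDimensional ℝ E]
    {d : ℕ} (hd : Module.finrank ℝ E = d) (S : Finset E)
    (hint : (interior (convexHull ℝ (S : Set E))).Nonempty)
    (x : E) (hx : x ∉ convexHull ℝ (S : Set E)) :
    ∃ F : Set E,
      (IsExposed ℝ (convexHull ℝ (S : Set E)) F ∧ F.Nonempty ∧
        Module.finrank ℝ (vectorSpan ℝ F) + 1 = d) ∧
      ∀ l : StrongDual ℝ E,
        F = {y ∈ convexHull ℝ (S : Set E) |
          ∀ z ∈ convexHull ℝ (S : Set E), l z ≤ l y} →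
        ∀ y ∈ F, l y < l x := by
  classical
  set P : Set E := convexHull ℝ (S : Set E) with hP
  have hPconv : Convex ℝ P := convex_convexHull ℝ _
  have hPcl : IsClosed P := S.finite_toSet.isClosed_convexHull ℝ
  obtain ⟨p, hpint, hpav⟩ := affine_avoid hd S (interior P) isOpen_interior hint x
  have hpP : p ∈ P := interior_subset hpint
  have hcont : Continuous (fun t : ℝ => AffineMap.lineMap (k := ℝ) p x t) :=
    AffineMap.lineMap_continuous
  have hcomp : IsCompact (Set.Icc (0 : ℝ) 1 ∩ {t | AffineMap.lineMap (k := ℝ) p x t ∈ P}) :=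
    isCompact_Icc.inter_right (hPcl.preimage hcont)
  obtain ⟨τ, hτ, hτmax⟩ := hcomp.exists_isGreatest ⟨0, by simp, by simpa using hpP⟩
  set q : E := AffineMap.lineMap (k := ℝ) p x τ with hq
  have hqP : q ∈ P := hτ.2
  have hτ1 : τ < 1 := by
    rcases hτ.1.2.lt_or_eq with h | h
    · exact h
    · exfalso
      apply hx
      have := hqP
      rw [hq, h, AffineMap.lineMap_apply_one] at this
      exact this
  have hqint : q ∉ interior P := by
    intro hqi
    have hopen : IsOpen ((fun t : ℝ => AffineMap.lineMap (k := ℝ) p x t) ⁻¹' interior P) :=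
      isOpen_interior.preimage hcont
    have hev : ∀ᶠ t in nhds τ, AffineMap.lineMap (k := ℝ) p x t ∈ interior P := hopen.mem_nhds hqi
    have hev2 : ∀ᶠ t in nhdsWithin τ (Set.Ioi τ), AffineMap.lineMap (k := ℝ) p x t ∈ interior P :=
      hev.filter_mono nhdsWithin_le_nhds
    have hev3 : ∀ᶠ t in nhdsWithin τ (Set.Ioi τ), t < 1 :=
      (eventually_lt_nhds hτ1).filter_mono nhdsWithin_le_nhds
    obtain ⟨t, ⟨ht1, ht2⟩, ht3⟩ := ((hev2.and hev3).and self_mem_nhdsWithin).exists
    have ht3' : τ < t := ht3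
    have ht1' : AffineMap.lineMap (k := ℝ) p x t ∈ P := interior_subset ht1
    have := hτmax ⟨⟨hτ.1.1.trans ht3'.le, ht2.le⟩, ht1'⟩
    linarith
  have hτ0 : 0 < τ := by
    rcases hτ.1.1.lt_or_eq with h | h
    · exact h
    · exfalso
      apply hqint
      rw [hq, ← h, AffineMap.lineMap_apply_zero]
      exact hpint
  obtain ⟨f, hf⟩ := geometric_hahn_banach_open_point hPconv.interior isOpen_interior hqint
  have hfP : ∀ y ∈ P, f y ≤ f q := by
    intro y hy
    have hcl : closure (interior P) = closure P :=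
      hPconv.closure_interior_eq_closure_of_nonempty_interior hint
    have hy' : y ∈ closure (interior P) := by rw [hcl]; exact subset_closure hy
    have hc : IsClosed {y : E | f y ≤ f q} := isClosed_le f.continuous continuous_const
    exact closure_minimal (fun z hz => (hf z hz).le) hc hy'
  set G : Set E := {y ∈ P | ∀ z ∈ P, f z ≤ f y} with hG
  have hqG : q ∈ G := ⟨hqP, hfP⟩
  have hGexp : IsExposed ℝ P G := fun _ => ⟨f, rfl⟩
  have hGf : ∀ y ∈ G, f y = f q := fun y hy => le_antisymm (hfP y hy.1) (hy.2 q hqP)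
  have hGhull := exposed_eq_hull (S : Set E) G hGexp ⟨q, hqG⟩
  set A : Finset E := S.filter (fun v => v ∈ G) with hA
  have hAcoe : (A : Set E) = {v ∈ (S : Set E) | v ∈ G} := by simp [hA]
  rw [← hAcoe] at hGhull
  have hf0 : f ≠ 0 := by
    intro h
    have := hf p hpint
    rw [h] at this
    simp at this
  have hle : Module.finrank ℝ (vectorSpan ℝ G) + 1 ≤ d := by
    have h1 : vectorSpan ℝ G ≤ LinearMap.ker (f : E →ₗ[ℝ] ℝ) := by
      rw [vectorSpan_def, Submodule.span_le]
      rintro _ ⟨y, hy, z, hz, rfl⟩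
      simp only [vsub_eq_sub, SetLike.mem_coe, LinearMap.mem_ker]
      show f (y - z) = 0
      rw [map_sub, hGf y hy, hGf z hz, sub_self]
    have h2 : Module.finrank ℝ (LinearMap.ker (f : E →ₗ[ℝ] ℝ)) + 1 ≤ d := by
      have h3 : LinearMap.ker (f : E →ₗ[ℝ] ℝ) < ⊤ := by
        rw [lt_top_iff_ne_top]
        intro h
        apply hf0
        ext y
        have : y ∈ LinearMap.ker (f : E →ₗ[ℝ] ℝ) := by rw [h]; trivial
        exact this
      have h4 := Submodule.finrank_lt h3.ne
      have h5 : Module.finrank ℝ E = d := hd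
      omega
    have h6 := Submodule.finrank_mono h1
    omega
  have hge : d ≤ Module.finrank ℝ (vectorSpan ℝ G) + 1 := by
    by_contra hlt
    push Not at hlt
    have h1 : vectorSpan ℝ (A : Set E) ≤ vectorSpan ℝ G := by
      refine vectorSpan_mono ℝ ?_
      rw [hAcoe]
      exact fun v hv => hv.2
    have h2 := Submodule.finrank_mono h1
    have h3 := hpav A (Finset.filter_subset _ _) (by omega)
    apply h3
    have hqA : q ∈ affineSpan ℝ (insert x (A : Set E)) := by
      have hqh : q ∈ convexHull ℝ (A : Set E) := by rw [← hGhull]; exact hqG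
      exact affineSpan_mono ℝ (Set.subset_insert x _) (convexHull_subset_affineSpan _ hqh)
    have hxA : x ∈ affineSpan ℝ (insert x (A : Set E)) :=
      subset_affineSpan ℝ _ (Set.mem_insert x _)
    have h4 : p = AffineMap.lineMap (k := ℝ) x q (1 / (1 - τ)) := by
      rw [hq, AffineMap.lineMap_apply, AffineMap.lineMap_apply]
      simp only [vsub_eq_sub, vadd_eq_add]
      have h5 : (1 - τ) ≠ 0 := by linarith
      have h6 : τ • (x - p) + p - x = (1 - τ) • (p - x) := by
        module
      rw [h6, smul_smul, one_div, inv_mul_cancel₀ h5, one_smul]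
      abel
    rw [h4]
    exact AffineMap.lineMap_mem _ hxA hqA
  refine ⟨G, ⟨hGexp, ⟨q, hqG⟩, le_antisymm hle hge⟩, ?_⟩
  intro l hl y hy
  have hyq : l y = l q := by
    have h1 : q ∈ {y ∈ P | ∀ z ∈ P, l z ≤ l y} := hl ▸ hqG
    have h2 : y ∈ {y ∈ P | ∀ z ∈ P, l z ≤ l y} := hl ▸ hy
    exact le_antisymm (h1.2 y h2.1) (h2.2 q h1.1)
  have hpG : p ∉ G := by
    intro h
    have := hGf p h
    have := hf p hpint
    linarith
  have hlp : l p < l q := by
    have h1 : q ∈ {y ∈ P | ∀ z ∈ P, l z ≤ l y} := hl ▸ hqG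
    refine lt_of_le_of_ne (h1.2 p hpP) ?_
    intro he
    apply hpG
    rw [hl]
    exact ⟨hpP, fun z hz => by rw [he]; exact h1.2 z hz⟩
  have hlq : l q = (1 - τ) * l p + τ * l x := by
    rw [hq, AffineMap.lineMap_apply]
    simp only [vsub_eq_sub, vadd_eq_add, map_add, map_smul, map_sub, smul_eq_mul]
    ring
  rw [hyq]
  by_contra hcon
  push Not at hcon
  nlinarith

end

section

/-- homogenised slack map -/
noncomputable def Phi {E : Type*} [AddCommGroup E] [Module ℝ E] {ι : Type*}
    (a : ι → (E →ᵃ[ℝ] ℝ)) : (E × ℝ) →ₗ[ℝ] (ι → ℝ) where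
  toFun v := fun i => v.2 * a i 0 + (a i).linear v.1
  map_add' v w := by
    funext i
    simp only [Prod.snd_add, Prod.fst_add, map_add, Pi.add_apply]
    ring
  map_smul' c v := by
    funext i
    simp only [Prod.smul_snd, Prod.smul_fst, map_smul, Pi.smul_apply, smul_eq_mul,
      RingHom.id_apply]
    ring

lemma Phi_apply {E : Type*} [AddCommGroup E] [Module ℝ E] {ι : Type*}
    (a : ι → (E →ᵃ[ℝ] ℝ)) (x : E) (l : ℝ) (i : ι) :
    Phi a (x, l) i = l * a i 0 + (a i).linear x := rfl

lemma aff_eq {E : Type*} [AddCommGroup E] [Module ℝ E] (g : E →ᵃ[ℝ] ℝ) (x : E) :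
    g x = g 0 + g.linear x := by
  have h := AffineMap.linearMap_vsub g x 0
  rw [vsub_eq_sub, vsub_eq_sub, sub_zero] at h
  linarith

lemma Phi_one {E : Type*} [AddCommGroup E] [Module ℝ E] {ι : Type*}
    (a : ι → (E →ᵃ[ℝ] ℝ)) (x : E) (i : ι) : Phi a (x, 1) i = a i x := by
  rw [Phi_apply, one_mul, aff_eq (a i) x]

lemma recession {E : Type*} [NormedAddCommGroup E] [NormedSpace ℝ E] {ι : Type*}
    (a : ι → (E →ᵃ[ℝ] ℝ)) (hbdd : Bornology.IsBounded (Pol a)) {p : E} (hp : p ∈ Pol a)
    (x : E) (hx : ∀ i, 0 ≤ (a i).linear x) : x = 0 := by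
  by_contra hne
  obtain ⟨C, hC⟩ := hbdd.exists_norm_le
  have hmem : ∀ t : ℝ, 0 ≤ t → p + t • x ∈ Pol a := by
    intro t ht i
    rw [aff_eq, map_add, map_smul, smul_eq_mul]
    have h1 := hp i
    rw [aff_eq] at h1
    have h2 := mul_nonneg ht (hx i)
    linarith
  have hn : 0 < ‖x‖ := norm_pos_iff.mpr hne
  have h1 := hC _ (hmem ((|C| + ‖p‖ + 1) / ‖x‖) (by positivity))
  have h2 : ‖((|C| + ‖p‖ + 1) / ‖x‖) • x‖ = |C| + ‖p‖ + 1 := by
    rw [norm_smul, Real.norm_of_nonneg (by positivity)]
    field_simp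
  have h3 : ‖((|C| + ‖p‖ + 1) / ‖x‖) • x‖ ≤ ‖p + ((|C| + ‖p‖ + 1) / ‖x‖) • x‖ + ‖p‖ := by
    have := norm_sub_le (p + ((|C| + ‖p‖ + 1) / ‖x‖) • x) p
    rwa [add_sub_cancel_left] at this
  have h4 := le_abs_self C
  linarith

lemma Phi_injective {E : Type*} [NormedAddCommGroup E] [NormedSpace ℝ E] [Nontrivial E]
    {ι : Type*} (a : ι → (E →ᵃ[ℝ] ℝ)) (hbdd : Bornology.IsBounded (Pol a))
    (hint : (interior (Pol a)).Nonempty) : Function.Injective (Phi a) := by
  obtain ⟨p, hp⟩ := hint
  have hpP : p ∈ Pol a := interior_subset hp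
  rw [injective_iff_map_eq_zero]
  rintro ⟨x, l⟩ h
  have hi : ∀ i, l * a i 0 + (a i).linear x = 0 := fun i => congrFun h i
  by_cases hl : l = 0
  · subst hl
    have := recession a hbdd hpP x (fun i => by have := hi i; linarith)
    rw [this]; rfl
  · exfalso
    have hy : ∀ i, a i (l⁻¹ • x) = 0 := by
      intro i
      rw [aff_eq, map_smul, smul_eq_mul]
      have := hi i
      field_simp
      linarith
    have hsub : Pol a ⊆ {l⁻¹ • x} := by
      intro q hq
      have := recession a hbdd hpP (q - l⁻¹ • x) (fun i => by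
        have h1 := hq i
        have h2 := hy i
        rw [aff_eq] at h1 h2
        rw [map_sub]
        linarith)
      exact sub_eq_zero.mp this
    have h1 := interior_mono hsub hp
    rw [interior_singleton] at h1
    exact h1

end

section

lemma small_step {ι : Type*} [Finite ι] (s c : ι → ℝ) (hs : ∀ i, 0 ≤ s i)
    (h : ∀ i, s i = 0 → c i = 0) : ∃ δ : ℝ, 0 < δ ∧ ∀ i, 0 ≤ s i + δ * c i := by
  have hev : ∀ i, ∀ᶠ ε in nhdsWithin (0 : ℝ) (Set.Ioi 0), 0 ≤ s i + ε * c i := by
    intro i
    rcases (hs i).eq_or_lt with h0 | h0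
    · have hz := h i h0.symm
      refine Filter.Eventually.of_forall fun ε => ?_
      rw [← h0, hz]; simp
    · have hc : Filter.Tendsto (fun ε : ℝ => s i + ε * c i) (nhds 0)
          (nhds (s i + 0 * c i)) := by
        apply Continuous.tendsto; fun_prop
      rw [zero_mul, add_zero] at hc
      have := (hc.eventually (lt_mem_nhds h0)).filter_mono (nhdsWithin_le_nhds (s := Set.Ioi 0))
      exact this.mono fun ε hε => hε.le
  have hall : ∀ᶠ ε in nhdsWithin (0 : ℝ) (Set.Ioi 0), ∀ i, 0 ≤ s i + ε * c i :=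
    Filter.eventually_all.mpr hev
  obtain ⟨ε, hε, hpos⟩ := (hall.and self_mem_nhdsWithin).exists
  exact ⟨ε, hpos, hε⟩

end

end Pool.Agent.H430Z.KleePoly
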