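import Mathlib

/-! Combinatorial core: no admissible Hamiltonian path on the 4 by 4 grid. -/

namespace Pool.Agent.H430Z.KleeSearch

def all4 (p : ℕ → Bool) : Bool := p 0 && p 1 && p 2 && p 3
def any4 (p : ℕ → Bool) : Bool := p 0 || p 1 || p 2 || p 3

lemma all4_iff {p : ℕ → Bool} (h : all4 p = true) : ∀ i, i < 4 → p i = true := by
  intro i hi
  simp only [all4, Bool.and_eq_true] at h
  obtain ⟨⟨⟨h0, h1⟩, h2⟩, h3⟩ := h
  interval_cases i <;> assumption

lemma any4_iff {p : ℕ → Bool} (h : any4 p = true) : ∃ i, i < 4 ∧ p i = true := by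
  simp only [any4, Bool.or_eq_true] at h
  rcases h with ((h | h) | h) | h
  · exact ⟨0, by norm_num, h⟩
  · exact ⟨1, by norm_num, h⟩
  · exact ⟨2, by norm_num, h⟩
  · exact ⟨3, by norm_num, h⟩

/-- interleaving pattern for two rows -/
def badA (T : ℕ → ℕ → ℕ) : Bool :=
  any4 fun i => any4 fun k => any4 fun l => Nat.blt (T k l) (T i l) &&
    ((any4 (fun j => Nat.blt (T i j) (T k l) && Nat.blt (T i j) (T k j)) &&
      any4 (fun m => Nat.blt (T k l) (T k m) && Nat.blt (T i m) (T k m))) ||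
     (any4 (fun j => Nat.blt (T i j) (T i l) && Nat.blt (T i j) (T k j)) &&
      any4 (fun m => Nat.blt (T i l) (T k m) && Nat.blt (T i m) (T k m))))

/-- two-cycle patterns, first step along a column -/
def badB (T : ℕ → ℕ → ℕ) : Bool :=
  any4 fun i => any4 fun a => any4 fun e => Nat.beq (T e a) (T i a + 1) &&
    any4 fun i' => any4 fun b => Nat.blt (T i a) (T i' b) && Nat.ble (T i a) (T i b) &&
      Nat.blt (T i' b) (T e b) &&
      any4 fun k => Nat.beq (T k b) (T i' b + 1) && Nat.blt (T k b) (T e b) &&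
        Nat.blt (T e a) (T k a)

/-- two-cycle patterns, first step along a row -/
def badC (T : ℕ → ℕ → ℕ) : Bool :=
  any4 fun i => any4 fun a => any4 fun k => Nat.beq (T i k) (T i a + 1) &&
    any4 fun i' => any4 fun b => Nat.blt (T i a) (T i' b) && Nat.ble (T i a) (T i' a) &&
      Nat.blt (T i' b) (T i' k) &&
      any4 fun e => Nat.beq (T e b) (T i' b + 1) && Nat.blt (T e k) (T i' k) &&
        Nat.blt (T i a) (T e a)

def tr (T : ℕ → ℕ → ℕ) : ℕ → ℕ → ℕ := fun a b => T b a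

def upd (T : ℕ → ℕ → ℕ) (i j t : ℕ) : ℕ → ℕ → ℕ :=
  fun a b => bif Nat.beq a i && Nat.beq b j then t else T a b

def go : ℕ → (ℕ → ℕ → ℕ) → ℕ → ℕ → ℕ → ℕ → ℕ → Bool
  | 0, T, _, _, _, _, _ => badA T || badA (tr T) || badB T || badB (tr T) || badC T || badC (tr T)
  | n + 1, T, t, i, j, mi, mj => badA T || badA (tr T) ||
      (all4 (fun e => Nat.blt mi e || Nat.ble (T e j) t ||
          go n (upd T e j (t + 1)) (t + 1) e j (Nat.max mi (e + 1)) mj) &&
       all4 (fun l => Nat.blt mj l || Nat.ble (T i l) t ||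
          go n (upd T i l (t + 1)) (t + 1) i l mi (Nat.max mj (l + 1))))

set_option maxRecDepth 100000 in
theorem go_true : go 15 (upd (fun _ _ => 99) 0 0 0) 0 0 0 1 1 = true := by decide +kernel

def NoA (pos : ℕ → ℕ → ℕ) : Prop :=
  ∀ i < 4, ∀ k < 4, ∀ l < 4, ∀ j < 4, ∀ m < 4, ∀ n, (n = pos k l ∨ n = pos i l) →
    pos k l < pos i l → pos i j < n → pos i j < pos k j → n < pos k m → pos i m < pos k m → False

def NoB (pos : ℕ → ℕ → ℕ) : Prop :=
  ∀ i < 4, ∀ a < 4, ∀ e < 4, ∀ i' < 4, ∀ b < 4, ∀ k < 4, pos e a = pos i a + 1 →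
    pos i a < pos i' b → pos i a ≤ pos i b → pos i' b < pos e b → pos k b = pos i' b + 1 →
    pos k b < pos e b → pos e a < pos k a → False

def NoC (pos : ℕ → ℕ → ℕ) : Prop :=
  ∀ i < 4, ∀ a < 4, ∀ k < 4, ∀ i' < 4, ∀ b < 4, ∀ e < 4, pos i k = pos i a + 1 →
    pos i a < pos i' b → pos i a ≤ pos i' a → pos i' b < pos i' k → pos e b = pos i' b + 1 →
    pos e k < pos i' k → pos i a < pos e a → False

def Rep (T pos : ℕ → ℕ → ℕ) (t : ℕ) : Prop :=
  ∀ i < 4, ∀ j < 4, T i j = if pos i j ≤ t then pos i j else 99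

lemma Rep.tr {T pos : ℕ → ℕ → ℕ} {t : ℕ} (h : Rep T pos t) : Rep (tr T) (tr pos) t :=
  fun i hi j hj => h j hj i hi

lemma Rep.lt {T pos : ℕ → ℕ → ℕ} {t : ℕ} (h : Rep T pos t) (ht : t < 16) {i j k l : ℕ}
    (hi : i < 4) (hj : j < 4) (hk : k < 4) (hl : l < 4) (hlt : Nat.blt (T i j) (T k l) = true) :
    pos i j < pos k l := by
  rw [Nat.blt_eq, h i hi j hj, h k hk l hl] at hlt
  split_ifs at hlt <;> omega

lemma badA_false {T pos : ℕ → ℕ → ℕ} {t : ℕ} (h : Rep T pos t) (ht : t < 16) (hA : NoA pos)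
    (hb : badA T = true) : False := by
  obtain ⟨i, hi, hb⟩ := any4_iff hb
  obtain ⟨k, hk, hb⟩ := any4_iff hb
  obtain ⟨l, hl, hb⟩ := any4_iff hb
  rw [Bool.and_eq_true, Bool.or_eq_true, Bool.and_eq_true, Bool.and_eq_true] at hb
  obtain ⟨h0, ⟨h1, h2⟩ | ⟨h1, h2⟩⟩ := hb
  · obtain ⟨j, hj, h1⟩ := any4_iff h1
    obtain ⟨m, hm, h2⟩ := any4_iff h2
    rw [Bool.and_eq_true] at h1 h2
    exact hA i hi k hk l hl j hj m hm _ (Or.inl rfl) (h.lt ht hk hl hi hl h0)
      (h.lt ht hi hj hk hl h1.1) (h.lt ht hi hj hk hj h1.2) (h.lt ht hk hl hk hm h2.1)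
      (h.lt ht hi hm hk hm h2.2)
  · obtain ⟨j, hj, h1⟩ := any4_iff h1
    obtain ⟨m, hm, h2⟩ := any4_iff h2
    rw [Bool.and_eq_true] at h1 h2
    exact hA i hi k hk l hl j hj m hm _ (Or.inr rfl) (h.lt ht hk hl hi hl h0)
      (h.lt ht hi hj hi hl h1.1) (h.lt ht hi hj hk hj h1.2) (h.lt ht hi hl hk hm h2.1)
      (h.lt ht hi hm hk hm h2.2)

lemma badB_false {T pos : ℕ → ℕ → ℕ} (h : ∀ i < 4, ∀ j < 4, T i j = pos i j) (hB : NoB pos)
    (hb : badB T = true) : False := by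
  obtain ⟨i, hi, hb⟩ := any4_iff hb
  obtain ⟨a, ha, hb⟩ := any4_iff hb
  obtain ⟨e, he, hb⟩ := any4_iff hb
  rw [Bool.and_eq_true] at hb
  obtain ⟨h1, hb⟩ := hb
  obtain ⟨i', hi', hb⟩ := any4_iff hb
  obtain ⟨b, hb', hb⟩ := any4_iff hb
  rw [Bool.and_eq_true, Bool.and_eq_true, Bool.and_eq_true] at hb
  obtain ⟨⟨⟨h2, h3⟩, h4⟩, hb⟩ := hb
  obtain ⟨k, hk, hb⟩ := any4_iff hb
  rw [Bool.and_eq_true, Bool.and_eq_true] at hb
  obtain ⟨⟨h5, h6⟩, h7⟩ := hb
  simp only [Nat.blt_eq, Nat.ble_eq, Nat.beq_eq, h, hi, ha, he, hi', hb', hk] at h1 h2 h3 h4 h5 h6 h7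
  exact hB i hi a ha e he i' hi' b hb' k hk h1 h2 h3 h4 h5 h6 h7

lemma badC_false {T pos : ℕ → ℕ → ℕ} (h : ∀ i < 4, ∀ j < 4, T i j = pos i j) (hC : NoC pos)
    (hb : badC T = true) : False := by
  obtain ⟨i, hi, hb⟩ := any4_iff hb
  obtain ⟨a, ha, hb⟩ := any4_iff hb
  obtain ⟨k, hk, hb⟩ := any4_iff hb
  rw [Bool.and_eq_true] at hb
  obtain ⟨h1, hb⟩ := hb
  obtain ⟨i', hi', hb⟩ := any4_iff hb
  obtain ⟨b, hb', hb⟩ := any4_iff hb
  rw [Bool.and_eq_true, Bool.and_eq_true, Bool.and_eq_true] at hb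
  obtain ⟨⟨⟨h2, h3⟩, h4⟩, hb⟩ := hb
  obtain ⟨e, he, hb⟩ := any4_iff hb
  rw [Bool.and_eq_true, Bool.and_eq_true] at hb
  obtain ⟨⟨h5, h6⟩, h7⟩ := hb
  simp only [Nat.blt_eq, Nat.ble_eq, Nat.beq_eq, h, hi, ha, he, hi', hb', hk] at h1 h2 h3 h4 h5 h6 h7
  exact hC i hi a ha k hk i' hi' b hb' e he h1 h2 h3 h4 h5 h6 h7

structure Hyp (pos : ℕ → ℕ → ℕ) (r c : ℕ → ℕ) : Prop where
  hr : ∀ t < 16, r t < 4
  hc : ∀ t < 16, c t < 4
  hpos : ∀ t < 16, pos (r t) (c t) = t
  hlt : ∀ i < 4, ∀ j < 4, pos i j < 16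
  hinv : ∀ i < 4, ∀ j < 4, r (pos i j) = i ∧ c (pos i j) = j
  step : ∀ t < 15, r (t + 1) = r t ∨ c (t + 1) = c t
  canr : ∀ t < 16, ∀ i < r t, ∃ s < t, r s = i
  canc : ∀ t < 16, ∀ i < c t, ∃ s < t, c s = i
  A : NoA pos
  A' : NoA (tr pos)
  B : NoB pos
  B' : NoB (tr pos)
  C : NoC pos
  C' : NoC (tr pos)

lemma Hyp.rep_upd {pos : ℕ → ℕ → ℕ} {r c : ℕ → ℕ} (H : Hyp pos r c) {T : ℕ → ℕ → ℕ} {t : ℕ}
    (ht : t + 1 < 16) (h : Rep T pos t) :
    Rep (upd T (r (t + 1)) (c (t + 1)) (t + 1)) pos (t + 1) := by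
  intro i hi j hj
  unfold upd
  by_cases hij : i = r (t + 1) ∧ j = c (t + 1)
  · obtain ⟨rfl, rfl⟩ := hij
    simp [H.hpos _ ht]
  · have h1 : (Nat.beq i (r (t + 1)) && Nat.beq j (c (t + 1))) = false := by
      rw [Bool.eq_false_iff]
      intro h2
      rw [Bool.and_eq_true, Nat.beq_eq, Nat.beq_eq] at h2
      exact hij h2
    rw [h1, cond_false, h i hi j hj]
    have h3 : pos i j ≠ t + 1 := by
      intro h4
      have := H.hinv i hi j hj
      rw [h4] at this
      exact hij ⟨this.1.symm, this.2.symm⟩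
    by_cases h5 : pos i j ≤ t
    · rw [if_pos h5, if_pos (by omega)]
    · rw [if_neg h5, if_neg (by omega)]

lemma Hyp.go_false {pos : ℕ → ℕ → ℕ} {r c : ℕ → ℕ} (H : Hyp pos r c) :
    ∀ (n : ℕ) (T : ℕ → ℕ → ℕ) (t mi mj : ℕ), t + n = 15 → Rep T pos t →
      (∀ s ≤ t, r s < mi) → (∀ s ≤ t, c s < mj) → go n T t (r t) (c t) mi mj = true → False := by
  intro n
  induction n with
  | zero =>
    intro T t mi mj ht hT _ _ hg
    have hT' : ∀ i < 4, ∀ j < 4, T i j = pos i j := by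
      intro i hi j hj
      rw [hT i hi j hj, if_pos (by have := H.hlt i hi j hj; omega)]
    have hT'' : ∀ i < 4, ∀ j < 4, tr T i j = tr pos i j := fun i hi j hj => hT' j hj i hi
    simp only [go, Bool.or_eq_true] at hg
    rcases hg with ((((hg | hg) | hg) | hg) | hg) | hg
    · exact badA_false hT (by omega) H.A hg
    · exact badA_false hT.tr (by omega) H.A' hg
    · exact badB_false hT' H.B hg
    · exact badB_false hT'' H.B' hg
    · exact badC_false hT' H.C hg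
    · exact badC_false hT'' H.C' hg
  | succ n ih =>
    intro T t mi mj ht hT hmi hmj hg
    rw [go, Bool.or_eq_true, Bool.or_eq_true, Bool.and_eq_true] at hg
    rcases hg with (hg | hg) | ⟨hg1, hg2⟩
    · exact badA_false hT (by omega) H.A hg
    · exact badA_false hT.tr (by omega) H.A' hg
    have ht1 : t + 1 < 16 := by omega
    have hrep := H.rep_upd ht1 hT
    have hnv : ¬ T (r (t + 1)) (c (t + 1)) ≤ t := by
      rw [hT _ (H.hr _ ht1) _ (H.hc _ ht1), H.hpos _ ht1, if_neg (by omega)]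
      omega
    have hri : ¬ mi < r (t + 1) := by
      intro h
      obtain ⟨s, hs, h2⟩ := H.canr _ ht1 _ h
      have := hmi s (by omega)
      omega
    have hci : ¬ mj < c (t + 1) := by
      intro h
      obtain ⟨s, hs, h2⟩ := H.canc _ ht1 _ h
      have := hmj s (by omega)
      omega
    rcases H.step t (by omega) with hs | hs
    · have h1 := all4_iff hg2 _ (H.hc _ ht1)
      rw [Bool.or_eq_true, Bool.or_eq_true, Nat.blt_eq, Nat.ble_eq, ← hs] at h1
      rcases h1 with (h1 | h1) | h1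
      · exact hci h1
      · exact hnv h1
      · refine ih _ (t + 1) mi _ (by omega) hrep ?_ ?_ h1
        · intro s hs'
          rcases Nat.lt_or_ge t s with h | h
          · have : s = t + 1 := by omega
            rw [this, hs]; exact hmi t le_rfl
          · exact hmi s h
        · intro s hs'
          rcases Nat.lt_or_ge t s with h | h
          · have : s = t + 1 := by omega
            rw [this]; exact lt_of_lt_of_le (Nat.lt_succ_self _) (Nat.le_max_right _ _)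
          · exact lt_of_lt_of_le (hmj s h) (Nat.le_max_left _ _)
    · have h1 := all4_iff hg1 _ (H.hr _ ht1)
      rw [Bool.or_eq_true, Bool.or_eq_true, Nat.blt_eq, Nat.ble_eq, ← hs] at h1
      rcases h1 with (h1 | h1) | h1
      · exact hri h1
      · exact hnv h1
      · refine ih _ (t + 1) _ mj (by omega) hrep ?_ ?_ h1
        · intro s hs'
          rcases Nat.lt_or_ge t s with h | h
          · have : s = t + 1 := by omega
            rw [this]; exact lt_of_lt_of_le (Nat.lt_succ_self _) (Nat.le_max_right _ _)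
          · exact lt_of_lt_of_le (hmi s h) (Nat.le_max_left _ _)
        · intro s hs'
          rcases Nat.lt_or_ge t s with h | h
          · have : s = t + 1 := by omega
            rw [this, hs]; exact hmj t le_rfl
          · exact hmj s h

theorem Hyp.elim {pos : ℕ → ℕ → ℕ} {r c : ℕ → ℕ} (H : Hyp pos r c) : False := by
  have hr0 : r 0 = 0 := by
    by_contra h
    obtain ⟨s, hs, _⟩ := H.canr 0 (by norm_num) 0 (Nat.pos_of_ne_zero h)
    omega
  have hc0 : c 0 = 0 := by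
    by_contra h
    obtain ⟨s, hs, _⟩ := H.canc 0 (by norm_num) 0 (Nat.pos_of_ne_zero h)
    omega
  have hp0 : pos 0 0 = 0 := by
    have := H.hpos 0 (by norm_num)
    rwa [hr0, hc0] at this
  refine H.go_false 15 (upd (fun _ _ => 99) 0 0 0) 0 1 1 rfl ?_ ?_ ?_ ?_
  · intro i hi j hj
    unfold upd
    by_cases hij : i = 0 ∧ j = 0
    · obtain ⟨rfl, rfl⟩ := hij
      simp [hp0]
    · have h1 : (Nat.beq i 0 && Nat.beq j 0) = false := by
        rw [Bool.eq_false_iff]
        intro h2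
        rw [Bool.and_eq_true, Nat.beq_eq, Nat.beq_eq] at h2
        exact hij h2
      rw [h1, cond_false, if_neg]
      intro h4
      have h5 : pos i j = 0 := by omega
      have := H.hinv i hi j hj
      rw [h5, hr0, hc0] at this
      exact hij ⟨this.1.symm, this.2.symm⟩
  · intro s hs
    have : s = 0 := by omega
    rw [this, hr0]; norm_num
  · intro s hs
    have : s = 0 := by omega
    rw [this, hc0]; norm_num
  · rw [hr0, hc0]; exact go_true

end Pool.Agent.H430Z.KleeSearch
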