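import Pool.Agent.H430Z.KleeUpper

/-! A polytope with Gale data 4 + 4 is a simple 6-polytope with 8 facets. -/

namespace Pool.Agent.H430Z.Klee

open Sum KleePoly

lemma exists_pos_all {E : Type*} [NormedAddCommGroup E] [NormedSpace ℝ E] {ι : Type*}
    (a : ι → (E →ᵃ[ℝ] ℝ)) {F : Set E} (hconv : Convex ℝ F) (hsub : F ⊆ Pol a) (hne : F.Nonempty)
    (J : Finset ι) (hJ : ∀ m ∈ J, ∃ v ∈ F, a m v ≠ 0) : ∃ x ∈ F, ∀ i ∈ J, 0 < a i x := by
  classical
  induction J using Finset.induction_on with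
  | empty =>
    obtain ⟨v, hv⟩ := hne
    exact ⟨v, hv, by simp⟩
  | insert j J hj ih =>
    obtain ⟨x, hx, hxJ⟩ := ih fun m hm => hJ m (Finset.mem_insert_of_mem hm)
    obtain ⟨v, hv, hvj⟩ := hJ j (Finset.mem_insert_self j J)
    refine ⟨midpoint ℝ x v, hconv.midpoint_mem hx hv, fun i hi => ?_⟩
    have e : a i (midpoint ℝ x v) = (a i x + a i v) / 2 := by
      rw [AffineMap.map_midpoint, midpoint_eq_smul_add]
      simp; ring
    rw [e]
    have hx0 := hsub hx i
    have hv0 := hsub hv i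
    rcases Finset.mem_insert.mp hi with h | h
    · rw [h] at hx0 hv0 ⊢
      have : 0 < a j v := lt_of_le_of_ne hv0 (Ne.symm hvj)
      linarith
    · have := hxJ i h
      linarith

variable {b : I8 → (Euc 6 →ᵃ[ℝ] ℝ)} {μ ν : Fin 4 → ℝ} {z : Fin 4 → Fin 4 → Euc 6}

lemma gale_zero_iff (G : Gale b μ ν z) (i j : Fin 4) (k : I8) :
    b k (z i j) = 0 ↔ k ≠ inl i ∧ k ≠ inr j := by
  have h0 := (inv_pos.mpr (G.hD i j)).ne'
  rcases k with e | l
  · rw [G.zl]
    split_ifs with h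
    · simp [h, h0]
    · simp [h]
  · rw [G.zr]
    split_ifs with h
    · simp [h, h0]
    · simp [h]

lemma gale_witness (G : Gale b μ ν z) {k m : I8} (h : m ≠ k) :
    ∃ i j, b k (z i j) = 0 ∧ b m (z i j) ≠ 0 := by
  simp only [Ne, gale_zero_iff G]
  revert k m
  decide

theorem gale_simple (G : Gale b μ ν z) : IsSimplePolytope 6 8 (Pol b) := by
  classical
  have : Nontrivial I8 := ⟨inl 0, inl 1, by simp⟩
  let Fc : I8 → Set (Euc 6) := fun k => {y ∈ Pol b | b k y = 0}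
  have hexp : ∀ k, IsExposed ℝ (Pol b) (Fc k) := by
    intro k
    have := face_exposed b (fun m => m = k)
    simpa using this
  have hnz : ∀ k, ∃ y, b k y ≠ 0 := by
    intro k
    obtain ⟨m, hm⟩ := exists_ne k
    obtain ⟨i, j, _, h⟩ := gale_witness G hm.symm
    exact ⟨_, h⟩
  have hne : ∀ k, (Fc k).Nonempty := by
    intro k
    obtain ⟨m, hm⟩ := exists_ne k
    obtain ⟨i, j, h, _⟩ := gale_witness G hm
    exact ⟨_, G.z_mem i j, h⟩
  have hfac : ∀ k, Fc k ∈ facets (Pol b) := by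
    intro k
    refine ⟨hexp k, hne k, ?_⟩
    obtain ⟨p, hp, hp'⟩ := exists_pos_all b ((hexp k).convex (Pol_convex b)) (hexp k).subset
      (hne k) (Finset.univ.erase k) (fun m hm => by
        obtain ⟨i, j, h1, h2⟩ := gale_witness G (Finset.ne_of_mem_erase hm)
        exact ⟨_, ⟨G.z_mem i j, h1⟩, h2⟩)
    have := facet_dim b k hp.1 hp.2 (fun m hm => (hp' m (by simp [hm])).ne') (hnz k)
    rwa [finrank_euc] at this
  have hall : ∀ F ∈ facets (Pol b), ∃ k, F = Fc k := by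
    rintro F ⟨h1, h2, h3⟩
    have h3' : Module.finrank ℝ (vectorSpan ℝ F) + 1 = Module.finrank ℝ (Euc 6) := by
      rw [finrank_euc]; exact h3
    obtain ⟨k, hk⟩ := facet_sub b h1 h2 h3'
    exact ⟨k, facet_eq h1 h2 h3' (b k) hk (hnz k)⟩
  have hinj : Function.Injective Fc := by
    intro k m hkm
    by_contra hne'
    obtain ⟨i, j, h1, h2⟩ := gale_witness G (Ne.symm hne')
    have h3 : z i j ∈ Fc k := ⟨G.z_mem i j, h1⟩
    rw [hkm] at h3
    exact h2 h3.2
  refine ⟨⟨Finset.univ.image fun p : Fin 4 × Fin 4 => z p.1 p.2, ?_⟩, ?_, ?_, ?_⟩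
  · rw [Finset.coe_image, Finset.coe_univ, Set.image_univ]
    exact G.hull
  · obtain ⟨p, _, hp⟩ := exists_pos_all b (Pol_convex b) subset_rfl ⟨_, G.z_mem 0 0⟩ Finset.univ
      (fun m _ => by
        obtain ⟨k, hk⟩ := exists_ne m
        obtain ⟨i, j, _, h⟩ := gale_witness G hk.symm
        exact ⟨_, G.z_mem i j, h⟩)
    exact ⟨p, interior_of_pos b fun k => hp k (Finset.mem_univ k)⟩
  · have : facets (Pol b) = Fc '' ((Finset.univ : Finset I8) : Set I8) := by
      ext F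
      constructor
      · intro hF
        obtain ⟨k, rfl⟩ := hall F hF
        exact ⟨k, by simp, rfl⟩
      · rintro ⟨k, _, rfl⟩
        exact hfac k
    rw [this, hinj.encard_image, Set.encard_coe_eq_coe_finsetCard]
    simp
  · intro x hx
    obtain ⟨i, j, rfl⟩ := G.ext_cases hx
    have : {F ∈ facets (Pol b) | z i j ∈ F} =
        Fc '' (((Finset.univ.erase (inl i)).erase (inr j) : Finset I8) : Set I8) := by
      ext F
      constructor
      · rintro ⟨hF, hz⟩
        obtain ⟨k, rfl⟩ := hall F hF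
        have := (gale_zero_iff G i j k).mp hz.2
        exact ⟨k, by simp [this.1, this.2], rfl⟩
      · rintro ⟨k, hk, rfl⟩
        refine ⟨hfac k, G.z_mem i j, (gale_zero_iff G i j k).mpr ?_⟩
        simp only [Finset.coe_erase, Set.mem_sdiff, Set.mem_singleton_iff] at hk
        exact ⟨hk.1.2, hk.2⟩
    rw [this, hinj.encard_image, Set.encard_coe_eq_coe_finsetCard,
      Finset.card_erase_of_mem (by simp), Finset.card_erase_of_mem (by simp)]
    simp

lemma gale_adj (G : Gale b μ ν z) {i j e l : Fin 4}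
    (h : (e ≠ i ∧ l = j) ∨ (e = i ∧ l ≠ j)) : Adj (Pol b) (z i j) (z e l) := by
  refine ⟨G.z_ext _ _, G.z_ext _ _, fun h' => ?_, ?_⟩
  · have := G.z_inj h'
    rcases h with h | h
    · exact h.1 this.1.symm
    · exact h.2 this.2.symm
  · rcases h with ⟨h1, rfl⟩ | ⟨rfl, h2⟩
    · exact G.adj_col _ h1
    · exact G.adj_row _ h2

lemma gale_adj_cases (G : Gale b μ ν z) {i j : Fin 4} {w : Euc 6} (h : Adj (Pol b) (z i j) w) :
    ∃ e l, w = z e l ∧ (e = i ∨ l = j) := by
  obtain ⟨e, l, rfl⟩ := G.ext_cases h.2.1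
  refine ⟨e, l, rfl, ?_⟩
  by_contra hc
  push Not at hc
  exact G.not_adj hc.1 hc.2 h.2.2.2

end Pool.Agent.H430Z.Klee
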