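import Pool.Agent.H430Z.KleeGale

/-! A simple 6-polytope with 8 facets and 16 vertices has the Gale diagram 4 + 4. -/

set_option linter.unusedSectionVars false

namespace Pool.Agent.H430Z.KleePoly

open Sum

variable {E : Type*} [NormedAddCommGroup E] [NormedSpace ℝ E] [FiniteDimensional ℝ E]

lemma Gale.rect {b : I8 → (E →ᵃ[ℝ] ℝ)} {μ ν : Fin 4 → ℝ} {z : Fin 4 → Fin 4 → E}
    (G : Gale b μ ν z) (φ : E →ₗ[ℝ] ℝ) (i j k l : Fin 4) :
    φ (z i j) * (μ i + ν j) + φ (z k l) * (μ k + ν l) =
      φ (z i l) * (μ i + ν l) + φ (z k j) * (μ k + ν j) := by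
  have hij := G.hD i j
  have hkl := G.hD k l
  have hil := G.hD i l
  have hkj := G.hD k j
  set S := μ i + ν j + (μ k + ν l) with hS
  have hS0 : 0 < S := by positivity
  have s1 : (μ i + ν j) / S + (μ k + ν l) / S = 1 := by field_simp; rfl
  have s2 : (μ i + ν l) / S + (μ k + ν j) / S = 1 := by field_simp; rw [hS]; ring
  have heq : ((μ i + ν l) / S) • z i l + ((μ k + ν j) / S) • z k j =
      ((μ i + ν j) / S) • z i j + ((μ k + ν l) / S) • z k l := by
    apply G.inj
    rintro (m | m)
    · rw [aff_combo _ _ _ s1, aff_combo _ _ _ s2, G.zl, G.zl, G.zl, G.zl]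
      split_ifs <;> field_simp <;> ring
    · rw [aff_combo _ _ _ s1, aff_combo _ _ _ s2, G.zr, G.zr, G.zr, G.zr]
      split_ifs <;> field_simp <;> ring
  have h := congrArg φ heq
  simp only [map_add, map_smul, smul_eq_mul] at h
  field_simp at h
  linarith

lemma Gale.of_support {b : I8 → (E →ᵃ[ℝ] ℝ)} {μ ν : Fin 4 → ℝ} {z : Fin 4 → Fin 4 → E}
    (bal : ∀ x, ∑ i, b (inl i) x = ∑ j, b (inr j) x)
    (nor : ∀ x, ∑ i, μ i * b (inl i) x + ∑ j, ν j * b (inr j) x = 1)
    (inj : ∀ x y, (∀ k, b k x = b k y) → x = y)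
    (h1 : ∀ i j e, e ≠ i → b (inl e) (z i j) = 0) (h2 : ∀ i j l, l ≠ j → b (inr l) (z i j) = 0)
    (h3 : ∀ i j, 0 < b (inl i) (z i j)) : Gale b μ ν z := by
  have key : ∀ i j, b (inl i) (z i j) = b (inr j) (z i j) ∧
      (μ i + ν j) * b (inl i) (z i j) = 1 := by
    intro i j
    have e1 := bal (z i j)
    have e2 := nor (z i j)
    rw [Finset.sum_eq_single i (fun e _ he => h1 i j e he) (by simp),
      Finset.sum_eq_single j (fun e _ he => h2 i j e he) (by simp)] at e1
    rw [Finset.sum_eq_single i (fun e _ he => by rw [h1 i j e he, mul_zero]) (by simp),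
      Finset.sum_eq_single j (fun e _ he => by rw [h2 i j e he, mul_zero]) (by simp), ← e1] at e2
    exact ⟨e1, by linarith⟩
  have hD : ∀ i j, 0 < μ i + ν j := by
    intro i j
    have := (key i j).2
    have := h3 i j
    by_contra hc
    push Not at hc
    nlinarith
  refine ⟨hD, bal, nor, inj, fun i j e => ?_, fun i j l => ?_⟩
  · split_ifs with h
    · rw [h]; exact eq_inv_of_mul_eq_one_right (key i j).2
    · exact h1 i j e h
  · split_ifs with h
    · rw [h, ← (key i j).1]; exact eq_inv_of_mul_eq_one_right (key i j).2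
    · exact h2 i j l h

theorem exists_gale {ι : Type} [Fintype ι] [DecidableEq ι] (hι : Fintype.card ι = 8)
    (hE : Module.finrank ℝ E = 6) (a : ι → (E →ᵃ[ℝ] ℝ))
    (hbdd : Bornology.IsBounded (Pol a)) (hint : (interior (Pol a)).Nonempty)
    (hs : ∀ x ∈ (Pol a).extremePoints ℝ, ∃ i j, i ≠ j ∧ ∀ k, a k x ≠ 0 ↔ (k = i ∨ k = j))
    (v : Fin 16 → E) (hv : ∀ t, v t ∈ (Pol a).extremePoints ℝ) (hvi : Function.Injective v) :
    ∃ (e : I8 ≃ ι) (w : I8 → ℝ) (μ ν : Fin 4 → ℝ) (z : Fin 4 → Fin 4 → E),
      (∀ k, 0 < w k) ∧ Gale (fun k => w k • a (e k)) μ ν z := by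
  classical
  haveI : Nontrivial E := Module.nontrivial_of_finrank_pos (R := ℝ) (by omega)
  have hΦ := Phi_injective a hbdd hint
  have hV : Module.finrank ℝ (LinearMap.range (Phi a)) = 7 := by
    rw [LinearMap.finrank_range_of_inj hΦ, Module.finrank_prod, Module.finrank_self, hE]
  have h8 : Module.finrank ℝ (ι → ℝ) = 8 := by
    rw [Module.finrank_fintype_fun_eq_card, hι]
  have hlt : LinearMap.range (Phi a) < ⊤ := by
    rw [lt_top_iff_ne_top]
    intro h
    rw [h, finrank_top, h8] at hV
    omega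
  obtain ⟨W, hW0, hW⟩ := Submodule.exists_le_ker_of_lt_top _ hlt
  have hWk : LinearMap.range (Phi a) = LinearMap.ker W := by
    apply Submodule.eq_of_le_of_finrank_eq hW
    have := finrank_ker_add_one W hW0
    omega
  obtain ⟨gl, hgl⟩ := LinearMap.exists_leftInverse_of_injective (Phi a)
    (LinearMap.ker_eq_bot.mpr hΦ)
  let Λ : (ι → ℝ) →ₗ[ℝ] ℝ := LinearMap.snd ℝ E ℝ ∘ₗ gl
  have hΛ : ∀ p, Λ (Phi a p) = p.2 := by
    intro p
    have := LinearMap.congr_fun hgl p
    simp only [LinearMap.comp_apply, LinearMap.id_apply] at this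
    simp only [Λ, LinearMap.comp_apply, this, LinearMap.snd_apply]
  let ξ : ι → ℝ := fun k => W (Pi.single k 1)
  let lam : ι → ℝ := fun k => Λ (Pi.single k 1)
  have hexp : ∀ (f : (ι → ℝ) →ₗ[ℝ] ℝ) (y : ι → ℝ), f y = ∑ k, y k * f (Pi.single k 1) := by
    intro f y
    rw [LinearMap.pi_apply_eq_sum_univ f y]
    refine Finset.sum_congr rfl fun i _ => ?_
    rw [smul_eq_mul]
    congr 2
    funext j
    simp [Pi.single_apply, eq_comm]
  have hbal : ∀ x, ∑ k, a k x * ξ k = 0 := by
    intro x
    have h1 : W (Phi a (x, 1)) = 0 := by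
      rw [← LinearMap.mem_ker, ← hWk]; exact LinearMap.mem_range_self _ _
    rw [hexp] at h1
    simpa only [Phi_one] using h1
  have hnor : ∀ x, ∑ k, a k x * lam k = 1 := by
    intro x
    have h1 := hΛ (x, 1)
    rw [hexp] at h1
    simpa only [Phi_one] using h1
  have hsup : ∀ x ∈ (Pol a).extremePoints ℝ, ∃ i j, ξ i < 0 ∧ 0 < ξ j ∧
      ∀ k, a k x ≠ 0 ↔ (k = i ∨ k = j) := by
    intro x hx
    obtain ⟨i, j, hij, hk⟩ := hs x hx
    have hxP : x ∈ Pol a := extremePoints_subset hx
    have hz : ∀ k, k ≠ i ∧ k ≠ j → a k x = 0 := by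
      intro k h
      by_contra hc
      rcases (hk k).mp hc with h' | h'
      · exact h.1 h'
      · exact h.2 h'
    have hi : 0 < a i x := lt_of_le_of_ne (hxP i) ((hk i).mpr (Or.inl rfl)).symm
    have hj : 0 < a j x := lt_of_le_of_ne (hxP j) ((hk j).mpr (Or.inr rfl)).symm
    have e1 := hbal x
    have e2 := hnor x
    rw [Finset.sum_eq_add_of_mem i j (by simp) (by simp) hij
      (fun m _ hm => by rw [hz m hm, zero_mul])] at e1 e2
    have hne : ξ i ≠ 0 := by
      intro h0
      have h0' : ξ j = 0 := by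
        rw [h0, mul_zero, zero_add] at e1
        exact (mul_eq_zero.mp e1).resolve_left hj.ne'
      let t : ι → ℝ := lam j • Pi.single i 1 - lam i • Pi.single j 1
      have ht : t ∈ LinearMap.range (Phi a) := by
        rw [hWk, LinearMap.mem_ker]
        simp only [t, map_sub, map_smul, smul_eq_mul]
        show lam j * ξ i - lam i * ξ j = 0
        rw [h0, h0']; ring
      obtain ⟨⟨u, l⟩, hu⟩ := ht
      have hl : l = 0 := by
        have h1 := hΛ (u, l)
        rw [hu] at h1
        simp only [t, map_sub, map_smul, smul_eq_mul] at h1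
        have h2 : lam j * lam i - lam i * lam j = l := h1
        rw [← h2]; ring
      have hlin : ∀ k, (a k).linear u = t k := by
        intro k
        have h1 := congrFun hu k
        rw [Phi_apply, hl, zero_mul, zero_add] at h1
        exact h1
      have hz2 : ∀ k, a k x = 0 → (a k).linear u = 0 := by
        intro k hk0
        have h1 : k ≠ i := by rintro rfl; exact hi.ne' hk0
        have h2 : k ≠ j := by rintro rfl; exact hj.ne' hk0
        rw [hlin]
        simp [t, h1, h2]
      obtain ⟨δ, hδ, h2⟩ := step_ex a hxP u hz2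
      have h3 := ((mem_ext_iff a x).mp hx).2 _ h2 (fun k hk0 => by
        rw [aff_add, hk0, hz2 k hk0]; ring)
      have hu0 : u = 0 := by
        have : δ • u = 0 := by simpa using h3
        exact (smul_eq_zero.mp this).resolve_left hδ.ne'
      have t1 := hlin i
      have t2 := hlin j
      rw [hu0, map_zero] at t1 t2
      simp [t, hij, hij.symm] at t1 t2
      rw [t2, ← t1] at e2
      simp at e2
    rcases lt_or_gt_of_ne hne with h | h
    · refine ⟨i, j, h, ?_, hk⟩
      by_contra hc
      push Not at hc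
      nlinarith
    · refine ⟨j, i, ?_, h, fun k => by rw [hk, or_comm]⟩
      by_contra hc
      push Not at hc
      nlinarith
  choose fi fj hfi hfj hf using fun t => hsup (v t) (hv t)
  let L : Finset ι := Finset.univ.filter fun k => ξ k < 0
  let R : Finset ι := Finset.univ.filter fun k => 0 < ξ k
  let f : Fin 16 → L × R := fun t => (⟨fi t, by simp [L, hfi t]⟩, ⟨fj t, by simp [R, hfj t]⟩)
  have hfinj : Function.Injective f := by
    intro s t hst
    simp only [f, Prod.mk.injEq, Subtype.mk.injEq] at hst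
    apply hvi
    refine ((mem_ext_iff a (v t)).mp (hv t)).2 _ (extremePoints_subset (hv s)) fun k hk => ?_
    by_contra hc
    have := (hf s k).mp hc
    rw [hst.1, hst.2] at this
    exact (hf t k).mpr this hk
  have hc1 : 16 ≤ L.card * R.card := by
    have := Fintype.card_le_of_injective f hfinj
    simpa using this
  have hdisj : Disjoint L R := by
    rw [Finset.disjoint_left]
    intro k h1 h2
    simp only [L, R, Finset.mem_filter] at h1 h2
    linarith [h1.2, h2.2]
  have hc2 : L.card + R.card ≤ 8 := by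
    rw [← Finset.card_union_of_disjoint hdisj, ← hι]
    exact Finset.card_le_univ _
  have hL : L.card = 4 := by
    have : L.card ≤ 8 := by omega
    have : R.card ≤ 8 - L.card := by omega
    have h3 := Nat.mul_le_mul_left L.card this
    interval_cases L.card <;> omega
  have hR : R.card = 4 := by
    rw [hL] at hc1 hc2
    omega
  have hfbij : Function.Bijective f := by
    rw [Fintype.bijective_iff_injective_and_card]
    exact ⟨hfinj, by simp [hL, hR]⟩
  let eL : Fin 4 ≃ L := (Finset.equivFinOfCardEq hL).symm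
  let eR : Fin 4 ≃ R := (Finset.equivFinOfCardEq hR).symm
  have hLneg : ∀ i, ξ (eL i) < 0 := fun i => (Finset.mem_filter.mp (eL i).2).2
  have hRpos : ∀ i, 0 < ξ (eR i) := fun i => (Finset.mem_filter.mp (eR i).2).2
  let e0 : I8 → ι := Sum.elim (fun i => (eL i).1) (fun j => (eR j).1)
  have he0 : Function.Injective e0 := by
    rintro (i | i) (j | j) h
    · rw [eL.injective (Subtype.ext h)]
    · have h1 := hLneg i
      have h2 := hRpos j
      have h3 : (eL i).1 = (eR j).1 := h
      rw [h3] at h1; linarith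
    · have h1 := hLneg j
      have h2 := hRpos i
      have h3 : (eR i).1 = (eL j).1 := h
      rw [h3] at h2; linarith
    · rw [eR.injective (Subtype.ext h)]
  have he0b : Function.Bijective e0 := by
    rw [Fintype.bijective_iff_injective_and_card]
    exact ⟨he0, by simp [hι]⟩
  let e : I8 ≃ ι := Equiv.ofBijective e0 he0b
  have hel : ∀ i, e (inl i) = (eL i).1 := fun i => rfl
  have her : ∀ i, e (inr i) = (eR i).1 := fun i => rfl
  let w : I8 → ℝ := Sum.elim (fun i => -ξ (eL i)) (fun j => ξ (eR j))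
  have hw : ∀ k, 0 < w k := by
    rintro (i | j)
    · exact neg_pos.mpr (hLneg i)
    · exact hRpos j
  choose T hT using fun i j => hfbij.2 (eL i, eR j)
  have hTi : ∀ i j, fi (T i j) = (eL i).1 := fun i j =>
    congrArg Subtype.val (congrArg Prod.fst (hT i j))
  have hTj : ∀ i j, fj (T i j) = (eR j).1 := fun i j =>
    congrArg Subtype.val (congrArg Prod.snd (hT i j))
  have hzero : ∀ i j k, k ≠ inl i → k ≠ inr j → a (e k) (v (T i j)) = 0 := by
    intro i j k h1 h2
    by_contra hc
    rcases (hf (T i j) (e k)).mp hc with h | h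
    · rw [hTi, ← hel] at h; exact h1 (e.injective h)
    · rw [hTj, ← her] at h; exact h2 (e.injective h)
  refine ⟨e, w, fun i => lam (eL i) / w (inl i), fun j => lam (eR j) / w (inr j),
    fun i j => v (T i j), hw, Gale.of_support ?_ ?_ ?_ ?_ ?_ ?_⟩
  · intro x
    have h1 := hbal x
    rw [← e.sum_comp, Fintype.sum_sum_type] at h1
    simp only [hel, her] at h1
    simp only [AffineMap.coe_smul, Pi.smul_apply, smul_eq_mul, hel, her, w, Sum.elim_inl,
      Sum.elim_inr]
    simp only [Fin.sum_univ_four] at h1 ⊢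
    linarith
  · intro x
    have h1 := hnor x
    rw [← e.sum_comp, Fintype.sum_sum_type] at h1
    simp only [hel, her] at h1
    rw [← h1]
    simp only [AffineMap.coe_smul, Pi.smul_apply, smul_eq_mul, hel, her]
    congr 1
    · refine Finset.sum_congr rfl fun i _ => ?_
      have := (hw (inl i)).ne'
      field_simp
    · refine Finset.sum_congr rfl fun i _ => ?_
      have := (hw (inr i)).ne'
      field_simp
  · intro x y h
    have h1 : Phi a (x, 1) = Phi a (y, 1) := by
      funext k
      obtain ⟨k, rfl⟩ := e.surjective k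
      rw [Phi_one, Phi_one]
      have h2 := h k
      simp only [AffineMap.coe_smul, Pi.smul_apply, smul_eq_mul] at h2
      exact mul_left_cancel₀ (hw k).ne' h2
    exact congrArg Prod.fst (hΦ h1)
  · intro i j m hm
    simp only [AffineMap.coe_smul, Pi.smul_apply, smul_eq_mul]
    rw [hzero i j _ (by simpa using hm) (by simp), mul_zero]
  · intro i j m hm
    simp only [AffineMap.coe_smul, Pi.smul_apply, smul_eq_mul]
    rw [hzero i j _ (by simp) (by simpa using hm), mul_zero]
  · intro i j
    simp only [AffineMap.coe_smul, Pi.smul_apply, smul_eq_mul]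
    refine mul_pos (hw _) (lt_of_le_of_ne (extremePoints_subset (hv _) _) (Ne.symm ?_))
    exact (hf _ _).mpr (Or.inl (by rw [hTi, hel]))

end Pool.Agent.H430Z.KleePoly
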