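import Pool.Agent.H430Z.KleeDefs
import Pool.Agent.H430Z.KleeStruct
import Pool.Agent.H430Z.KleeCore

/-! Upper bounds for simple 6-polytopes with 8 facets. -/

namespace Pool.Agent.H430Z.Klee

open Sum KleePoly KleeSearch

lemma finrank_euc (d : ℕ) : Module.finrank ℝ (Euc d) = d := by simp

lemma IsPath.vertex {d : ℕ} {P : Set (Euc d)} {φ : Euc d →ₗ[ℝ] ℝ} {k : ℕ} {x : ℕ → Euc d}
    (h : IsPath P φ k x) {t : ℕ} (ht : t ≤ k) : x t ∈ P.extremePoints ℝ := by
  cases t with
  | zero => exact h.1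
  | succ n => exact (h.2 n (by omega)).1.2.1

lemma IsPath.mono {d : ℕ} {P : Set (Euc d)} {φ : Euc d →ₗ[ℝ] ℝ} {k : ℕ} {x : ℕ → Euc d}
    (h : IsPath P φ k x) {s t : ℕ} (hst : s < t) (ht : t ≤ k) : φ (x s) < φ (x t) := by
  induction t with
  | zero => omega
  | succ n ih =>
    have h1 := (h.2 n (by omega)).2
    rcases Nat.lt_or_ge s n with h' | h'
    · exact (ih h' (by omega)).trans h1
    · have : s = n := by omega
      rw [this]; exact h1

theorem structure_thm {P : Set (Euc 6)} (hP : IsSimplePolytope 6 8 P)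
    {g : Set (Euc 6) → (Euc 6 →ᵃ[ℝ] ℝ)} (hg : IsFacetFamily P g)
    {φ : Euc 6 →ₗ[ℝ] ℝ} {k : ℕ} {x : ℕ → Euc 6} (hx : IsPath P φ k x) (hk : 15 ≤ k) :
    ∃ (e : I8 ≃ facets P) (w : I8 → ℝ) (μ ν : Fin 4 → ℝ) (z : Fin 4 → Fin 4 → Euc 6),
      (∀ k, 0 < w k) ∧ Gale (fun k => w k • g (e k)) μ ν z ∧
        Pol (fun k => w k • g (e k)) = P := by
  classical
  obtain ⟨⟨S, hS⟩, hint, hcard, hsimple⟩ := hP
  have hfin : (facets P).Finite := Set.finite_of_encard_eq_coe hcard
  letI : Fintype (facets P) := hfin.fintype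
  have hc8 : Fintype.card (facets P) = 8 := by
    rw [Set.encard_eq_coe_toFinset_card, Set.toFinset_card] at hcard
    exact_mod_cast hcard
  let a : facets P → (Euc 6 →ᵃ[ℝ] ℝ) := fun F => g F
  have hPa : Pol a = P := by
    apply Set.Subset.antisymm
    · intro y hy
      rw [hS]
      refine mem_of_facets S (hS ▸ hint) g (fun F h1 h2 h3 => ?_) y (fun F h1 h2 h3 => ?_)
      · rw [← hS] at h1 ⊢
        rw [finrank_euc] at h3
        obtain ⟨g0, g1, y, _, g2⟩ := hg F ⟨h1, h2, h3⟩
        exact ⟨g0, g1, y, g2⟩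
      · rw [← hS] at h1
        rw [finrank_euc] at h3
        exact hy ⟨F, h1, h2, h3⟩
    · intro y hy F
      exact (hg F F.2).2.1 y hy
  have hmem : ∀ F : facets P, ∀ y ∈ P, y ∈ F.1 ↔ g F y = 0 := by
    intro F y hy
    obtain ⟨g0, _, y', _, g2⟩ := hg F F.2
    have := facet_eq F.2.1 F.2.2.1 (by rw [finrank_euc]; exact F.2.2.2) (g F) g0 ⟨y', g2⟩
    constructor
    · exact g0 y
    · intro h
      rw [this]; exact ⟨hy, h⟩
  have hbdd : Bornology.IsBounded (Pol a) := by
    rw [hPa, hS]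
    exact (S.finite_toSet.isCompact_convexHull ℝ).isBounded
  have hs : ∀ y ∈ (Pol a).extremePoints ℝ, ∃ i j, i ≠ j ∧ ∀ F, a F y ≠ 0 ↔ (F = i ∨ F = j) := by
    intro y hy
    rw [hPa] at hy
    have h1 := hsimple y hy
    have hyP : y ∈ P := extremePoints_subset hy
    let Z : Finset (facets P) := Finset.univ.filter fun F => a F y = 0
    have h2 : {F ∈ facets P | y ∈ F} = Subtype.val '' (Z : Set (facets P)) := by
      ext F
      constructor
      · rintro ⟨hF, hyF⟩
        exact ⟨⟨F, hF⟩, by simpa [Z, a] using (hmem ⟨F, hF⟩ y hyP).mp hyF, rfl⟩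
      · rintro ⟨F, hF, rfl⟩
        exact ⟨F.2, (hmem F y hyP).mpr (by simpa [Z, a] using hF)⟩
    rw [h2, Subtype.val_injective.encard_image, Set.encard_coe_eq_coe_finsetCard] at h1
    have h3 : Z.card = 6 := by exact_mod_cast h1
    have h4 : Zᶜ.card = 2 := by rw [Finset.card_compl, hc8, h3]
    obtain ⟨i, j, hij, h5⟩ := Finset.card_eq_two.mp h4
    refine ⟨i, j, hij, fun F => ?_⟩
    have : F ∈ Zᶜ ↔ F ∈ ({i, j} : Finset _) := by rw [h5]
    simpa [Z] using this
  obtain ⟨e, w, μ, ν, z, hw, G⟩ := exists_gale hc8 (finrank_euc 6) a hbdd (by rw [hPa]; exact hint) hs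
    (fun t => x t) (fun t => by rw [hPa]; exact hx.vertex (by omega)) (by
      intro s t hst
      by_contra hne
      rcases lt_or_gt_of_ne hne with h | h
      · have := hx.mono (s := s) (t := t) h (by omega)
        simp only at hst
        rw [hst] at this
        exact lt_irrefl _ this
      · have := hx.mono (s := t) (t := s) h (by omega)
        simp only at hst
        rw [hst] at this
        exact lt_irrefl _ this)
  refine ⟨e, w, μ, ν, z, hw, G, Eq.trans ?_ hPa⟩
  ext y
  constructor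
  · intro h F
    obtain ⟨k, rfl⟩ := e.surjective F
    have h1 := h k
    simp only [AffineMap.coe_smul, Pi.smul_apply, smul_eq_mul] at h1
    exact nonneg_of_mul_nonneg_right h1 (hw k) 
  · intro h k
    simp only [AffineMap.coe_smul, Pi.smul_apply, smul_eq_mul]
    exact mul_nonneg (hw k).le (h (e k))

theorem no_simplex_path {P : Set (Euc 6)} (hP : IsSimplePolytope 6 8 P)
    {g : Set (Euc 6) → (Euc 6 →ᵃ[ℝ] ℝ)} (hg : IsFacetFamily P g)
    {φ : Euc 6 →ₗ[ℝ] ℝ} {k : ℕ} {x : ℕ → Euc 6} (hx : IsSimplexPath P g φ k x) : k ≤ 14 := by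
  by_contra hk
  have hk' : 15 ≤ k := by omega
  obtain ⟨e, w, μ, ν, z, hw, G, hPol⟩ := structure_thm hP hg hx.1 hk'
  have hv : ∀ t, ∃ i j, t ≤ k → x t = z i j := by
    intro t
    by_cases ht : t ≤ k
    · have := hx.1.vertex ht
      rw [← hPol] at this
      obtain ⟨i, j, h⟩ := G.ext_cases this
      exact ⟨i, j, fun _ => h⟩
    · exact ⟨0, 0, fun h => absurd h ht⟩
  choose r c hrc using hv
  have gl : ∀ i j m, g (e (inl m)) (z i j) = if m = i then (μ i + ν j)⁻¹ / w (inl m) else 0 := by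
    intro i j m
    have h1 := G.zl i j m
    simp only [AffineMap.coe_smul, Pi.smul_apply, smul_eq_mul] at h1
    have h2 := (hw (inl m)).ne'
    split_ifs at h1 ⊢
    · rw [← h1]; field_simp
    · exact (mul_eq_zero.mp h1).resolve_left h2
  have gr : ∀ i j m, g (e (inr m)) (z i j) = if m = j then (μ i + ν j)⁻¹ / w (inr m) else 0 := by
    intro i j m
    have h1 := G.zr i j m
    simp only [AffineMap.coe_smul, Pi.smul_apply, smul_eq_mul] at h1
    have h2 := (hw (inr m)).ne'
    split_ifs at h1 ⊢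
    · rw [← h1]; field_simp
    · exact (mul_eq_zero.mp h1).resolve_left h2
  have hpos : ∀ i j m, 0 < (μ i + ν j)⁻¹ / w m := fun i j m =>
    div_pos (inv_pos.mpr (G.hD i j)) (hw m)
  have hext : ∀ i j, z i j ∈ P.extremePoints ℝ := fun i j => hPol ▸ G.z_ext i j
  refine Dz.elim (μ := μ) (ν := ν) (h := fun i => φ (z i 0) * (μ i + ν 0))
    (k := fun j => φ (z 0 j) * (μ 0 + ν j) - φ (z 0 0) * (μ 0 + ν 0))
    (w := fun i => w (inl i)) (u := fun j => w (inr j)) (α := fun i j => φ (z i j))
    (r := r) (c := c) ⟨G.hD, fun i j => ?_, fun i => hw _, fun i => hw _, fun t ht => ?_,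
      fun t ht => ?_⟩
  · have := G.rect φ i j 0 0
    linarith
  · have := (hx.1.2 t (by omega)).2
    rwa [hrc t (by omega), hrc (t + 1) (by omega)] at this
  · obtain ⟨γ, ⟨F, hF, h1, h2, h3⟩, _, h5⟩ := hx.2 t (by omega)
    have hadj := (hx.1.2 t (by omega)).1
    rw [hrc t (by omega)] at h1 h3 h5 hadj
    rw [hrc (t + 1) (by omega)] at h2 h3 hadj
    obtain ⟨m, hm⟩ := e.surjective ⟨F, hF⟩
    have hm' : F = (e m).1 := by rw [hm]
    subst hm'
    refine ⟨γ, ?_, fun i hi => ?_, fun l hl => ?_⟩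
    · have hcase : r (t + 1) = r t ∨ c (t + 1) = c t := by
        by_contra hc
        push Not at hc
        exact G.not_adj hc.1 hc.2 (by rw [hPol]; exact hadj.2.2.2)
      rcases m with m | m
      · rw [gl] at h1 h2 h3
        have hm1 : m = r (t + 1) := by
          by_contra hc
          rw [if_neg hc] at h2
          exact lt_irrefl _ h2
        have hm2 : m ≠ r t := by
          intro hc
          rw [if_pos hc] at h1
          exact (hpos _ _ _).ne' h1
        have hcc : c (t + 1) = c t := hcase.resolve_left (by rw [← hm1]; exact hm2)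
        left
        refine ⟨hcc, ?_⟩
        rw [h3, if_pos hm1, hcc, hm1]
        have := (G.hD (r (t + 1)) (c t)).ne'
        have := (hw (inl (r (t + 1)))).ne'
        field_simp
      · rw [gr] at h1 h2 h3
        have hm1 : m = c (t + 1) := by
          by_contra hc
          rw [if_neg hc] at h2
          exact lt_irrefl _ h2
        have hm2 : m ≠ c t := by
          intro hc
          rw [if_pos hc] at h1
          exact (hpos _ _ _).ne' h1
        have hcc : r (t + 1) = r t := hcase.resolve_right (by rw [← hm1]; exact hm2)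
        right
        refine ⟨hcc, ?_⟩
        rw [h3, if_pos hm1, hcc, hm1]
        have := (G.hD (r t) (c (t + 1))).ne'
        have := (hw (inr (c (t + 1)))).ne'
        field_simp
    · refine h5 (z i (c t)) _ ⟨hext _ _, hext _ _, fun h => hi (G.z_inj h).1.symm,
        hPol ▸ G.adj_col (c t) hi⟩ ⟨e (inl i), (e _).2, ?_, ?_, ?_⟩
      · rw [gl, if_neg hi]
      · rw [gl, if_pos rfl]; exact hpos _ _ _
      · rw [gl, if_pos rfl]
        have := (G.hD i (c t)).ne'
        have := (hw (inl i)).ne'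
        field_simp
    · refine h5 (z (r t) l) _ ⟨hext _ _, hext _ _, fun h => hl (G.z_inj h).2.symm,
        hPol ▸ G.adj_row (r t) hl⟩ ⟨e (inr l), (e _).2, ?_, ?_, ?_⟩
      · rw [gr, if_neg hl]
      · rw [gr, if_pos rfl]; exact hpos _ _ _
      · rw [gr, if_pos rfl]
        have := (G.hD (r t) l).ne'
        have := (hw (inr l)).ne'
        field_simp

theorem maxSimplex_le : maxSimplex 6 8 ≤ 14 := by
  refine iSup_le fun P => iSup_le fun hP => iSup_le fun k => iSup_le ?_
  rintro ⟨g, φ, x, hg, hx⟩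
  exact_mod_cast no_simplex_path hP hg hx

lemma exists_family {d : ℕ} {P : Set (Euc d)} (hint : (interior P).Nonempty) :
    ∃ g, IsFacetFamily P g := by
  have key : ∀ F : Set (Euc d), ∃ g : Euc d →ᵃ[ℝ] ℝ, F ∈ facets P →
      (∀ y ∈ F, g y = 0) ∧ (∀ y ∈ P, 0 ≤ g y) ∧ ∃ y ∈ P, g y ≠ 0 := by
    intro F
    by_cases hF : F ∈ facets P
    swap
    · exact ⟨0, fun h => absurd h hF⟩
    obtain ⟨h1, ⟨y0, hy0⟩, h3⟩ := hF
    obtain ⟨l, hl⟩ := h1 ⟨y0, hy0⟩
    have hy0' := hy0
    rw [hl] at hy0'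
    refine ⟨AffineMap.const ℝ _ (l y0) - (l : Euc d →ₗ[ℝ] ℝ).toAffineMap, fun _ => ⟨?_, ?_, ?_⟩⟩
    · intro y hy
      rw [hl] at hy
      have := le_antisymm (hy.2 y0 hy0'.1) (hy0'.2 y hy.1)
      simp [this]
    · intro y hy
      have := hy0'.2 y hy
      simpa using this
    · by_contra hc
      push Not at hc
      have hFP : F = P := by
        rw [hl]
        ext y
        refine ⟨fun h => h.1, fun h => ⟨h, fun y' hy' => ?_⟩⟩
        have e1 := hc y h
        have e2 := hc y' hy'
        simp at e1 e2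
        linarith
      have htop : vectorSpan ℝ F = ⊤ := by
        rw [hFP, ← direction_affineSpan]
        have : affineSpan ℝ P = ⊤ := by
          have h4 := isOpen_interior.affineSpan_eq_top hint
          exact top_le_iff.mp (h4 ▸ affineSpan_mono ℝ interior_subset)
        rw [this, AffineSubspace.direction_top]
      rw [htop, finrank_top, finrank_euc] at h3
      omega
  choose g hg using key
  exact ⟨g, hg⟩

theorem path_le {P : Set (Euc 6)} (hP : IsSimplePolytope 6 8 P)
    {φ : Euc 6 →ₗ[ℝ] ℝ} {k : ℕ} {x : ℕ → Euc 6} (hx : IsPath P φ k x) : k ≤ 15 := by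
  by_contra hk
  obtain ⟨g, hg⟩ := exists_family hP.2.1
  obtain ⟨e, w, μ, ν, z, hw, G, hPol⟩ := structure_thm hP hg hx (by omega)
  have hv : ∀ t : Fin 17, ∃ p : Fin 4 × Fin 4, x t = z p.1 p.2 := by
    intro t
    have := hx.vertex (t := t) (by omega)
    rw [← hPol] at this
    obtain ⟨i, j, h⟩ := G.ext_cases this
    exact ⟨(i, j), h⟩
  choose p hp using hv
  have hinj : Function.Injective p := by
    intro s t hst
    by_contra hne
    rcases lt_or_gt_of_ne hne with h | h
    · have := hx.mono (s := s) (t := t) h (by omega)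
      rw [hp, hp, hst] at this
      exact lt_irrefl _ this
    · have := hx.mono (s := t) (t := s) h (by omega)
      rw [hp, hp, hst] at this
      exact lt_irrefl _ this
  have := Fintype.card_le_of_injective p hinj
  simp at this

theorem maxSteep_le : maxSteep 6 8 ≤ 15 := by
  refine iSup_le fun P => iSup_le fun hP => iSup_le fun k => iSup_le ?_
  rintro ⟨φ, x, hx⟩
  exact_mod_cast path_le hP hx.1

end Pool.Agent.H430Z.Klee
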